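import Mathlib

/-! The number of factorizations of an integer into `t` factors is at most `t ^ Ω(n)`. -/

set_option autoImplicit false

namespace Pool.Agent.V8H32.Cos
open Finset
open scoped Classical

theorem card_FMA (t : ℕ) (n : ℕ) : n ≠ 0 →
    (Nat.finMulAntidiag t n).card ≤ t ^ (Nat.primeFactorsList n).length := by
  induction n using induction_on_primes with
  | zero => intro h; exact absurd rfl h
  | one =>
    intro _
    rw [Nat.finMulAntidiag_one]
    simp
  | prime_mul p a hp ih =>
    intro hpa
    have ha : a ≠ 0 := fun h => hpa (by rw [h, mul_zero])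
    have ih' := ih ha
    have hlen : (Nat.primeFactorsList (p * a)).length = (Nat.primeFactorsList a).length + 1 := by
      have := (Nat.perm_primeFactorsList_mul hp.ne_zero ha).length_eq
      rw [this, List.length_append, Nat.primeFactorsList_prime hp, List.length_singleton, add_comm]
    rw [hlen, pow_succ, mul_comm (t ^ _) t]
    have hsub : Nat.finMulAntidiag t (p * a) ⊆
        ((univ : Finset (Fin t)) ×ˢ Nat.finMulAntidiag t a).image
          (fun x => Function.update x.2 x.1 (p * x.2 x.1)) := by
      intro f hf
      rw [Nat.mem_finMulAntidiag] at hf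
      have hdvd : p ∣ ∏ i, f i := by rw [hf.1]; exact dvd_mul_right _ _
      obtain ⟨i, _, hi⟩ := (Prime.dvd_finsetProd_iff hp.prime f).1 hdvd
      obtain ⟨c, hc⟩ := hi
      rw [mem_image]
      refine ⟨(i, Function.update f i c), ?_, ?_⟩
      · rw [mem_product]
        refine ⟨mem_univ _, ?_⟩
        rw [Nat.mem_finMulAntidiag]
        refine ⟨?_, ha⟩
        have h1 : ∏ j, f j = f i * ∏ j ∈ univ.erase i, f j :=
          (Finset.mul_prod_erase univ f (mem_univ i)).symm
        have h2 : ∏ j, Function.update f i c j = c * ∏ j ∈ univ.erase i, f j := by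
          rw [← Finset.mul_prod_erase univ _ (mem_univ i)]
          simp only [Function.update_self]
          congr 1
          apply Finset.prod_congr rfl
          intro j hj
          rw [Function.update_of_ne (Finset.ne_of_mem_erase hj)]
        rw [h2]
        rw [h1, hc, mul_assoc] at hf
        exact Nat.eq_of_mul_eq_mul_left hp.pos hf.1
      · simp only [Function.update_self, Function.update_idem]
        rw [← hc, Function.update_eq_self]
    calc (Nat.finMulAntidiag t (p * a)).card ≤ _ := Finset.card_le_card hsub
      _ ≤ ((univ : Finset (Fin t)) ×ˢ Nat.finMulAntidiag t a).card := Finset.card_image_le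
      _ = t * (Nat.finMulAntidiag t a).card := by
        rw [Finset.card_product, Finset.card_univ, Fintype.card_fin]
      _ ≤ _ := Nat.mul_le_mul_left t ih'

/-- `y`-rough numbers -/
def Rough (y n : ℕ) : Prop := ∀ p : ℕ, p.Prime → p ∣ n → y < p

lemma rough_one (y : ℕ) : Rough y 1 := by
  intro p hp h
  exact absurd (Nat.dvd_one.1 h) hp.ne_one

lemma Rough.mul {y a b : ℕ} (ha : Rough y a) (hb : Rough y b) : Rough y (a * b) := by
  intro p hp h
  rcases hp.dvd_mul.1 h with h | h
  · exact ha p hp h
  · exact hb p hp h

lemma Rough.of_dvd {y a b : ℕ} (ha : Rough y a) (hb : b ∣ a) : Rough y b :=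
  fun p hp h => ha p hp (h.trans hb)

lemma rough_prod {ι : Type*} (s : Finset ι) (f : ι → ℕ) (y : ℕ) (h : ∀ i ∈ s, Rough y (f i)) :
    Rough y (∏ i ∈ s, f i) := by
  intro p hp hd
  obtain ⟨i, hi, hpi⟩ := (Prime.dvd_finsetProd_iff hp.prime f).1 hd
  exact h i hi p hp hpi

/-- the number of prime factors of a rough number -/
lemma rough_len {y n : ℕ} (hn : n ≠ 0) (h : Rough y n) :
    y ^ (Nat.primeFactorsList n).length ≤ n := by
  have h1 : (Nat.primeFactorsList n).prod = n := Nat.prod_primeFactorsList hn
  have h2 : ∀ x ∈ Nat.primeFactorsList n, y ≤ x := fun x hx =>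
    (h x (Nat.prime_of_mem_primeFactorsList hx) (Nat.dvd_of_mem_primeFactorsList hx)).le
  calc y ^ (Nat.primeFactorsList n).length ≤ (Nat.primeFactorsList n).prod :=
        List.pow_card_le_prod _ _ h2
    _ = n := h1

end Pool.Agent.V8H32.Cos
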