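import Mathlib

/-! Elementary symmetric sums of inverses of primes. -/

set_option autoImplicit false

namespace Pool.Agent.V8H32.Cos
open Finset
open scoped Classical

/-- product of the elements of a finite set -/
def pr (S : Finset ℕ) : ℕ := ∏ p ∈ S, p

/-- elementary symmetric sums of the inverses -/
noncomputable def ES (P : Finset ℕ) (s : ℕ) : ℝ := ∑ S ∈ P.powersetCard s, 1 / (pr S : ℝ)

lemma pr_insert {S : Finset ℕ} {p : ℕ} (h : p ∉ S) : pr (insert p S) = p * pr S :=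
  Finset.prod_insert h

lemma pr_pos {S : Finset ℕ} (h : ∀ p ∈ S, 0 < p) : 0 < pr S := Finset.prod_pos h

lemma ES_nonneg (P : Finset ℕ) (s : ℕ) : 0 ≤ ES P s :=
  Finset.sum_nonneg fun S _ => by positivity

lemma ES_zero (P : Finset ℕ) : ES P 0 = 1 := by
  simp [ES, pr]

lemma ES_double (P : Finset ℕ) (s : ℕ) : ((s + 1 : ℕ) : ℝ) * ES P (s + 1) =
    ∑ S ∈ P.powersetCard s, ∑ p ∈ P \ S, 1 / ((p : ℝ) * pr S) := by
  have h1 : ((s + 1 : ℕ) : ℝ) * ES P (s + 1) =
      ∑ S ∈ P.powersetCard (s + 1), ∑ p ∈ S, 1 / (pr S : ℝ) := by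
    unfold ES
    rw [Finset.mul_sum]
    apply Finset.sum_congr rfl
    intro S hS
    rw [Finset.sum_const, (mem_powersetCard.1 hS).2, nsmul_eq_mul]
  rw [h1, Finset.sum_sigma', Finset.sum_sigma']
  refine Finset.sum_bij' (fun x _ => ⟨x.1.erase x.2, x.2⟩) (fun x _ => ⟨insert x.2 x.1, x.2⟩)
    ?_ ?_ ?_ ?_ ?_
  · rintro ⟨S, p⟩ h
    simp only [mem_sigma, mem_powersetCard, mem_sdiff] at h ⊢
    refine ⟨⟨(erase_subset _ _).trans h.1.1, ?_⟩, h.1.1 h.2, notMem_erase _ _⟩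
    rw [card_erase_of_mem h.2, h.1.2]; rfl
  · rintro ⟨S, p⟩ h
    simp only [mem_sigma, mem_powersetCard, mem_sdiff] at h ⊢
    refine ⟨⟨insert_subset h.2.1 h.1.1, ?_⟩, mem_insert_self _ _⟩
    rw [card_insert_of_notMem h.2.2, h.1.2]
  · rintro ⟨S, p⟩ h
    simp only [mem_sigma, mem_powersetCard] at h
    simp only [insert_erase h.2]
  · rintro ⟨S, p⟩ h
    simp only [mem_sigma, mem_powersetCard, mem_sdiff] at h
    simp only [erase_insert h.2.2]
  · rintro ⟨S, p⟩ h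
    simp only [mem_sigma, mem_powersetCard] at h
    simp only
    have : pr S = p * pr (S.erase p) := by
      rw [← pr_insert (notMem_erase p S), insert_erase h.2]
    rw [this]
    push_cast
    rfl

lemma ES_step (P : Finset ℕ) (y : ℕ) (hy : 0 < y) (hP : ∀ p ∈ P, y < p)
    (hG : 1 ≤ ∑ p ∈ P, 1 / (p : ℝ)) (r : ℕ) (hr : 2 * r ≤ y) (s : ℕ) (hs : s < r) :
    ES P s ≤ 2 * r * ES P (s + 1) := by
  have h1 := ES_double P s
  have hy0 : (0 : ℝ) < y := by exact_mod_cast hy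
  have h2 : ∀ S ∈ P.powersetCard s, (1 / 2) * (1 / (pr S : ℝ)) ≤ ∑ p ∈ P \ S, 1 / ((p : ℝ) * pr S) := by
    intro S hS
    rw [mem_powersetCard] at hS
    have h3 : ∑ p ∈ P \ S, 1 / ((p : ℝ) * pr S) = (∑ p ∈ P \ S, 1 / (p : ℝ)) * (1 / (pr S : ℝ)) := by
      rw [Finset.sum_mul]
      apply Finset.sum_congr rfl
      intro p _
      rw [one_div_mul_one_div]
    rw [h3]
    apply mul_le_mul_of_nonneg_right _ (by positivity)
    have h4 : ∑ p ∈ P \ S, 1 / (p : ℝ) + ∑ p ∈ S, 1 / (p : ℝ) = ∑ p ∈ P, 1 / (p : ℝ) :=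
      Finset.sum_sdiff hS.1
    have h5 : ∑ p ∈ S, 1 / (p : ℝ) ≤ ∑ p ∈ S, 1 / (y : ℝ) := by
      apply Finset.sum_le_sum
      intro p hp
      apply one_div_le_one_div_of_le hy0
      exact_mod_cast (hP p (hS.1 hp)).le
    rw [Finset.sum_const, hS.2, nsmul_eq_mul] at h5
    have h6 : (s : ℝ) * (1 / y) ≤ 1 / 2 := by
      rw [mul_one_div, div_le_div_iff₀ hy0 (by norm_num)]
      have : 2 * (s : ℝ) ≤ y := by
        have : 2 * s ≤ y := by omega
        exact_mod_cast this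
      linarith
    linarith
  have h7 : (1 / 2) * ES P s ≤ ((s + 1 : ℕ) : ℝ) * ES P (s + 1) := by
    rw [h1]
    unfold ES
    rw [Finset.mul_sum]
    exact Finset.sum_le_sum h2
  have h8 : ((s + 1 : ℕ) : ℝ) * ES P (s + 1) ≤ r * ES P (s + 1) := by
    apply mul_le_mul_of_nonneg_right _ (ES_nonneg _ _)
    exact_mod_cast hs
  linarith

lemma ES_le (P : Finset ℕ) (y : ℕ) (hy : 0 < y) (hP : ∀ p ∈ P, y < p)
    (hG : 1 ≤ ∑ p ∈ P, 1 / (p : ℝ)) (r : ℕ) (hr : 2 * r ≤ y) (s t : ℕ) (hs : s + t ≤ r) :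
    ES P s ≤ (2 * r) ^ t * ES P (s + t) := by
  induction t with
  | zero => simp
  | succ t ih =>
    have h1 := ih (by omega)
    have h2 := ES_step P y hy hP hG r hr (s + t) (by omega)
    calc ES P s ≤ (2 * r) ^ t * ES P (s + t) := h1
      _ ≤ (2 * r) ^ t * (2 * r * ES P (s + t + 1)) := mul_le_mul_of_nonneg_left h2 (by positivity)
      _ = _ := by rw [pow_succ]; ring_nf

lemma choose_up (s s' w : ℕ) (h : s' ≤ s) :
    (s + w).choose s' ≤ (s + 1) ^ w * s.choose s' := by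
  induction w with
  | zero => simp
  | succ w ih =>
    have h1 := Nat.choose_mul_succ_eq (s + w) s'
    have h2 : (s + w + 1).choose s' * (w + 1) ≤ (s + w + 1).choose s' * (s + w + 1 - s') :=
      Nat.mul_le_mul_left _ (by omega)
    have h3 : (s + w).choose s' * (s + w + 1) ≤ (s + w).choose s' * ((s + 1) * (w + 1)) :=
      Nat.mul_le_mul_left _ (by nlinarith)
    have h4 : (s + w + 1).choose s' * (w + 1) ≤ ((s + w).choose s' * (s + 1)) * (w + 1) := by
      calc _ ≤ _ := h2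
        _ = _ := h1.symm
        _ ≤ _ := h3
        _ = _ := by ring
    have h5 := Nat.le_of_mul_le_mul_right h4 (Nat.succ_pos w)
    calc (s + (w + 1)).choose s' = (s + w + 1).choose s' := by rw [add_assoc]
      _ ≤ (s + w).choose s' * (s + 1) := h5
      _ ≤ ((s + 1) ^ w * s.choose s') * (s + 1) := Nat.mul_le_mul_right _ ih
      _ = _ := by rw [pow_succ]; ring

lemma main_ratio (P : Finset ℕ) (y : ℕ) (hy : 0 < y) (hP : ∀ p ∈ P, y < p)
    (hG : 1 ≤ ∑ p ∈ P, 1 / (p : ℝ)) (r : ℕ) (hr : 2 * r ≤ y) (j : ℕ) (hj : 64 * j ^ 2 ≤ r) :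
    Real.exp (2 * j) * ES P (r - j) ≤ (r.choose j : ℝ) ^ 2 * ES P r := by
  have hjr : j ≤ r := by nlinarith
  have h1 := ES_le P y hy hP hG r hr (r - j) j (by omega)
  rw [Nat.sub_add_cancel hjr] at h1
  rcases Nat.eq_zero_or_pos j with h0 | h0
  · subst h0; simp
  have hj0 : (0 : ℝ) < j := by exact_mod_cast h0
  have hr0 : 0 < r := by omega
  have hr0' : (0 : ℝ) < r := by exact_mod_cast hr0
  -- choose lower bound
  have h2 : ((r : ℝ) / (2 * j)) ^ j ≤ r.choose j := by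
    have h3 : (((r + 1 - j : ℕ) : ℝ)) ^ j ≤ (j.factorial : ℝ) * r.choose j := by
      have := Nat.pow_sub_le_descFactorial r j
      rw [Nat.descFactorial_eq_factorial_mul_choose] at this
      exact_mod_cast this
    have h4 : (j.factorial : ℝ) ≤ (j : ℝ) ^ j := by
      exact_mod_cast Nat.factorial_le_pow j
    have h5 : (r : ℝ) / 2 ≤ ((r + 1 - j : ℕ) : ℝ) := by
      rw [Nat.cast_sub (by omega)]
      push_cast
      have : (2 : ℝ) * j ≤ r := by
        have : 2 * j ≤ r := by nlinarith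
        exact_mod_cast this
      linarith
    have h6 : ((r : ℝ) / 2) ^ j ≤ (j : ℝ) ^ j * r.choose j := by
      calc ((r : ℝ) / 2) ^ j ≤ (((r + 1 - j : ℕ) : ℝ)) ^ j := pow_le_pow_left₀ (by positivity) h5 j
        _ ≤ _ := h3
        _ ≤ _ := mul_le_mul_of_nonneg_right h4 (by positivity)
    have h7 : ((r : ℝ) / (2 * j)) ^ j = ((r : ℝ) / 2) ^ j / (j : ℝ) ^ j := by
      rw [← div_pow]; congr 1; field_simp
    rw [h7, div_le_iff₀ (by positivity)]
    linarith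
  have h8 : ((r : ℝ) / (2 * j)) ^ j * ((r : ℝ) / (2 * j)) ^ j ≤ (r.choose j : ℝ) ^ 2 := by
    rw [sq]
    exact mul_le_mul h2 h2 (by positivity) (by positivity)
  have h9 : Real.exp (2 * j) * (2 * r) ^ j ≤ ((r : ℝ) / (2 * j)) ^ j * ((r : ℝ) / (2 * j)) ^ j := by
    have h10 : Real.exp (2 * j) = (Real.exp 2) ^ j := by
      rw [← Real.exp_nat_mul]; congr 1; ring
    rw [h10, ← mul_pow, ← mul_pow]
    apply pow_le_pow_left₀ (by positivity)
    have h11 : Real.exp 2 ≤ 8 := by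
      have := Real.exp_one_lt_d9
      have h12 : Real.exp 2 = Real.exp 1 * Real.exp 1 := by rw [← Real.exp_add]; norm_num
      rw [h12]
      nlinarith [Real.exp_pos 1]
    have h13 : (64 : ℝ) * j ^ 2 ≤ r := by exact_mod_cast hj
    have h14 : (r : ℝ) / (2 * j) * (r / (2 * j)) = r * (r / (4 * j ^ 2)) := by
      field_simp; ring
    rw [h14]
    have h15 : (16 : ℝ) ≤ r / (4 * j ^ 2) := by
      rw [le_div_iff₀ (by positivity)]
      linarith
    nlinarith
  calc Real.exp (2 * j) * ES P (r - j) ≤ Real.exp (2 * j) * ((2 * r) ^ j * ES P r) :=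
        mul_le_mul_of_nonneg_left h1 (by positivity)
    _ = (Real.exp (2 * j) * (2 * r) ^ j) * ES P r := by ring
    _ ≤ (r.choose j : ℝ) ^ 2 * ES P r :=
        mul_le_mul_of_nonneg_right (h9.trans h8) (ES_nonneg _ _)

lemma ES_low (P : Finset ℕ) (y : ℕ) (hy : 0 < y) (hP : ∀ p ∈ P, y < p)
    (hG : 1 ≤ ∑ p ∈ P, 1 / (p : ℝ)) (r : ℕ) (hr : 2 * r ≤ y) (s : ℕ) (hs : s ≤ r) :
    1 ≤ (2 * r) ^ s * ES P s := by
  have := ES_le P y hy hP hG r hr 0 s (by omega)
  rwa [ES_zero, zero_add] at this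

end Pool.Agent.V8H32.Cos
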