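import Mathlib
import Pool.Agent.V8H32.Cos.Sym
import Pool.Agent.V8H32.Cos.Mult

/-! Sums over products of primes with a fixed quotient. -/

set_option autoImplicit false

namespace Pool.Agent.V8H32.Cos
open Finset
open scoped Classical

/-- triples -/
def TI (N P : Finset ℕ) (s' s : ℕ) : Finset (ℕ × Finset ℕ × Finset ℕ) :=
  N ×ˢ (P.powersetCard s' ×ˢ P.powersetCard s)

/-- numerator -/
def tx (τ : ℕ × Finset ℕ × Finset ℕ) : ℕ := τ.1 * pr τ.2.1
/-- denominator -/
def ty (τ : ℕ × Finset ℕ × Finset ℕ) : ℕ := pr τ.2.2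
/-- weight -/
noncomputable def tw (τ : ℕ × Finset ℕ × Finset ℕ) : ℝ := 1 / Real.sqrt ((tx τ : ℝ) * ty τ)

lemma tw_nonneg (τ : ℕ × Finset ℕ × Finset ℕ) : 0 ≤ tw τ := by unfold tw; positivity

lemma mem_of_dvd_pr {P S : Finset ℕ} (hP : ∀ p ∈ P, p.Prime) (hS : S ⊆ P) {p : ℕ} (hp : p.Prime)
    (h : p ∣ pr S) : p ∈ S := by
  obtain ⟨i, hi, hpi⟩ := (Prime.dvd_finsetProd_iff hp.prime _).1 h
  rwa [(Nat.prime_dvd_prime_iff_eq hp (hP i (hS hi))).1 hpi]

lemma pr_squarefree {P S : Finset ℕ} (hP : ∀ p ∈ P, p.Prime) (hS : S ⊆ P) : Squarefree (pr S) := by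
  unfold pr
  apply Finset.squarefree_prod_of_pairwise_isCoprime
  · intro i hi j hj hij
    exact Nat.coprime_iff_isRelPrime.1 ((Nat.coprime_primes (hP i (hS hi)) (hP j (hS hj))).2 hij)
  · intro i hi
    exact (hP i (hS hi)).squarefree

lemma pr_primeFactors {b : ℕ} (hb : Squarefree b) : pr b.primeFactors = b :=
  Nat.prod_primeFactors_of_squarefree hb

lemma pr_sdiff {S T : Finset ℕ} (h : T ⊆ S) : pr T * pr (S \ T) = pr S := by
  unfold pr
  rw [mul_comm]
  exact Finset.prod_sdiff h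

lemma pr_primeFactors_eq {P S : Finset ℕ} (hP : ∀ p ∈ P, p.Prime) (hS : S ⊆ P) :
    (pr S).primeFactors = S := by
  ext p
  rw [Nat.mem_primeFactors]
  constructor
  · rintro ⟨hp, h, _⟩
    exact mem_of_dvd_pr hP hS hp h
  · intro h
    refine ⟨hP p (hS h), Finset.dvd_prod_of_mem _ h, ?_⟩
    exact (pr_pos fun p hp => (hP p (hS hp)).pos).ne'

/-- the structure of the solutions -/
lemma sol_struct {P : Finset ℕ} (hP : ∀ p ∈ P, p.Prime) {a b n : ℕ}
    (hab : Nat.Coprime a b) {S' S : Finset ℕ} (hS : S ⊆ P)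
    (h : b * (n * pr S') = a * pr S) :
    b.primeFactors ⊆ S ∧ pr b.primeFactors = b ∧ (0 < b → n * pr S' = a * pr (S \ b.primeFactors)) := by
  have h1 : b ∣ a * pr S := ⟨n * pr S', h.symm⟩
  have h2 : b ∣ pr S := (hab.symm.dvd_mul_left).1 h1
  have h3 : Squarefree b := (pr_squarefree hP hS).squarefree_of_dvd h2
  have h4 : b.primeFactors ⊆ S := by
    intro p hp
    rw [Nat.mem_primeFactors] at hp
    exact mem_of_dvd_pr hP hS hp.1 (hp.2.1.trans h2)
  have h5 := pr_primeFactors h3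
  refine ⟨h4, h5, fun hb => ?_⟩
  have h6 := pr_sdiff h4
  rw [h5] at h6
  rw [← h6] at h
  apply Nat.eq_of_mul_eq_mul_left hb
  rw [h]; ring

lemma frac_sum (P N : Finset ℕ) (hP : ∀ p ∈ P, p.Prime) (hN : ∀ n ∈ N, 0 < n) (s' s a b : ℕ)
    (ha : 0 < a) (hb : 0 < b) (hab : Nat.Coprime a b) :
    ∑ τ ∈ (TI N P s' s).filter (fun τ => b * tx τ = a * ty τ), tw τ ≤
      1 / Real.sqrt ((a : ℝ) * b) * (((s - b.primeFactors.card + a.primeFactors.card).choose s' : ℝ) *
        ES P (s - b.primeFactors.card)) := by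
  set T := b.primeFactors with hT
  set A := a.primeFactors with hA
  have hab0 : 0 < Real.sqrt ((a : ℝ) * b) := Real.sqrt_pos.2 (by positivity)
  -- write as an iterated sum over S
  have h1 : ∑ τ ∈ (TI N P s' s).filter (fun τ => b * tx τ = a * ty τ), tw τ =
      ∑ S ∈ P.powersetCard s, ∑ ρ ∈ (N ×ˢ P.powersetCard s').filter
        (fun ρ => b * (ρ.1 * pr ρ.2) = a * pr S), tw (ρ.1, ρ.2, S) := by
    rw [Finset.sum_filter, TI, Finset.sum_product, Finset.sum_congr rfl (fun n _ =>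
      Finset.sum_product _ _ _)]
    have e : ∀ S ∈ P.powersetCard s, ∑ ρ ∈ (N ×ˢ P.powersetCard s').filter
        (fun ρ => b * (ρ.1 * pr ρ.2) = a * pr S), tw (ρ.1, ρ.2, S) =
        ∑ n ∈ N, ∑ S' ∈ P.powersetCard s', if b * (n * pr S') = a * pr S then tw (n, S', S) else 0 := by
      intro S _
      rw [Finset.sum_filter, Finset.sum_product]
    rw [Finset.sum_congr rfl e]
    rw [Finset.sum_comm (s := P.powersetCard s) (t := N)]
    apply Finset.sum_congr rfl
    intro n _
    rw [Finset.sum_comm]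
    rfl
  rw [h1]
  -- the inner sum
  have h2 : ∀ S ∈ P.powersetCard s, ∑ ρ ∈ (N ×ˢ P.powersetCard s').filter
        (fun ρ => b * (ρ.1 * pr ρ.2) = a * pr S), tw (ρ.1, ρ.2, S) ≤
      if T ⊆ S then ((s - T.card + A.card).choose s' : ℝ) *
        (1 / Real.sqrt ((a : ℝ) * b) * (1 / (pr (S \ T) : ℝ))) else 0 := by
    intro S hS
    have hSP := (mem_powersetCard.1 hS).1
    have hSc := (mem_powersetCard.1 hS).2
    split_ifs with hTS
    · have hval : ∀ ρ ∈ (N ×ˢ P.powersetCard s').filter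
        (fun ρ => b * (ρ.1 * pr ρ.2) = a * pr S), tw (ρ.1, ρ.2, S) =
          1 / Real.sqrt ((a : ℝ) * b) * (1 / (pr (S \ T) : ℝ)) := by
        intro ρ hρ
        rw [mem_filter] at hρ
        obtain ⟨h3, h4, h5⟩ := sol_struct hP hab hSP hρ.2
        have h6 := h5 hb
        have h7 := pr_sdiff h3
        rw [h4] at h7
        have h8 : ((tx (ρ.1, ρ.2, S) : ℝ) * ty (ρ.1, ρ.2, S)) = (a * b) * (pr (S \ T) : ℝ) ^ 2 := by
          have : tx (ρ.1, ρ.2, S) * ty (ρ.1, ρ.2, S) = (a * b) * pr (S \ T) ^ 2 := by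
            unfold tx ty
            simp only
            rw [h6, ← h7]; ring
          exact_mod_cast this
        unfold tw
        rw [h8, Real.sqrt_mul (by positivity), Real.sqrt_sq (by positivity), one_div_mul_one_div]
      rw [Finset.sum_congr rfl hval, Finset.sum_const, nsmul_eq_mul]
      apply mul_le_mul_of_nonneg_right _ (by positivity)
      -- counting
      have hcard : ((N ×ˢ P.powersetCard s').filter
          (fun ρ => b * (ρ.1 * pr ρ.2) = a * pr S)).card ≤ (((S \ T) ∪ A).powersetCard s').card := by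
        apply Finset.card_le_card_of_injOn (fun ρ => ρ.2)
        · intro ρ hρ
          rw [mem_coe, mem_filter, mem_product, mem_powersetCard] at hρ
          obtain ⟨h3, h4, h5⟩ := sol_struct hP hab hSP hρ.2
          have h6 := h5 hb
          rw [mem_coe, mem_powersetCard]
          refine ⟨?_, hρ.1.2.2⟩
          intro p hp
          have hpp := hP p (hρ.1.2.1 hp)
          have hd : p ∣ a * pr (S \ T) := by
            rw [← h6]
            exact (Finset.dvd_prod_of_mem _ hp).mul_left _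
          rw [mem_union]
          rcases hpp.dvd_mul.1 hd with h | h
          · right
            rw [hA, Nat.mem_primeFactors]
            exact ⟨hpp, h, ha.ne'⟩
          · left
            exact mem_of_dvd_pr hP (sdiff_subset.trans hSP) hpp h
        · intro ρ hρ ρ' hρ' he
          rw [mem_coe, mem_filter, mem_product, mem_powersetCard] at hρ hρ'
          simp only at he
          refine Prod.ext ?_ he
          obtain ⟨_, _, h5⟩ := sol_struct hP hab hSP hρ.2
          obtain ⟨_, _, h5'⟩ := sol_struct hP hab hSP hρ'.2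
          have h6 := (h5 hb).trans (h5' hb).symm
          rw [he] at h6
          exact Nat.eq_of_mul_eq_mul_right (pr_pos fun p hp => (hP p (hρ'.1.2.1 hp)).pos) h6
      rw [card_powersetCard] at hcard
      have hc2 : ((S \ T) ∪ A).card ≤ s - T.card + A.card := by
        refine (card_union_le _ _).trans ?_
        rw [card_sdiff_of_subset hTS, hSc]
      exact_mod_cast hcard.trans (Nat.choose_le_choose s' hc2)
    · apply le_of_eq
      apply Finset.sum_eq_zero
      intro ρ hρ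
      rw [mem_filter] at hρ
      exact absurd (sol_struct hP hab hSP hρ.2).1 hTS
  refine (Finset.sum_le_sum h2).trans ?_
  rw [← Finset.sum_filter, ← Finset.mul_sum, ← Finset.mul_sum]
  have h3 : ∑ S ∈ (P.powersetCard s).filter (fun S => T ⊆ S), 1 / (pr (S \ T) : ℝ) ≤
      ES P (s - T.card) := by
    unfold ES
    have hinj : Set.InjOn (fun S => S \ T) ((P.powersetCard s).filter (fun S => T ⊆ S) : Set (Finset ℕ)) := by
      intro S hS S' hS' h
      rw [mem_coe, mem_filter] at hS hS'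
      simp only at h
      rw [← sdiff_union_of_subset hS.2, h, sdiff_union_of_subset hS'.2]
    rw [← Finset.sum_image (f := fun S => 1 / (pr S : ℝ)) hinj]
    apply Finset.sum_le_sum_of_subset_of_nonneg
    · intro S hS
      rw [mem_image] at hS
      obtain ⟨S₁, hS₁, rfl⟩ := hS
      rw [mem_filter, mem_powersetCard] at hS₁
      rw [mem_powersetCard]
      exact ⟨sdiff_subset.trans hS₁.1.1, by rw [card_sdiff_of_subset hS₁.2, hS₁.1.2]⟩
    · intro S _ _
      positivity
  calc ((s - T.card + A.card).choose s' : ℝ) * (1 / Real.sqrt ((a : ℝ) * b) *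
        ∑ S ∈ (P.powersetCard s).filter (fun S => T ⊆ S), 1 / (pr (S \ T) : ℝ))
      ≤ ((s - T.card + A.card).choose s' : ℝ) * (1 / Real.sqrt ((a : ℝ) * b) * ES P (s - T.card)) := by
        apply mul_le_mul_of_nonneg_left _ (by positivity)
        exact mul_le_mul_of_nonneg_left h3 (by positivity)
    _ = _ := by ring

/-- distinct prime factors of a rough number -/
lemma rough_card {y n : ℕ} (hn : 0 < n) (h : Rough y n) : y ^ n.primeFactors.card ≤ n := by
  calc y ^ n.primeFactors.card = ∏ p ∈ n.primeFactors, y := by rw [Finset.prod_const]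
    _ ≤ ∏ p ∈ n.primeFactors, p := by
        apply Finset.prod_le_prod'
        intro p hp
        rw [Nat.mem_primeFactors] at hp
        exact (h p hp.1 hp.2.1).le
    _ ≤ n := Nat.le_of_dvd hn (Nat.prod_primeFactors_dvd n)

/-- the final form of the bound -/
theorem frac_bound (P N : Finset ℕ) (y r : ℕ) (hy : 0 < y) (hP : ∀ p ∈ P, p.Prime)
    (hPy : ∀ p ∈ P, y < p) (hG : 1 ≤ ∑ p ∈ P, 1 / (p : ℝ)) (hr : 2 * r ≤ y)
    (hN : ∀ n ∈ N, 0 < n) (s' s a b : ℕ) (hs' : s' ≤ s) (hs : s ≤ r)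
    (ha : 0 < a) (hb : 0 < b) (hab : Nat.Coprime a b) (hra : Rough y a) (hrb : Rough y b)
    (θ : ℝ) (hθ0 : 0 ≤ θ) (hθ : (4 * r + 4 : ℝ) ≤ (y : ℝ) ^ θ) :
    2 ^ (a.primeFactors.card + b.primeFactors.card) *
    ∑ τ ∈ (TI N P s' s).filter (fun τ => b * tx τ = a * ty τ), tw τ ≤
      ((a : ℝ) * b) ^ (-(1 / 2 : ℝ) + θ) * ((s.choose s' : ℝ) * ES P s) := by
  have ha' : (0 : ℝ) < a := by exact_mod_cast ha
  have hb' : (0 : ℝ) < b := by exact_mod_cast hb
  have hy' : (0 : ℝ) < y := by exact_mod_cast hy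
  have hrhs : 0 ≤ ((a : ℝ) * b) ^ (-(1 / 2 : ℝ) + θ) * ((s.choose s' : ℝ) * ES P s) :=
    mul_nonneg (by positivity) (mul_nonneg (by positivity) (ES_nonneg _ _))
  rcases Finset.eq_empty_or_nonempty ((TI N P s' s).filter (fun τ => b * tx τ = a * ty τ)) with he | hne
  · rw [he, Finset.sum_empty, mul_zero]
    exact hrhs
  obtain ⟨τ, hτ⟩ := hne
  rw [mem_filter, TI, mem_product, mem_product, mem_powersetCard, mem_powersetCard] at hτ
  have hst := (sol_struct hP hab hτ.1.2.2.1 hτ.2).1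
  set t := b.primeFactors.card with ht
  set w := a.primeFactors.card with hw
  have hts : t ≤ s := by
    rw [← hτ.1.2.2.2]
    exact card_le_card hst
  have h1 := frac_sum P N hP hN s' s a b ha hb hab
  have h2 := ES_le P y hy hPy hG r hr (s - t) t (by omega)
  rw [Nat.sub_add_cancel hts] at h2
  have h3 : ((s - t + w).choose s' : ℝ) ≤ (s + 1 : ℝ) ^ w * s.choose s' := by
    have : (s - t + w).choose s' ≤ (s + 1) ^ w * s.choose s' :=
      (Nat.choose_le_choose s' (by omega)).trans (choose_up s s' w hs')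
    exact_mod_cast this
  have hK : ∀ (n m : ℕ), 0 < n → y ^ m ≤ n → ∀ x : ℝ, 0 ≤ x → x ≤ 4 * r + 4 → x ^ m ≤ (n : ℝ) ^ θ := by
    intro n m hn hm x hx hx'
    have hn' : (y : ℝ) ^ m ≤ n := by exact_mod_cast hm
    calc x ^ m ≤ ((y : ℝ) ^ θ) ^ m := pow_le_pow_left₀ hx (hx'.trans hθ) m
      _ = ((y : ℝ) ^ m) ^ θ := by
        rw [← Real.rpow_natCast, ← Real.rpow_mul hy'.le, mul_comm, Real.rpow_mul hy'.le,
          Real.rpow_natCast]
      _ ≤ (n : ℝ) ^ θ := Real.rpow_le_rpow (by positivity) hn' hθ0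
  have hsr : (s : ℝ) ≤ r := by exact_mod_cast hs
  have hr0 : (0 : ℝ) ≤ r := by positivity
  have h4 : (2 * (s + 1 : ℝ)) ^ w ≤ (a : ℝ) ^ θ :=
    hK a w ha (rough_card ha hra) _ (by positivity) (by linarith)
  have h5 : (2 * (2 * r : ℝ)) ^ t ≤ (b : ℝ) ^ θ :=
    hK b t hb (rough_card hb hrb) _ (by positivity) (by linarith)
  have h6 : ((s - t + w).choose s' : ℝ) * ES P (s - t) ≤
      ((s + 1 : ℝ) ^ w * s.choose s') * ((2 * r) ^ t * ES P s) :=
    mul_le_mul h3 h2 (ES_nonneg _ _) (by positivity)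
  have h7 : 1 / Real.sqrt ((a : ℝ) * b) = ((a : ℝ) * b) ^ (-(1 / 2 : ℝ)) := by
    rw [Real.rpow_neg (by positivity), Real.sqrt_eq_rpow, one_div]
  calc 2 ^ (w + t) * ∑ τ ∈ (TI N P s' s).filter (fun τ => b * tx τ = a * ty τ), tw τ
      ≤ 2 ^ (w + t) * (1 / Real.sqrt ((a : ℝ) * b) * (((s + 1 : ℝ) ^ w * s.choose s') *
          ((2 * r) ^ t * ES P s))) := by
        apply mul_le_mul_of_nonneg_left _ (by positivity)
        refine h1.trans ?_
        exact mul_le_mul_of_nonneg_left h6 (by positivity)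
    _ = ((a : ℝ) * b) ^ (-(1 / 2 : ℝ)) * ((2 * (s + 1 : ℝ)) ^ w * (2 * (2 * r : ℝ)) ^ t) *
          ((s.choose s' : ℝ) * ES P s) := by
        rw [h7, pow_add, mul_pow 2 (s + 1 : ℝ), mul_pow 2 (2 * r : ℝ)]; ring
    _ ≤ ((a : ℝ) * b) ^ (-(1 / 2 : ℝ)) * ((a : ℝ) ^ θ * (b : ℝ) ^ θ) *
          ((s.choose s' : ℝ) * ES P s) := by
        apply mul_le_mul_of_nonneg_right _ (mul_nonneg (by positivity) (ES_nonneg _ _))
        apply mul_le_mul_of_nonneg_left _ (by positivity)
        exact mul_le_mul h4 h5 (by positivity) (by positivity)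
    _ = _ := by
        rw [← Real.mul_rpow ha'.le hb'.le, ← Real.rpow_add (by positivity)]

end Pool.Agent.V8H32.Cos
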