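import Mathlib
import Pool.Agent.R311.RES.C5

/-! Transforms on the group of characters modulo a prime, averages over cosets, second moments. -/

set_option autoImplicit false

namespace Pool.Agent.V8H32.Cos
open Finset Pool.Agent.R311.RES
open scoped Classical

variable {q : ℕ} [Fact q.Prime]

/-- the transform of a function on the residue classes -/
noncomputable def tr (f : (ZMod q)ˣ → ℂ) (χ : DirichletCharacter ℂ q) : ℂ :=
  ∑ g : (ZMod q)ˣ, f g * χ (g : ZMod q)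

lemma tr_coset (H : Subgroup (DirichletCharacter ℂ q)) (f : (ZMod q)ˣ → ℂ)
    (χ₀ : DirichletCharacter ℂ q) :
    ∑ ψ : H, tr f (χ₀ * (ψ : DirichletCharacter ℂ q)) =
      (Fintype.card H : ℂ) * tr (fun g => if g ∈ ann H then f g else 0) χ₀ := by
  unfold tr
  rw [Finset.sum_comm, Finset.mul_sum]
  apply Finset.sum_congr rfl
  intro g _
  have h1 : ∀ ψ : H, f g * (χ₀ * (ψ : DirichletCharacter ℂ q)) (g : ZMod q) =
      f g * χ₀ (g : ZMod q) * (ψ : DirichletCharacter ℂ q) (g : ZMod q) := by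
    intro ψ
    rw [MulChar.mul_apply]; ring
  rw [Finset.sum_congr rfl (fun ψ _ => h1 ψ), ← Finset.mul_sum, orth]
  beta_reduce
  split_ifs
  · ring
  · ring

lemma orthX (u : (ZMod q)ˣ) : ∑ χ : DirichletCharacter ℂ q, χ (u : ZMod q) =
    if u = 1 then ((q - 1 : ℝ) : ℂ) else 0 := by
  rw [DirichletCharacter.sum_characters_eq]
  by_cases h : u = 1
  · subst h
    rw [if_pos rfl, if_pos (by simp), Nat.totient_prime Fact.out,
      Nat.cast_sub (Nat.Prime.one_lt Fact.out).le]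
    push_cast; ring
  · rw [if_neg h, if_neg]
    intro h'
    exact h (Units.ext h')

lemma card_X : (Fintype.card (DirichletCharacter ℂ q) : ℝ) = q - 1 := by
  have h := orthX (q := q) 1
  rw [if_pos rfl] at h
  have h1 : ∑ χ : DirichletCharacter ℂ q, χ ((1 : (ZMod q)ˣ) : ZMod q) =
      (Fintype.card (DirichletCharacter ℂ q) : ℂ) := by
    rw [Finset.sum_congr rfl (fun χ _ => by rw [Units.val_one, map_one])]
    simp
  rw [h1] at h
  exact_mod_cast h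

lemma tr_sq (f : (ZMod q)ˣ → ℂ) (χ : DirichletCharacter ℂ q) :
    ((‖tr f χ‖ ^ 2 : ℝ) : ℂ) = ∑ g : (ZMod q)ˣ, ∑ g' : (ZMod q)ˣ,
      (f g * (starRingEnd ℂ) (f g')) * χ ((g * g'⁻¹ : (ZMod q)ˣ) : ZMod q) := by
  rw [← Complex.normSq_eq_norm_sq, ← Complex.mul_conj, tr, map_sum, Finset.sum_mul_sum]
  apply Finset.sum_congr rfl
  intro g _
  apply Finset.sum_congr rfl
  intro g' _
  rw [map_mul, ← chi_inv, Units.val_mul, map_mul]
  ring

theorem parseval (f : (ZMod q)ˣ → ℂ) :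
    ∑ χ : DirichletCharacter ℂ q, ‖tr f χ‖ ^ 2 = (q - 1) * ∑ g : (ZMod q)ˣ, ‖f g‖ ^ 2 := by
  have h : ((∑ χ : DirichletCharacter ℂ q, ‖tr f χ‖ ^ 2 : ℝ) : ℂ) =
      (((q - 1) * ∑ g : (ZMod q)ˣ, ‖f g‖ ^ 2 : ℝ) : ℂ) := by
    rw [Complex.ofReal_sum, Finset.sum_congr rfl (fun χ _ => tr_sq f χ), Finset.sum_comm,
      Complex.ofReal_mul, Complex.ofReal_sum, Finset.mul_sum]
    apply Finset.sum_congr rfl
    intro g _
    rw [Finset.sum_comm]
    have h1 : ∀ g' : (ZMod q)ˣ, ∑ χ : DirichletCharacter ℂ q,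
        (f g * (starRingEnd ℂ) (f g')) * χ ((g * g'⁻¹ : (ZMod q)ˣ) : ZMod q) =
        if g = g' then (f g * (starRingEnd ℂ) (f g')) * ((q - 1 : ℝ) : ℂ) else 0 := by
      intro g'
      rw [← Finset.mul_sum, orthX]
      by_cases h : g = g'
      · rw [if_pos h, if_pos (by rw [h]; simp)]
      · rw [if_neg h, if_neg, mul_zero]
        intro h'
        exact h (mul_inv_eq_one.1 h')
    rw [Finset.sum_congr rfl (fun g' _ => h1 g'), Finset.sum_ite_eq, if_pos (mem_univ _),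
      Complex.mul_conj, Complex.normSq_eq_norm_sq]
    push_cast
    ring
  exact_mod_cast h

lemma tr_shift (f : (ZMod q)ˣ → ℂ) (χ : DirichletCharacter ℂ q) (v : (ZMod q)ˣ) :
    tr f χ * χ (v : ZMod q) = tr (fun g => f (g * v⁻¹)) χ := by
  unfold tr
  rw [Finset.sum_mul]
  refine Fintype.sum_equiv (Equiv.mulRight v) _ _ (fun g => ?_)
  simp only [Equiv.coe_mulRight, mul_inv_cancel_right, Units.val_mul, map_mul]
  ring

lemma tr_finset_sum {ι : Type*} (I : Finset ι) (b : ι → ℂ) (F : ι → (ZMod q)ˣ → ℂ)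
    (χ : DirichletCharacter ℂ q) :
    ∑ i ∈ I, b i * tr (F i) χ = tr (fun g => ∑ i ∈ I, b i * F i g) χ := by
  unfold tr
  simp only [Finset.mul_sum, Finset.sum_mul]
  rw [Finset.sum_comm]
  apply Finset.sum_congr rfl
  intro g _
  apply Finset.sum_congr rfl
  intro i _
  ring

/-- second moment over all characters of the averages over the cosets -/
theorem second {ι : Type*} (H : Subgroup (DirichletCharacter ℂ q)) (f : (ZMod q)ˣ → ℂ)
    (I : Finset ι) (b : ι → ℂ) (v : ι → (ZMod q)ˣ) (M : ℝ)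
    (hM : ∀ c : (ZMod q)ˣ, ∑ g : (ZMod q)ˣ, (if g ∈ ann H then ‖f (g * c)‖ ^ 2 else 0) ≤ M) :
    ∑ χ₀ : DirichletCharacter ℂ q, ‖∑ ψ : H, tr f (χ₀ * (ψ : DirichletCharacter ℂ q)) *
      ∑ i ∈ I, b i * (χ₀ * (ψ : DirichletCharacter ℂ q)) (v i : ZMod q)‖ ^ 2 ≤
      (q - 1) * (Fintype.card H : ℝ) ^ 2 * ((∑ i ∈ I, ‖b i‖) ^ 2 * M) := by
  set F : (ZMod q)ˣ → ℂ := fun g => ∑ i ∈ I, b i * f (g * (v i)⁻¹) with hF
  have h1 : ∀ χ : DirichletCharacter ℂ q, tr f χ * ∑ i ∈ I, b i * χ (v i : ZMod q) = tr F χ := by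
    intro χ
    rw [hF, ← tr_finset_sum I b (fun i g => f (g * (v i)⁻¹)), Finset.mul_sum]
    apply Finset.sum_congr rfl
    intro i _
    rw [← tr_shift f χ (v i)]
    ring
  have h2 : ∀ χ₀ : DirichletCharacter ℂ q, ‖∑ ψ : H, tr f (χ₀ * (ψ : DirichletCharacter ℂ q)) *
      ∑ i ∈ I, b i * (χ₀ * (ψ : DirichletCharacter ℂ q)) (v i : ZMod q)‖ ^ 2 =
      (Fintype.card H : ℝ) ^ 2 * ‖tr (fun g => if g ∈ ann H then F g else 0) χ₀‖ ^ 2 := by
    intro χ₀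
    have h20 : ∑ ψ : H, tr f (χ₀ * (ψ : DirichletCharacter ℂ q)) *
      ∑ i ∈ I, b i * (χ₀ * (ψ : DirichletCharacter ℂ q)) (v i : ZMod q) =
      ∑ ψ : H, tr F (χ₀ * (ψ : DirichletCharacter ℂ q)) :=
      Finset.sum_congr rfl (fun ψ _ => h1 (χ₀ * (ψ : DirichletCharacter ℂ q)))
    rw [h20, tr_coset, norm_mul, mul_pow]
    simp
  rw [Finset.sum_congr rfl (fun χ₀ _ => h2 χ₀), ← Finset.mul_sum, parseval]
  have hB0 : 0 ≤ ∑ i ∈ I, ‖b i‖ := Finset.sum_nonneg fun i _ => norm_nonneg _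
  have h3 : ∀ g : (ZMod q)ˣ, ‖(if g ∈ ann H then F g else 0)‖ ^ 2 ≤
      (∑ i ∈ I, ‖b i‖) * ∑ i ∈ I, ‖b i‖ * (if g ∈ ann H then ‖f (g * (v i)⁻¹)‖ ^ 2 else 0) := by
    intro g
    split_ifs with hg
    · have h4 : ‖F g‖ ≤ ∑ i ∈ I, ‖b i‖ * ‖f (g * (v i)⁻¹)‖ := by
        refine (norm_sum_le _ _).trans (Finset.sum_le_sum fun i _ => ?_)
        rw [norm_mul]
      have h5 : (∑ i ∈ I, ‖b i‖ * ‖f (g * (v i)⁻¹)‖) ^ 2 ≤
          (∑ i ∈ I, ‖b i‖) * ∑ i ∈ I, ‖b i‖ * ‖f (g * (v i)⁻¹)‖ ^ 2 := by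
        apply Finset.sum_sq_le_sum_mul_sum_of_sq_le_mul
        · intro i _; positivity
        · intro i _; positivity
        · intro i _; exact le_of_eq (by ring)
      exact (pow_le_pow_left₀ (norm_nonneg _) h4 2).trans h5
    · simp
  have h6 : ∑ g : (ZMod q)ˣ, ‖(if g ∈ ann H then F g else 0)‖ ^ 2 ≤ (∑ i ∈ I, ‖b i‖) ^ 2 * M := by
    refine (Finset.sum_le_sum fun g _ => h3 g).trans ?_
    rw [← Finset.mul_sum, Finset.sum_comm]
    have h7 : ∀ i ∈ I, ∑ g : (ZMod q)ˣ, ‖b i‖ * (if g ∈ ann H then ‖f (g * (v i)⁻¹)‖ ^ 2 else 0) ≤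
        ‖b i‖ * M := by
      intro i _
      rw [← Finset.mul_sum]
      exact mul_le_mul_of_nonneg_left (hM _) (norm_nonneg _)
    calc (∑ i ∈ I, ‖b i‖) * ∑ i ∈ I, ∑ g : (ZMod q)ˣ, ‖b i‖ *
          (if g ∈ ann H then ‖f (g * (v i)⁻¹)‖ ^ 2 else 0)
        ≤ (∑ i ∈ I, ‖b i‖) * ∑ i ∈ I, ‖b i‖ * M :=
          mul_le_mul_of_nonneg_left (Finset.sum_le_sum h7) hB0
      _ = _ := by rw [← Finset.sum_mul]; ring
  have hq1 : (0 : ℝ) ≤ q - 1 := by
    have : (1 : ℝ) ≤ q := by exact_mod_cast (Nat.Prime.one_lt (Fact.out : q.Prime)).le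
    linarith
  calc (Fintype.card H : ℝ) ^ 2 * ((q - 1) * ∑ g : (ZMod q)ˣ, ‖(if g ∈ ann H then F g else 0)‖ ^ 2)
      ≤ (Fintype.card H : ℝ) ^ 2 * ((q - 1) * ((∑ i ∈ I, ‖b i‖) ^ 2 * M)) := by
        apply mul_le_mul_of_nonneg_left _ (by positivity)
        exact mul_le_mul_of_nonneg_left h6 hq1
    _ = _ := by ring

omit [Fact q.Prime] in
/-- the sum over a coset and over all characters -/
lemma sum_translate (H : Subgroup (DirichletCharacter ℂ q)) (Y : DirichletCharacter ℂ q → ℝ) :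
    ∑ χ₀ : DirichletCharacter ℂ q, ∑ ψ : H, Y (χ₀ * (ψ : DirichletCharacter ℂ q)) =
      (Fintype.card H : ℝ) * ∑ χ : DirichletCharacter ℂ q, Y χ := by
  rw [Finset.sum_comm]
  have h : ∀ ψ : H, ∑ χ₀ : DirichletCharacter ℂ q, Y (χ₀ * (ψ : DirichletCharacter ℂ q)) =
      ∑ χ : DirichletCharacter ℂ q, Y χ := fun ψ =>
    Fintype.sum_equiv (Equiv.mulRight (ψ : DirichletCharacter ℂ q)) _ _ (fun _ => rfl)
  rw [Finset.sum_congr rfl (fun ψ _ => h ψ), Finset.sum_const, card_univ, nsmul_eq_mul]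

/-- Markov's inequality -/
lemma markov {X : Type*} (s : Finset X) (Y : X → ℝ) (hY : ∀ x ∈ s, 0 ≤ Y x) (l : ℝ) :
    ((s.filter (fun x => l < Y x)).card : ℝ) * l ≤ ∑ x ∈ s, Y x := by
  calc ((s.filter (fun x => l < Y x)).card : ℝ) * l
      = ∑ x ∈ s.filter (fun x => l < Y x), l := by rw [Finset.sum_const, nsmul_eq_mul]
    _ ≤ ∑ x ∈ s.filter (fun x => l < Y x), Y x :=
        Finset.sum_le_sum fun x hx => (mem_filter.1 hx).2.le
    _ ≤ ∑ x ∈ s, Y x := Finset.sum_le_sum_of_subset_of_nonneg (filter_subset _ _)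
        (fun x hx _ => hY x hx)

end Pool.Agent.V8H32.Cos
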