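import Mathlib
import Pool.Agent.V8H32.Cos.Tr
import Pool.Agent.V8H32.Cos.Frac

/-! Residue classes of fractions. -/

set_option autoImplicit false

namespace Pool.Agent.V8H32.Cos
open Finset Pool.Agent.R311.RES
open scoped Classical

variable {q : ℕ} [Fact q.Prime]

/-- the class of a fraction -/
noncomputable def cls (q : ℕ) (a b : ℕ) : (ZMod q)ˣ := un q a * (un q b)⁻¹

lemma un_mul' {a b : ℕ} (ha : a.Coprime q) (hb : b.Coprime q) : un q (a * b) = un q a * un q b := by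
  apply Units.ext
  rw [Units.val_mul, un_val ha, un_val hb, un_val (ha.mul_left hb)]
  push_cast
  rfl

lemma un_one' : un q 1 = 1 := by
  apply Units.ext
  rw [un_val (Nat.coprime_one_left q)]
  simp

lemma un_inj {a b : ℕ} (ha : a < q) (hb : b < q) (ha' : a.Coprime q) (hb' : b.Coprime q)
    (h : un q a = un q b) : a = b := by
  have h1 : (a : ZMod q) = (b : ZMod q) := by rw [← un_val ha', ← un_val hb', h]
  rw [ZMod.natCast_eq_natCast_iff'] at h1
  rwa [Nat.mod_eq_of_lt ha, Nat.mod_eq_of_lt hb] at h1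

lemma cls_eq_iff {U a b a' b' : ℕ} (hU : U * U < q) (ha : 0 < a) (hb : 0 < b) (ha' : 0 < a')
    (hb' : 0 < b') (haU : a ≤ U) (hbU : b ≤ U) (haU' : a' ≤ U) (hbU' : b' ≤ U) :
    cls q a b = cls q a' b' ↔ a * b' = a' * b := by
  have hU1 : U < q := lt_of_le_of_lt (by nlinarith) hU
  have ca := cop_of_lt (q := q) ha (haU.trans_lt hU1)
  have cb := cop_of_lt (q := q) hb (hbU.trans_lt hU1)
  have ca' := cop_of_lt (q := q) ha' (haU'.trans_lt hU1)
  have cb' := cop_of_lt (q := q) hb' (hbU'.trans_lt hU1)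
  unfold cls
  rw [mul_inv_eq_iff_eq_mul, mul_assoc, mul_comm (un q b')⁻¹, ← mul_assoc, eq_mul_inv_iff_mul_eq,
    ← un_mul' ca cb', ← un_mul' ca' cb]
  constructor
  · intro h
    exact un_inj ((Nat.mul_le_mul haU hbU').trans_lt hU) ((Nat.mul_le_mul haU' hbU).trans_lt hU)
      (ca.mul_left cb') (ca'.mul_left cb) h
  · intro h
    rw [h]

lemma red_iff {a b x y : ℕ} (ha : 0 < a) (hx : 0 < x)
    (hab : Nat.Coprime a b) : b * x = a * y ↔ (x / Nat.gcd x y, y / Nat.gcd x y) = (a, b) := by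
  constructor
  · intro h
    have h1 : a ∣ x := (hab.dvd_mul_left).1 ⟨y, h⟩
    obtain ⟨c, rfl⟩ := h1
    have hc : 0 < c := Nat.pos_of_mul_pos_left hx
    have h2 : y = b * c := by
      apply Nat.eq_of_mul_eq_mul_left ha
      rw [← h]; ring
    subst h2
    rw [Nat.gcd_mul_right, hab.gcd_eq_one, one_mul, Nat.mul_div_cancel _ hc,
      Nat.mul_div_cancel _ hc]
  · intro h
    rw [Prod.mk.injEq] at h
    have h1 : a * Nat.gcd x y = x := by rw [← h.1]; exact Nat.div_mul_cancel (Nat.gcd_dvd_left x y)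
    have h2 : b * Nat.gcd x y = y := by rw [← h.2]; exact Nat.div_mul_cancel (Nat.gcd_dvd_right x y)
    calc b * x = b * (a * Nat.gcd x y) := by rw [h1]
      _ = a * (b * Nat.gcd x y) := by ring
      _ = a * y := by rw [h2]

/-- reduced rough fractions in a subgroup -/
noncomputable def Phi (q : ℕ) [Fact q.Prime] (K : Subgroup (ZMod q)ˣ) (y U : ℕ) : Finset (ℕ × ℕ) :=
  (Icc 1 U ×ˢ Icc 1 U).filter (fun z => Nat.Coprime z.1 z.2 ∧ Rough y z.1 ∧ Rough y z.2 ∧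
    cls q z.1 z.2 ∈ K)

theorem sum_frac {ι : Type*} (K : Subgroup (ZMod q)ˣ) (y U : ℕ) (hU : U * U < q)
    (I : Finset ι) (x x' : ι → ℕ) (hx : ∀ i ∈ I, 0 < x i ∧ x i ≤ U ∧ Rough y (x i))
    (hx' : ∀ i ∈ I, 0 < x' i ∧ x' i ≤ U ∧ Rough y (x' i)) (w : ι → ℝ)
    (χ : DirichletCharacter ℂ q) :
    ∑ i ∈ I.filter (fun i => cls q (x i) (x' i) ∈ K), (w i : ℂ) * χ (cls q (x i) (x' i) : ZMod q) =
      ∑ z ∈ Phi q K y U, ((∑ i ∈ I.filter (fun i => z.2 * x i = z.1 * x' i), w i : ℝ) : ℂ) *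
        χ (cls q z.1 z.2 : ZMod q) := by
  set red : ι → ℕ × ℕ := fun i => (x i / Nat.gcd (x i) (x' i), x' i / Nat.gcd (x i) (x' i)) with hred
  have hfac : ∀ i ∈ I, 0 < (red i).1 ∧ 0 < (red i).2 ∧ (red i).1 ≤ U ∧ (red i).2 ≤ U ∧
      Nat.Coprime (red i).1 (red i).2 ∧ (red i).2 * x i = (red i).1 * x' i ∧
      (red i).1 ∣ x i ∧ (red i).2 ∣ x' i := by
    intro i hi
    obtain ⟨g, hg, h1, h2, h3, h4, h5, _⟩ := red_frac (hx i hi).1 (hx' i hi).1
    refine ⟨h4, h5, (Nat.div_le_self _ _).trans (hx i hi).2.1,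
      (Nat.div_le_self _ _).trans (hx' i hi).2.1, h3, ?_, ⟨g, h1.symm⟩, ⟨g, h2.symm⟩⟩
    simp only [hred]
    calc x' i / Nat.gcd (x i) (x' i) * x i = x' i / Nat.gcd (x i) (x' i) *
          (x i / Nat.gcd (x i) (x' i) * g) := by rw [h1]
      _ = x i / Nat.gcd (x i) (x' i) * (x' i / Nat.gcd (x i) (x' i) * g) := by ring
      _ = _ := by rw [h2]
  have hcls : ∀ i ∈ I, cls q (red i).1 (red i).2 = cls q (x i) (x' i) := by
    intro i hi
    obtain ⟨h1, h2, h3, h4, _, h6, _, _⟩ := hfac i hi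
    rw [cls_eq_iff hU h1 h2 (hx i hi).1 (hx' i hi).1 h3 h4 (hx i hi).2.1 (hx' i hi).2.1, ← h6]
    ring
  have hmap : ∀ i ∈ I.filter (fun i => cls q (x i) (x' i) ∈ K), red i ∈ Phi q K y U := by
    intro i hi
    rw [mem_filter] at hi
    obtain ⟨h1, h2, h3, h4, h5, _, h7, h8⟩ := hfac i hi.1
    rw [Phi, mem_filter, mem_product, mem_Icc, mem_Icc]
    exact ⟨⟨⟨h1, h3⟩, ⟨h2, h4⟩⟩, h5, (hx i hi.1).2.2.of_dvd h7, (hx' i hi.1).2.2.of_dvd h8, by
      rw [hcls i hi.1]; exact hi.2⟩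
  rw [← Finset.sum_fiberwise_of_maps_to hmap]
  apply Finset.sum_congr rfl
  intro z hz
  rw [Phi, mem_filter, mem_product, mem_Icc, mem_Icc] at hz
  rw [Complex.ofReal_sum, Finset.sum_mul]
  have hset : (I.filter (fun i => cls q (x i) (x' i) ∈ K)).filter (fun i => red i = z) =
      I.filter (fun i => z.2 * x i = z.1 * x' i) := by
    ext i
    simp only [mem_filter]
    constructor
    · rintro ⟨⟨hi, _⟩, h⟩
      refine ⟨hi, ?_⟩
      rw [← h]
      exact (hfac i hi).2.2.2.2.2.1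
    · rintro ⟨hi, h⟩
      have h1 : red i = z := by
        have := (red_iff (by omega) (hx i hi).1 hz.2.1).1 h
        exact this
      refine ⟨⟨hi, ?_⟩, h1⟩
      rw [← hcls i hi, h1]
      exact hz.2.2.2.2
  rw [hset]
  apply Finset.sum_congr rfl
  intro i hi
  rw [mem_filter] at hi
  have h1 : red i = z := (red_iff (by omega) (hx i hi.1).1 hz.2.1).1 hi.2
  rw [← hcls i hi.1, h1]

end Pool.Agent.V8H32.Cos
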