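import Mathlib
import Pool.Agent.V8H32.Cos.Cls

/-! Large elements of a coset of a subgroup of residue classes. The proof of `divisor_bound` is taken from
the file `Pool/Agent/S17662.lean`. -/

set_option autoImplicit false

namespace Pool.Agent.V8H32.Cos
open Finset Pool.Agent.R311.RES
open scoped Classical

/-- The divisor bound `d(n) ≤ C n^δ`. -/
lemma divisor_bound (δ : ℝ) (hδ : 0 < δ) :
    ∃ C : ℝ, 0 < C ∧ ∀ n : ℕ, n ≠ 0 → ((n.divisors.card : ℕ) : ℝ) ≤ C * (n : ℝ) ^ δ := by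
  have hlog : 0 < Real.log 2 := Real.log_pos (by norm_num)
  have hδl : 0 < δ * Real.log 2 := mul_pos hδ hlog
  set M : ℝ := max 1 (1 / (δ * Real.log 2)) with hM
  have hM1 : 1 ≤ M := le_max_left _ _
  have hM2 : 1 ≤ M * (δ * Real.log 2) := by
    have : 1 / (δ * Real.log 2) ≤ M := le_max_right _ _
    calc (1 : ℝ) = 1 / (δ * Real.log 2) * (δ * Real.log 2) := by
          field_simp
      _ ≤ M * (δ * Real.log 2) := mul_le_mul_of_nonneg_right this hδl.le
  set K : ℕ := ⌈(2 : ℝ) ^ (1 / δ)⌉₊ with hK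
  have hKle : (2 : ℝ) ^ (1 / δ) ≤ (K : ℝ) := Nat.le_ceil _
  refine ⟨M ^ K, by positivity, ?_⟩
  intro n hn
  have hbase : ∀ p ∈ n.primeFactors, (((n.factorization p + 1 : ℕ)) : ℝ) ≤
      (if p < K then M else 1) * (((p : ℝ) ^ (n.factorization p)) ^ δ) := by
    intro p hp
    have hpp : p.Prime := Nat.prime_of_mem_primeFactors hp
    set a := n.factorization p with ha
    have hp2 : (2 : ℝ) ≤ (p : ℝ) := by exact_mod_cast hpp.two_le
    have hp0 : (0 : ℝ) ≤ (p : ℝ) := by positivity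
    have hpow : (((p : ℝ) ^ a) ^ δ) = ((p : ℝ) ^ δ) ^ a := by
      rw [← Real.rpow_natCast (p : ℝ) a, ← Real.rpow_mul hp0, ← Real.rpow_natCast ((p : ℝ) ^ δ) a,
        ← Real.rpow_mul hp0, mul_comm]
    rw [hpow]
    split_ifs with hlt
    · have h1 : (2 : ℝ) ^ δ ≤ (p : ℝ) ^ δ := Real.rpow_le_rpow (by norm_num) hp2 hδ.le
      have h2 : ((2 : ℝ) ^ δ) ^ a ≤ ((p : ℝ) ^ δ) ^ a :=
        pow_le_pow_left₀ (by positivity) h1 a
      have h3 : 1 + (a : ℝ) * (δ * Real.log 2) ≤ ((2 : ℝ) ^ δ) ^ a := by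
        have : ((2 : ℝ) ^ δ) ^ a = Real.exp ((a : ℝ) * (δ * Real.log 2)) := by
          rw [← Real.rpow_natCast, ← Real.rpow_mul (by norm_num), Real.rpow_def_of_pos (by norm_num)]
          congr 1; ring
        rw [this]
        have := Real.add_one_le_exp ((a : ℝ) * (δ * Real.log 2))
        linarith
      have h4 : (((a + 1 : ℕ)) : ℝ) ≤ M * (1 + (a : ℝ) * (δ * Real.log 2)) := by
        push_cast
        have ha0 : (0 : ℝ) ≤ (a : ℝ) := by positivity
        nlinarith [mul_le_mul_of_nonneg_left hM2 ha0]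
      calc (((a + 1 : ℕ)) : ℝ) ≤ M * (1 + (a : ℝ) * (δ * Real.log 2)) := h4
        _ ≤ M * (((p : ℝ) ^ δ) ^ a) :=
          mul_le_mul_of_nonneg_left (h3.trans h2) (by linarith)
    · have hKp : (K : ℝ) ≤ (p : ℝ) := by exact_mod_cast not_lt.mp hlt
      have h1 : (2 : ℝ) ≤ (p : ℝ) ^ δ := by
        have h5 : ((2 : ℝ) ^ (1 / δ)) ^ δ ≤ (p : ℝ) ^ δ :=
          Real.rpow_le_rpow (by positivity) (hKle.trans hKp) hδ.le
        have h6 : ((2 : ℝ) ^ (1 / δ)) ^ δ = 2 := by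
          rw [← Real.rpow_mul (by norm_num)]
          rw [one_div, inv_mul_cancel₀ hδ.ne', Real.rpow_one]
        rwa [h6] at h5
      have h2 : (2 : ℝ) ^ a ≤ ((p : ℝ) ^ δ) ^ a := pow_le_pow_left₀ (by norm_num) h1 a
      have h3 : (((a + 1 : ℕ)) : ℝ) ≤ (2 : ℝ) ^ a := by
        have : a + 1 ≤ 2 ^ a := Nat.lt_two_pow_self
        exact_mod_cast this
      rw [one_mul]
      exact h3.trans h2
  have hn' : (n : ℝ) ^ δ = ∏ p ∈ n.primeFactors, (((p : ℝ) ^ (n.factorization p)) ^ δ) := by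
    rw [Real.finsetProd_rpow _ _ (fun i _ => by positivity)]
    congr 1
    have := Nat.prod_factorization_pow_eq_self hn
    conv_lhs => rw [← this]
    rw [Finsupp.prod]
    push_cast
    rfl
  rw [Nat.card_divisors hn]
  push_cast
  calc (∏ p ∈ n.primeFactors, ((n.factorization p : ℝ) + 1))
      ≤ ∏ p ∈ n.primeFactors, ((if p < K then M else 1) * (((p : ℝ) ^ (n.factorization p)) ^ δ)) := by
        apply Finset.prod_le_prod
        · intro i _; positivity
        · intro i hi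
          have := hbase i hi
          push_cast at this
          exact this
    _ = (∏ p ∈ n.primeFactors, (if p < K then M else 1)) * (n : ℝ) ^ δ := by
        rw [Finset.prod_mul_distrib, hn']
    _ ≤ M ^ K * (n : ℝ) ^ δ := by
        apply mul_le_mul_of_nonneg_right _ (by positivity)
        rw [Finset.prod_ite, Finset.prod_const, Finset.prod_const_one, mul_one]
        apply pow_le_pow_right₀ hM1
        calc (n.primeFactors.filter (fun p => p < K)).card ≤ (Finset.range K).card := by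
              apply Finset.card_le_card
              intro x hx
              simp only [Finset.mem_filter] at hx
              exact Finset.mem_range.mpr hx.2
          _ = K := Finset.card_range K


variable {q : ℕ} [Fact q.Prime]

lemma val_coprime (g : (ZMod q)ˣ) : (g : ZMod q).val.Coprime q :=
  cop_of_lt (val_pos g) (by
    have : NeZero q := ⟨(Nat.Prime.pos Fact.out).ne'⟩
    exact ZMod.val_lt _)

lemma un_val_self (g : (ZMod q)ˣ) : un q (g : ZMod q).val = g := by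
  have : NeZero q := ⟨(Nat.Prime.pos Fact.out).ne'⟩
  apply Units.ext
  rw [un_val (val_coprime g), ZMod.natCast_zmod_val]

lemma un_prod {m : ℕ} (f : Fin m → ℕ) (hf : ∀ i, (f i).Coprime q) :
    ∏ i, un q (f i) = un q (∏ i, f i) := by
  apply Units.ext
  rw [un_val (Nat.Coprime.prod_left fun i _ => hf i), Units.coe_prod, Nat.cast_prod]
  exact Finset.prod_congr rfl fun i _ => un_val (hf i)

/-- the harmonic sum over integers above `q` in a coset -/
lemma coset_harm (K : Subgroup (ZMod q)ˣ) (d : (ZMod q)ˣ) (T : ℕ) (hT : 1 ≤ T) (A : Finset ℕ)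
    (hA : ∀ m ∈ A, q ≤ m ∧ m < q ^ T ∧ m.Coprime q ∧ un q m * d ∈ K) :
    ∑ m ∈ A, 1 / (m : ℝ) ≤ (Fintype.card K : ℝ) / q * (1 + T * Real.log q) := by
  have hq0 : 0 < q := Nat.Prime.pos Fact.out
  have hq1 : 1 < q := Nat.Prime.one_lt Fact.out
  have hq0' : (0 : ℝ) < q := by exact_mod_cast hq0
  set D : Finset (ZMod q)ˣ := univ.filter (fun g => g * d ∈ K) with hD
  have hDc : D.card = Fintype.card K := by
    rw [hD, Fintype.card_subtype]
    refine Finset.card_bij' (fun g _ => g * d) (fun k _ => k * d⁻¹) ?_ ?_ ?_ ?_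
    · intro g hg
      rw [mem_filter] at hg ⊢
      exact ⟨mem_univ _, hg.2⟩
    · intro k hk
      rw [mem_filter] at hk ⊢
      refine ⟨mem_univ _, ?_⟩
      rw [inv_mul_cancel_right]
      exact hk.2
    · intro g _; simp
    · intro g _; simp
  have h1 : ∑ m ∈ A, 1 / (m : ℝ) ≤ ∑ m ∈ A, 1 / (((m / q : ℕ) : ℝ) * q) := by
    apply Finset.sum_le_sum
    intro m hm
    have h2 : 0 < m / q := Nat.div_pos (hA m hm).1 hq0
    have h2' : (0 : ℝ) < ((m / q : ℕ) : ℝ) := by exact_mod_cast h2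
    apply one_div_le_one_div_of_le (by positivity)
    exact_mod_cast Nat.div_mul_le_self m q
  refine h1.trans ?_
  have hinj : Set.InjOn (fun m => (m / q, un q m)) (A : Set ℕ) := by
    intro m hm m' hm' h
    rw [mem_coe] at hm hm'
    simp only [Prod.mk.injEq] at h
    have e1 : (m : ZMod q) = (m' : ZMod q) := by
      rw [← un_val (hA m hm).2.2.1, ← un_val (hA m' hm').2.2.1, h.2]
    rw [ZMod.natCast_eq_natCast_iff'] at e1
    rw [← Nat.div_add_mod m q, ← Nat.div_add_mod m' q, h.1, e1]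
  have h3 : ∑ m ∈ A, 1 / (((m / q : ℕ) : ℝ) * q) =
      ∑ z ∈ A.image (fun m => (m / q, un q m)), 1 / ((z.1 : ℝ) * q) := by
    rw [Finset.sum_image hinj]
  rw [h3]
  have h4 : A.image (fun m => (m / q, un q m)) ⊆ Icc 1 (q ^ (T - 1)) ×ˢ D := by
    intro z hz
    rw [mem_image] at hz
    obtain ⟨m, hm, rfl⟩ := hz
    rw [mem_product, mem_Icc, hD, mem_filter]
    refine ⟨⟨Nat.div_pos (hA m hm).1 hq0, ?_⟩, mem_univ _, (hA m hm).2.2.2⟩
    apply Nat.div_le_of_le_mul
    have : q * q ^ (T - 1) = q ^ T := by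
      rw [← pow_succ', Nat.sub_add_cancel hT]
    rw [this]
    exact (hA m hm).2.1.le
  refine (Finset.sum_le_sum_of_subset_of_nonneg h4 (fun z _ _ => by positivity)).trans ?_
  rw [Finset.sum_product]
  have h5 : ∀ i ∈ Icc 1 (q ^ (T - 1)), ∑ _g ∈ D, 1 / ((i : ℝ) * q) =
      (Fintype.card K : ℝ) / q * (1 / (i : ℝ)) := by
    intro i _
    rw [Finset.sum_const, hDc, nsmul_eq_mul]
    field_simp
  rw [Finset.sum_congr rfl h5, ← Finset.mul_sum]
  apply mul_le_mul_of_nonneg_left _ (by positivity)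
  have h6 : ∑ i ∈ Icc 1 (q ^ (T - 1)), 1 / (i : ℝ) = (harmonic (q ^ (T - 1)) : ℝ) := by
    rw [harmonic_eq_sum_Icc]
    push_cast
    exact Finset.sum_congr rfl fun i _ => by rw [one_div]
  rw [h6]
  refine (harmonic_le_one_add_log _).trans ?_
  push_cast
  rw [Real.log_pow]
  have h7 : ((T - 1 : ℕ) : ℝ) ≤ T := by exact_mod_cast Nat.sub_le T 1
  have h8 : 0 ≤ Real.log q := Real.log_nonneg (by exact_mod_cast hq1.le)
  nlinarith

/-- the `T`-th power of the sum over large elements of a coset -/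
lemma coset_pow (K : Subgroup (ZMod q)ˣ) (c : (ZMod q)ˣ) (T M : ℕ) (hT : 1 ≤ T) (hM : q ≤ M ^ T)
    (δ C : ℝ) (hC : 0 < C) (hδ : 0 < δ)
    (hdiv : ∀ n : ℕ, n ≠ 0 → ((n.divisors.card : ℕ) : ℝ) ≤ C * (n : ℝ) ^ δ) :
    (∑ g : (ZMod q)ˣ, if g ∈ K ∧ M < ((g * c : (ZMod q)ˣ) : ZMod q).val then
      1 / (((g * c : (ZMod q)ˣ) : ZMod q).val : ℝ) else 0) ^ T ≤
      (C * ((q : ℝ) ^ T) ^ δ) ^ T * ((Fintype.card K : ℝ) / q * (1 + T * Real.log q)) := by
  have hq0 : 0 < q := Nat.Prime.pos Fact.out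
  have hq0' : (0 : ℝ) < q := by exact_mod_cast hq0
  have hNZ : NeZero q := ⟨hq0.ne'⟩
  set A : Finset ℕ := (univ.filter (fun g : (ZMod q)ˣ => g ∈ K ∧
    M < ((g * c : (ZMod q)ˣ) : ZMod q).val)).image (fun g => ((g * c : (ZMod q)ˣ) : ZMod q).val) with hA
  have hinj : Set.InjOn (fun g : (ZMod q)ˣ => ((g * c : (ZMod q)ˣ) : ZMod q).val)
      ((univ.filter (fun g : (ZMod q)ˣ => g ∈ K ∧
        M < ((g * c : (ZMod q)ˣ) : ZMod q).val) : Finset (ZMod q)ˣ) : Set (ZMod q)ˣ) := by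
    intro g _ g' _ h
    have := ZMod.val_injective q h
    exact mul_right_cancel (Units.ext this)
  have h1 : (∑ g : (ZMod q)ˣ, if g ∈ K ∧ M < ((g * c : (ZMod q)ˣ) : ZMod q).val then
      1 / (((g * c : (ZMod q)ˣ) : ZMod q).val : ℝ) else 0) = ∑ n ∈ A, 1 / (n : ℝ) := by
    rw [← Finset.sum_filter, hA, Finset.sum_image hinj]
  have hAm : ∀ n ∈ A, M < n ∧ n < q ∧ n.Coprime q ∧ un q n * c⁻¹ ∈ K := by
    intro n hn
    rw [hA, mem_image] at hn
    obtain ⟨g, hg, rfl⟩ := hn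
    rw [mem_filter] at hg
    refine ⟨hg.2.2, ZMod.val_lt _, val_coprime _, ?_⟩
    rw [un_val_self, mul_inv_cancel_right]
    exact hg.2.1
  rw [h1]
  have h2 : (∑ n ∈ A, 1 / (n : ℝ)) ^ T = ∑ f ∈ Fintype.piFinset (fun _ : Fin T => A),
      1 / ((∏ i, f i : ℕ) : ℝ) := by
    have e1 : (∑ n ∈ A, 1 / (n : ℝ)) ^ T = ∏ _i : Fin T, ∑ n ∈ A, 1 / (n : ℝ) := by simp
    rw [e1, Finset.prod_univ_sum]
    apply Finset.sum_congr rfl
    intro f _
    rw [Finset.prod_div_distrib]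
    push_cast
    simp
  rw [h2]
  set B : Finset ℕ := (Fintype.piFinset (fun _ : Fin T => A)).image (fun f => ∏ i, f i) with hB
  have hmap : ∀ f ∈ Fintype.piFinset (fun _ : Fin T => A), ∏ i, f i ∈ B :=
    fun f hf => mem_image_of_mem _ hf
  have hBm : ∀ m ∈ B, q ≤ m ∧ m < q ^ T ∧ m.Coprime q ∧ un q m * (c⁻¹) ^ T ∈ K := by
    intro m hm
    rw [hB, mem_image] at hm
    obtain ⟨f, hf, rfl⟩ := hm
    rw [Fintype.mem_piFinset] at hf
    have hcop : ∀ i, (f i).Coprime q := fun i => (hAm _ (hf i)).2.2.1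
    refine ⟨?_, ?_, Nat.Coprime.prod_left fun i _ => hcop i, ?_⟩
    · refine hM.trans ?_
      calc M ^ T = ∏ _i : Fin T, M := by simp
        _ ≤ ∏ i, f i := Finset.prod_le_prod' fun i _ => (hAm _ (hf i)).1.le
    · calc ∏ i, f i < ∏ _i : Fin T, q := by
            apply Finset.prod_lt_prod_of_nonempty
            · intro i _
              exact lt_of_le_of_lt (Nat.zero_le _) (hAm _ (hf i)).1
            · intro i _; exact (hAm _ (hf i)).2.1
            · exact ⟨⟨0, hT⟩, mem_univ _⟩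
        _ = q ^ T := by simp
    · have e1 : un q (∏ i, f i) * (c⁻¹) ^ T = ∏ i, (un q (f i) * c⁻¹) := by
        rw [← un_prod f hcop, Finset.prod_mul_distrib]
        simp
      rw [e1]
      exact Subgroup.prod_mem K fun i _ => (hAm _ (hf i)).2.2.2
  rw [← Finset.sum_fiberwise_of_maps_to hmap]
  have hfib : ∀ m ∈ B, ∑ f ∈ (Fintype.piFinset (fun _ : Fin T => A)).filter (fun f => ∏ i, f i = m),
      1 / ((∏ i, f i : ℕ) : ℝ) ≤ (C * ((q : ℝ) ^ T) ^ δ) ^ T * (1 / (m : ℝ)) := by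
    intro m hm
    obtain ⟨m1, m2, m3, _⟩ := hBm m hm
    have hm0 : 0 < m := lt_of_lt_of_le hq0 m1
    have e1 : ∀ f ∈ (Fintype.piFinset (fun _ : Fin T => A)).filter (fun f => ∏ i, f i = m),
      1 / ((∏ i, f i : ℕ) : ℝ) = 1 / (m : ℝ) := by
      intro f hf
      rw [(mem_filter.1 hf).2]
    rw [Finset.sum_congr rfl e1, Finset.sum_const, nsmul_eq_mul]
    apply mul_le_mul_of_nonneg_right _ (by positivity)
    have e2 : ((Fintype.piFinset (fun _ : Fin T => A)).filter (fun f => ∏ i, f i = m)).card ≤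
        (Fintype.piFinset (fun _ : Fin T => m.divisors)).card := by
      apply card_le_card
      intro f hf
      rw [mem_filter] at hf
      rw [Fintype.mem_piFinset]
      intro i
      rw [Nat.mem_divisors]
      exact ⟨by rw [← hf.2]; exact Finset.dvd_prod_of_mem _ (mem_univ i), hm0.ne'⟩
    rw [Fintype.card_piFinset_const] at e2
    calc (((Fintype.piFinset (fun _ : Fin T => A)).filter (fun f => ∏ i, f i = m)).card : ℝ)
        ≤ ((m.divisors.card : ℕ) : ℝ) ^ T := by exact_mod_cast e2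
      _ ≤ (C * (m : ℝ) ^ δ) ^ T := pow_le_pow_left₀ (by positivity) (hdiv m hm0.ne') T
      _ ≤ (C * ((q : ℝ) ^ T) ^ δ) ^ T := by
          apply pow_le_pow_left₀ (by positivity)
          apply mul_le_mul_of_nonneg_left _ hC.le
          apply Real.rpow_le_rpow (by positivity) _ hδ.le
          exact_mod_cast m2.le
  refine (Finset.sum_le_sum hfib).trans ?_
  rw [← Finset.mul_sum]
  apply mul_le_mul_of_nonneg_left _ (by positivity)
  exact coset_harm K ((c⁻¹) ^ T) T hT B hBm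

lemma ev_log (C T a : ℝ) (ha : 0 < a) : ∀ᶠ x : ℝ in Filter.atTop, C * (1 + T * Real.log x) ≤ x ^ a := by
  have h1 : Filter.Tendsto (fun x : ℝ => Real.log x / x ^ a) Filter.atTop (nhds 0) :=
    (isLittleO_log_rpow_atTop ha).tendsto_div_nhds_zero
  have h2 : Filter.Tendsto (fun x : ℝ => (x ^ a)⁻¹) Filter.atTop (nhds 0) :=
    (tendsto_rpow_atTop ha).inv_tendsto_atTop
  have h3 : Filter.Tendsto (fun x : ℝ => C * ((x ^ a)⁻¹ + T * (Real.log x / x ^ a))) Filter.atTop
      (nhds (C * (0 + T * 0))) := (h2.add (h1.const_mul T)).const_mul C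
  have h4 : ∀ᶠ x : ℝ in Filter.atTop, C * ((x ^ a)⁻¹ + T * (Real.log x / x ^ a)) < 1 := by
    apply h3.eventually_lt_const
    simp
  filter_upwards [h4, Filter.eventually_gt_atTop 0] with x hx hx0
  have hxa : 0 < x ^ a := Real.rpow_pos_of_pos hx0 a
  have h5 : C * ((x ^ a)⁻¹ + T * (Real.log x / x ^ a)) = (C * (1 + T * Real.log x)) / x ^ a := by
    field_simp
  rw [h5, div_lt_one hxa] at hx
  exact hx.le

theorem large_small (T : ℕ) (hT : 1 ≤ T) (ε : ℝ) (hε : 0 < ε) : ∃ q₀ : ℕ, ∀ (q : ℕ) [Fact q.Prime],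
    q₀ ≤ q → ∀ K : Subgroup (ZMod q)ˣ, (Fintype.card K : ℝ) ≤ (q : ℝ) ^ (1 - ε) →
    ∀ M : ℕ, q ≤ M ^ T → ∀ c : (ZMod q)ˣ,
    ∑ g : (ZMod q)ˣ, (if g ∈ K ∧ M < ((g * c : (ZMod q)ˣ) : ZMod q).val then
      ((((g * c : (ZMod q)ˣ) : ZMod q).val.divisors.card : ℕ) : ℝ) ^ 2 *
        (1 / (((g * c : (ZMod q)ˣ) : ZMod q).val : ℝ)) else 0) ≤ (q : ℝ) ^ (-(ε / (4 * T))) := by
  have hT0 : (0 : ℝ) < T := by exact_mod_cast hT
  have hT1 : (1 : ℝ) ≤ T := by exact_mod_cast hT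
  set δ : ℝ := ε / (16 * T ^ 2) with hδ
  have hδ0 : 0 < δ := by rw [hδ]; positivity
  obtain ⟨C, hC, hdiv⟩ := divisor_bound δ hδ0
  have hev := ev_log ((C ^ 2 * C) ^ T) T (ε / 4) (by positivity)
  obtain ⟨q₀, hq₀⟩ := Filter.eventually_atTop.1 (tendsto_natCast_atTop_atTop (R := ℝ) |>.eventually hev)
  refine ⟨q₀, fun q _ hqq K hK M hM c => ?_⟩
  have hq0 : 0 < q := Nat.Prime.pos Fact.out
  have hq0' : (0 : ℝ) < q := by exact_mod_cast hq0
  have hq1' : (1 : ℝ) ≤ q := by exact_mod_cast hq0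
  have hNZ : NeZero q := ⟨hq0.ne'⟩
  have h1 := coset_pow K c T M hT hM δ C hC hδ0 hdiv
  set S : ℝ := ∑ g : (ZMod q)ˣ, (if g ∈ K ∧ M < ((g * c : (ZMod q)ˣ) : ZMod q).val then
      1 / (((g * c : (ZMod q)ˣ) : ZMod q).val : ℝ) else 0) with hS
  have hS0 : 0 ≤ S := by
    rw [hS]
    apply Finset.sum_nonneg
    intro g _
    split_ifs <;> positivity
  set R : ℝ := (C * (q : ℝ) ^ δ) ^ 2 with hR
  have hR0 : 0 ≤ R := by rw [hR]; positivity
  have h2 : ∑ g : (ZMod q)ˣ, (if g ∈ K ∧ M < ((g * c : (ZMod q)ˣ) : ZMod q).val then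
      ((((g * c : (ZMod q)ˣ) : ZMod q).val.divisors.card : ℕ) : ℝ) ^ 2 *
        (1 / (((g * c : (ZMod q)ˣ) : ZMod q).val : ℝ)) else 0) ≤ R * S := by
    rw [hS, Finset.mul_sum]
    apply Finset.sum_le_sum
    intro g _
    split_ifs with h
    · apply mul_le_mul_of_nonneg_right _ (by positivity)
      rw [hR]
      apply pow_le_pow_left₀ (by positivity)
      refine (hdiv _ (val_pos (g * c)).ne').trans ?_
      apply mul_le_mul_of_nonneg_left _ hC.le
      apply Real.rpow_le_rpow (by positivity) _ hδ0.le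
      exact_mod_cast (ZMod.val_lt _).le
    · simp
  refine h2.trans ?_
  have h3 : (R * S) ^ T ≤ ((q : ℝ) ^ (-(ε / (4 * T)))) ^ T := by
    have e0 : ((q : ℝ) ^ (-(ε / (4 * T)))) ^ T = (q : ℝ) ^ (-(ε / 4)) := by
      rw [← Real.rpow_natCast, ← Real.rpow_mul hq0'.le]
      congr 1
      field_simp
    rw [e0, mul_pow]
    have e1 : R ^ T * S ^ T ≤ R ^ T * ((C * ((q : ℝ) ^ T) ^ δ) ^ T *
        ((Fintype.card K : ℝ) / q * (1 + T * Real.log q))) :=
      mul_le_mul_of_nonneg_left h1 (by positivity)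
    refine e1.trans ?_
    have e2 : R ^ T = (C ^ 2) ^ T * (q : ℝ) ^ (2 * δ * T) := by
      rw [hR, mul_pow, mul_pow]
      congr 1
      rw [← Real.rpow_natCast, ← Real.rpow_natCast, ← Real.rpow_mul hq0'.le, ← Real.rpow_mul hq0'.le]
      congr 1
      push_cast; ring
    have e3 : (C * ((q : ℝ) ^ T) ^ δ) ^ T = C ^ T * (q : ℝ) ^ (δ * T ^ 2) := by
      rw [mul_pow]
      congr 1
      rw [← Real.rpow_natCast (q : ℝ) T, ← Real.rpow_natCast, ← Real.rpow_mul hq0'.le,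
        ← Real.rpow_mul hq0'.le]
      congr 1
      ring
    have hlog : 0 ≤ 1 + T * Real.log q := by
      have := Real.log_nonneg hq1'
      positivity
    have e4 : (Fintype.card K : ℝ) / q ≤ (q : ℝ) ^ (-ε) := by
      rw [div_le_iff₀ hq0']
      refine hK.trans (le_of_eq ?_)
      nth_rw 3 [← Real.rpow_one (q : ℝ)]
      rw [← Real.rpow_add hq0']
      congr 1; ring
    have hev' := hq₀ q hqq
    have e5 : (2 * δ * T + δ * T ^ 2 - ε) ≤ -(ε / 2) := by
      have f1 : δ * T ^ 2 = ε / 16 := by rw [hδ]; field_simp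
      have f2 : δ * T ≤ δ * T ^ 2 := by
        apply mul_le_mul_of_nonneg_left _ hδ0.le
        nlinarith
      linarith
    calc R ^ T * ((C * ((q : ℝ) ^ T) ^ δ) ^ T * ((Fintype.card K : ℝ) / q * (1 + T * Real.log q)))
        ≤ R ^ T * ((C * ((q : ℝ) ^ T) ^ δ) ^ T * ((q : ℝ) ^ (-ε) * (1 + T * Real.log q))) := by
          apply mul_le_mul_of_nonneg_left _ (by positivity)
          apply mul_le_mul_of_nonneg_left _ (by positivity)
          exact mul_le_mul_of_nonneg_right e4 hlog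
      _ = (((C ^ 2 * C) ^ T) * (1 + T * Real.log q)) * (q : ℝ) ^ (2 * δ * T + δ * T ^ 2 - ε) := by
          rw [e2, e3, Real.rpow_sub hq0', Real.rpow_add hq0', Real.rpow_neg hq0'.le, mul_pow (C ^ 2) C]
          ring
      _ ≤ (q : ℝ) ^ (ε / 4) * (q : ℝ) ^ (-(ε / 2)) := by
          apply mul_le_mul hev' _ (by positivity) (by positivity)
          exact Real.rpow_le_rpow_of_exponent_le hq1' e5
      _ = (q : ℝ) ^ (-(ε / 4)) := by
          rw [← Real.rpow_add hq0']; congr 1; ring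
  exact le_of_pow_le_pow_left₀ (by omega) (by positivity) h3

end Pool.Agent.V8H32.Cos
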