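import Mathlib

/-! Truncated sums of elementary symmetric functions are bounded in terms of the first power sum. -/

set_option autoImplicit false

namespace Pool.Agent.V8H32.Cos
open Finset PowerSeries
open scoped Classical

/-- truncated norm of a power series -/
noncomputable def NN (n : ℕ) (F : PowerSeries ℂ) : ℝ := ∑ i ∈ range (n + 1), ‖coeff i F‖

lemma NN_nonneg (n : ℕ) (F : PowerSeries ℂ) : 0 ≤ NN n F := Finset.sum_nonneg fun _ _ => norm_nonneg _

lemma NN_mul (n : ℕ) (F G : PowerSeries ℂ) : NN n (F * G) ≤ NN n F * NN n G := by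
  unfold NN
  have h1 : ∀ k ∈ range (n + 1), ‖coeff k (F * G)‖ ≤
      ∑ z ∈ antidiagonal k, ‖coeff z.1 F‖ * ‖coeff z.2 G‖ := by
    intro k _
    rw [coeff_mul]
    refine (norm_sum_le _ _).trans (le_of_eq ?_)
    exact Finset.sum_congr rfl fun z _ => norm_mul _ _
  refine (Finset.sum_le_sum h1).trans ?_
  rw [Finset.sum_mul_sum, ← Finset.sum_product', Finset.sum_sigma']
  rw [← Finset.sum_image (s := (range (n + 1)).sigma fun k => antidiagonal k)
    (g := fun z : (_ : ℕ) × (ℕ × ℕ) => z.2) (f := fun z : ℕ × ℕ => ‖coeff z.1 F‖ * ‖coeff z.2 G‖)]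
  · apply Finset.sum_le_sum_of_subset_of_nonneg
    · intro z hz
      rw [mem_image] at hz
      obtain ⟨⟨k, z'⟩, hz', rfl⟩ := hz
      rw [mem_sigma, mem_range, HasAntidiagonal.mem_antidiagonal] at hz'
      simp only at hz' ⊢
      rw [mem_product, mem_range, mem_range]
      omega
    · intro z _ _
      positivity
  · rintro ⟨k, z⟩ hz ⟨k', z'⟩ hz' h
    simp only at h
    subst h
    rw [mem_coe, mem_sigma, HasAntidiagonal.mem_antidiagonal] at hz hz'
    simp only at hz hz'
    obtain ⟨_, rfl⟩ := hz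
    obtain ⟨_, h2⟩ := hz'
    subst h2
    rfl

lemma NN_one (n : ℕ) : NN n (1 : PowerSeries ℂ) = 1 := by
  unfold NN
  rw [Finset.sum_range_succ']
  simp [coeff_one]

lemma NN_prod {ι : Type*} (n : ℕ) (s : Finset ι) (F : ι → PowerSeries ℂ) :
    NN n (∏ i ∈ s, F i) ≤ ∏ i ∈ s, NN n (F i) := by
  induction s using Finset.induction_on with
  | empty => rw [prod_empty, prod_empty, NN_one]
  | insert a s ha ih =>
    rw [prod_insert ha, prod_insert ha]
    exact (NN_mul n _ _).trans (mul_le_mul_of_nonneg_left ih (NN_nonneg _ _))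

lemma sum_tel (n : ℕ) : ∑ k ∈ range n, ((k : ℝ) / ((k + 1).factorial : ℝ)) = 1 - 1 / (n.factorial : ℝ) := by
  induction n with
  | zero => simp
  | succ n ih =>
    rw [Finset.sum_range_succ, ih, Nat.factorial_succ]
    have h1 : ((n.factorial : ℕ) : ℝ) ≠ 0 := by exact_mod_cast Nat.factorial_ne_zero n
    have h2 : ((n : ℝ) + 1) ≠ 0 := by positivity
    push_cast
    field_simp
    ring

lemma NN_factor (n : ℕ) (x : ℂ) (hx : ‖x‖ ≤ 1) :
    NN n ((1 + C x * X) * rescale (-x) (exp ℂ)) ≤ 1 + ‖x‖ ^ 2 := by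
  unfold NN
  rw [Finset.sum_range_succ']
  have h0 : coeff 0 ((1 + C x * X) * rescale (-x) (exp ℂ)) = 1 := by
    rw [add_mul, one_mul, map_add, mul_assoc, coeff_C_mul, mul_comm X, coeff_zero_mul_X]
    simp [coeff_rescale, coeff_exp]
  have hk : ∀ k : ℕ, ‖coeff (k + 1) ((1 + C x * X) * rescale (-x) (exp ℂ))‖ =
      ‖x‖ ^ (k + 1) * ((k : ℝ) / ((k + 1).factorial : ℝ)) := by
    intro k
    rw [add_mul, one_mul, map_add, mul_assoc, coeff_C_mul, mul_comm X, coeff_succ_mul_X]
    simp only [coeff_rescale, coeff_exp]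
    have h1 : ((k.factorial : ℕ) : ℂ) ≠ 0 := by exact_mod_cast Nat.factorial_ne_zero k
    have h2 : ((k : ℂ) + 1) ≠ 0 := by exact_mod_cast Nat.succ_ne_zero k
    have h3 : (-x) ^ (k + 1) * (algebraMap ℚ ℂ) (1 / ((k + 1).factorial : ℚ)) +
        x * ((-x) ^ k * (algebraMap ℚ ℂ) (1 / (k.factorial : ℚ))) =
        -((-x) ^ (k + 1) * ((k : ℂ) / ((k + 1).factorial : ℂ))) := by
      rw [Nat.factorial_succ]
      simp only [map_div₀, map_one, map_natCast]
      push_cast
      field_simp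
      ring
    rw [h3, norm_neg, norm_mul, norm_pow, norm_neg, norm_div]
    simp
  rw [h0, norm_one, add_comm]
  apply add_le_add_right
  rw [Finset.sum_congr rfl (fun k _ => hk k)]
  calc ∑ k ∈ range n, ‖x‖ ^ (k + 1) * ((k : ℝ) / ((k + 1).factorial : ℝ))
      ≤ ∑ k ∈ range n, ‖x‖ ^ 2 * ((k : ℝ) / ((k + 1).factorial : ℝ)) := by
        apply Finset.sum_le_sum
        intro k _
        rcases Nat.eq_zero_or_pos k with h | h
        · subst h; simp
        · apply mul_le_mul_of_nonneg_right _ (by positivity)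
          exact pow_le_pow_of_le_one (norm_nonneg _) hx (by omega)
    _ = ‖x‖ ^ 2 * (1 - 1 / (n.factorial : ℝ)) := by rw [← Finset.mul_sum, sum_tel]
    _ ≤ ‖x‖ ^ 2 * 1 := by
        apply mul_le_mul_of_nonneg_left _ (by positivity)
        have : (0 : ℝ) ≤ 1 / (n.factorial : ℝ) := by positivity
        linarith
    _ = ‖x‖ ^ 2 := mul_one _

theorem esymm_bound (Q : Finset ℕ) (x : ℕ → ℂ) (hx : ∀ p ∈ Q, ‖x p‖ ≤ 1) (l : ℕ) :
    ‖∑ D ∈ Q.powerset.filter (fun D => D.card ≤ l), ∏ p ∈ D, x p‖ ≤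
      Real.exp (∑ p ∈ Q, ‖x p‖ ^ 2) *
        ∑ i ∈ range (l + 1), ‖∑ p ∈ Q, x p‖ ^ i / (i.factorial : ℝ) := by
  set E : PowerSeries ℂ := ∏ p ∈ Q, (1 + C (x p) * X) with hE
  set σ : ℂ := ∑ p ∈ Q, x p with hσ
  have h1 : E = ∑ D ∈ Q.powerset, C (∏ p ∈ D, x p) * X ^ D.card := by
    rw [hE, Finset.prod_one_add]
    apply Finset.sum_congr rfl
    intro D _
    rw [Finset.prod_mul_distrib, Finset.prod_const, map_prod]
  have h2 : ∑ D ∈ Q.powerset.filter (fun D => D.card ≤ l), ∏ p ∈ D, x p =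
      ∑ i ∈ range (l + 1), coeff i E := by
    rw [h1]
    simp only [map_sum, coeff_C_mul, coeff_X_pow]
    rw [Finset.sum_comm, Finset.sum_filter]
    apply Finset.sum_congr rfl
    intro D _
    simp only [mul_ite, mul_one, mul_zero]
    rw [Finset.sum_ite_eq' (range (l + 1))]
    simp only [mem_range]
    by_cases h : D.card ≤ l
    · rw [if_pos h, if_pos (by omega)]
    · rw [if_neg h, if_neg (by omega)]
  have h3 : E = (∏ p ∈ Q, ((1 + C (x p) * X) * rescale (-(x p)) (exp ℂ))) * rescale σ (exp ℂ) := by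
    rw [Finset.prod_mul_distrib, mul_assoc]
    have h4 : ∀ s : Finset ℕ, ∏ p ∈ s, rescale (-(x p)) (exp ℂ) = rescale (-∑ p ∈ s, x p) (exp ℂ) := by
      intro s
      induction s using Finset.induction_on with
      | empty =>
        rw [prod_empty, sum_empty, neg_zero, rescale_zero]
        simp
      | insert a s ha ih =>
        rw [prod_insert ha, ih, sum_insert ha, exp_mul_exp_eq_exp_add, neg_add]
    rw [h4, exp_mul_exp_eq_exp_add, neg_add_cancel, rescale_zero]
    simp [hE]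
  rw [h2]
  calc ‖∑ i ∈ range (l + 1), coeff i E‖ ≤ NN l E := norm_sum_le _ _
    _ ≤ NN l (∏ p ∈ Q, ((1 + C (x p) * X) * rescale (-(x p)) (exp ℂ))) * NN l (rescale σ (exp ℂ)) := by
        nth_rw 1 [h3]
        exact NN_mul l _ _
    _ ≤ Real.exp (∑ p ∈ Q, ‖x p‖ ^ 2) * NN l (rescale σ (exp ℂ)) := by
        apply mul_le_mul_of_nonneg_right _ (NN_nonneg _ _)
        refine (NN_prod l Q _).trans ?_
        rw [Real.exp_sum]
        apply Finset.prod_le_prod
        · intro p _; exact NN_nonneg _ _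
        · intro p hp
          refine (NN_factor l (x p) (hx p hp)).trans ?_
          have := Real.add_one_le_exp (‖x p‖ ^ 2)
          linarith
    _ = _ := by
        congr 1
        unfold NN
        apply Finset.sum_congr rfl
        intro i _
        rw [coeff_rescale, coeff_exp, norm_mul, norm_pow]
        simp [div_eq_mul_inv]

end Pool.Agent.V8H32.Cos
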