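import Mathlib
import Pool.Agent.V8H32.Cos.Large
import Pool.Agent.V8H32.Cos.Newt

/-! The mollifier. -/

set_option autoImplicit false

namespace Pool.Agent.V8H32.Cos
open Finset Pool.Agent.R311.RES
open scoped Classical

/-- primes up to `z` -/
def Q1 (z : ℕ) : Finset ℕ := (Icc 1 z).filter Nat.Prime
/-- primes in `(z, y]` -/
def Q2 (z y : ℕ) : Finset ℕ := (Ioc z y).filter Nat.Prime

/-- index set of the mollifier -/
def DD (z y l : ℕ) : Finset (Finset ℕ × Finset ℕ) :=
  (Q1 z).powerset ×ˢ ((Q2 z y).powerset.filter (fun D => D.card ≤ l))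

/-- the integer attached to an index -/
def dd (D : Finset ℕ × Finset ℕ) : ℕ := pr D.1 * pr D.2
/-- the sign -/
def sg (D : Finset ℕ × Finset ℕ) : ℝ := (-1) ^ (D.1.card + D.2.card)

lemma mem_Q1 {z p : ℕ} : p ∈ Q1 z ↔ p.Prime ∧ p ≤ z := by
  rw [Q1, mem_filter, mem_Icc]
  constructor
  · rintro ⟨⟨_, h⟩, h'⟩; exact ⟨h', h⟩
  · rintro ⟨h', h⟩; exact ⟨⟨h'.one_lt.le, h⟩, h'⟩

lemma mem_Q2 {z y p : ℕ} : p ∈ Q2 z y ↔ p.Prime ∧ z < p ∧ p ≤ y := by
  rw [Q2, mem_filter, mem_Ioc]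
  tauto

lemma mem_DD {z y l : ℕ} {D : Finset ℕ × Finset ℕ} : D ∈ DD z y l ↔
    D.1 ⊆ Q1 z ∧ D.2 ⊆ Q2 z y ∧ D.2.card ≤ l := by
  rw [DD, mem_product, mem_powerset, mem_filter, mem_powerset]

lemma dd_struct {z y l : ℕ} {D : Finset ℕ × Finset ℕ} (hD : D ∈ DD z y l) :
    (∀ p ∈ D.1, p.Prime) ∧ (∀ p ∈ D.2, p.Prime) ∧ Disjoint D.1 D.2 ∧ 0 < dd D ∧
      dd D = pr (D.1 ∪ D.2) := by
  rw [mem_DD] at hD
  have h1 : ∀ p ∈ D.1, p.Prime := fun p hp => (mem_Q1.1 (hD.1 hp)).1
  have h2 : ∀ p ∈ D.2, p.Prime := fun p hp => (mem_Q2.1 (hD.2.1 hp)).1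
  have h3 : Disjoint D.1 D.2 := by
    rw [Finset.disjoint_left]
    intro p hp hp'
    have := (mem_Q1.1 (hD.1 hp)).2
    have := (mem_Q2.1 (hD.2.1 hp')).2.1
    omega
  refine ⟨h1, h2, h3, ?_, ?_⟩
  · exact Nat.mul_pos (pr_pos fun p hp => (h1 p hp).pos) (pr_pos fun p hp => (h2 p hp).pos)
  · exact (Finset.prod_union h3).symm

lemma dd_dvd_iff {z y l n : ℕ} {D : Finset ℕ × Finset ℕ} (hD : D ∈ DD z y l) (hn : 0 < n) :
    dd D ∣ n ↔ D.1 ⊆ n.primeFactors ∧ D.2 ⊆ n.primeFactors := by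
  obtain ⟨h1, h2, h3, _, h5⟩ := dd_struct hD
  constructor
  · intro h
    constructor
    · intro p hp
      rw [Nat.mem_primeFactors]
      exact ⟨h1 p hp, ((Finset.dvd_prod_of_mem _ hp).mul_right _).trans h, hn.ne'⟩
    · intro p hp
      rw [Nat.mem_primeFactors]
      exact ⟨h2 p hp, ((Finset.dvd_prod_of_mem _ hp).mul_left _).trans h, hn.ne'⟩
  · rintro ⟨h, h'⟩
    rw [h5]
    have h6 : D.1 ∪ D.2 ⊆ n.primeFactors := union_subset h h'
    exact (Finset.prod_dvd_prod_of_subset _ _ _ h6).trans (Nat.prod_primeFactors_dvd n)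

/-- the coefficient -/
noncomputable def cM (z y l M0 n : ℕ) : ℝ :=
  ∑ D ∈ (DD z y l).filter (fun D => dd D ∣ n ∧ n ≤ M0 * dd D), sg D

lemma cM_abs {z y l M0 n : ℕ} (hn : 0 < n) : |cM z y l M0 n| ≤ (n.divisors.card : ℝ) := by
  unfold cM
  refine (Finset.abs_sum_le_sum_abs _ _).trans ?_
  have h1 : ∀ D ∈ (DD z y l).filter (fun D => dd D ∣ n ∧ n ≤ M0 * dd D), |sg D| ≤ 1 := by
    intro D _
    unfold sg
    rw [abs_pow, abs_neg, abs_one, one_pow]
  refine (Finset.sum_le_sum h1).trans ?_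
  rw [Finset.sum_const, nsmul_eq_mul, mul_one]
  have h2 : ((DD z y l).filter (fun D => dd D ∣ n ∧ n ≤ M0 * dd D)).card ≤ n.divisors.card := by
    apply Finset.card_le_card_of_injOn dd
    · intro D hD
      rw [mem_coe, mem_filter] at hD
      rw [mem_coe, Nat.mem_divisors]
      exact ⟨hD.2.1, hn.ne'⟩
    · intro D hD D' hD' h
      rw [mem_coe, mem_filter] at hD hD'
      obtain ⟨a1, a2, a3, a4, a5⟩ := dd_struct hD.1
      obtain ⟨b1, b2, b3, b4, b5⟩ := dd_struct hD'.1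
      have hU : D.1 ∪ D.2 = D'.1 ∪ D'.2 := by
        rw [← pr_primeFactors_eq (P := D.1 ∪ D.2) (S := D.1 ∪ D.2) (by
            intro p hp; rcases mem_union.1 hp with h | h
            · exact a1 p h
            · exact a2 p h) (Subset.refl _),
          ← pr_primeFactors_eq (P := D'.1 ∪ D'.2) (S := D'.1 ∪ D'.2) (by
            intro p hp; rcases mem_union.1 hp with h | h
            · exact b1 p h
            · exact b2 p h) (Subset.refl _), ← a5, ← b5, h]
      have m1 := mem_DD.1 hD.1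
      have m2 := mem_DD.1 hD'.1
      have e1 : ∀ E : Finset ℕ × Finset ℕ, E ∈ DD z y l → E.1 = (E.1 ∪ E.2).filter (fun p => p ≤ z) ∧
          E.2 = (E.1 ∪ E.2).filter (fun p => z < p) := by
        intro E hE
        rw [mem_DD] at hE
        constructor
        · ext p
          rw [mem_filter, mem_union]
          constructor
          · intro hp
            exact ⟨Or.inl hp, (mem_Q1.1 (hE.1 hp)).2⟩
          · rintro ⟨hp | hp, h⟩
            · exact hp
            · have := (mem_Q2.1 (hE.2.1 hp)).2.1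
              omega
        · ext p
          rw [mem_filter, mem_union]
          constructor
          · intro hp
            exact ⟨Or.inr hp, (mem_Q2.1 (hE.2.1 hp)).2.1⟩
          · rintro ⟨hp | hp, h⟩
            · have := (mem_Q1.1 (hE.1 hp)).2
              omega
            · exact hp
      apply Prod.ext
      · rw [(e1 D hD.1).1, (e1 D' hD'.1).1, hU]
      · rw [(e1 D hD.1).2, (e1 D' hD'.1).2, hU]
  exact_mod_cast h2

lemma sum_sign (A : Finset ℕ) : ∑ D ∈ A.powerset, (-1 : ℝ) ^ D.card = if A = ∅ then 1 else 0 := by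
  have := Finset.sum_powerset_neg_one_pow_card (x := A)
  have h2 : ((∑ D ∈ A.powerset, (-1 : ℤ) ^ D.card : ℤ) : ℝ) = ((if A = ∅ then 1 else 0 : ℤ) : ℝ) := by
    rw [this]
  push_cast at h2
  exact h2

lemma cM_small {z y l M0 n : ℕ} (hz : 1 ≤ z) (hzy : z ≤ y) (hn : 0 < n) (hM0 : n ≤ M0) (hl : n ≤ z ^ l) :
    cM z y l M0 n = if Rough y n then 1 else 0 := by
  set A1 := Q1 z ∩ n.primeFactors with hA1
  set A2 := Q2 z y ∩ n.primeFactors with hA2
  have hA2c : A2.card ≤ l := by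
    by_contra hcon
    push Not at hcon
    have h1 : (z + 1) ^ A2.card ≤ n := by
      calc (z + 1) ^ A2.card = ∏ p ∈ A2, (z + 1) := by rw [Finset.prod_const]
        _ ≤ ∏ p ∈ A2, p := by
            apply Finset.prod_le_prod'
            intro p hp
            rw [hA2, mem_inter, mem_Q2] at hp
            omega
        _ ≤ n := Nat.le_of_dvd hn ((Finset.prod_dvd_prod_of_subset _ _ _ inter_subset_right).trans
            (Nat.prod_primeFactors_dvd n))
    have h2 : z ^ l < (z + 1) ^ A2.card :=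
      calc z ^ l < (z + 1) ^ (l + 1) := by
            rw [pow_succ]
            have h3 : z ^ l ≤ (z + 1) ^ l := Nat.pow_le_pow_left (by omega) l
            have h4 : 0 < (z + 1) ^ l := by positivity
            nlinarith
        _ ≤ (z + 1) ^ A2.card := Nat.pow_le_pow_right (by omega) (by omega)
    omega
  have hset : (DD z y l).filter (fun D => dd D ∣ n ∧ n ≤ M0 * dd D) = A1.powerset ×ˢ A2.powerset := by
    ext D
    rw [mem_filter, mem_product, mem_powerset, mem_powerset]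
    constructor
    · rintro ⟨h1, h2, _⟩
      rw [dd_dvd_iff h1 hn] at h2
      rw [mem_DD] at h1
      exact ⟨subset_inter h1.1 h2.1, subset_inter h1.2.1 h2.2⟩
    · rintro ⟨h1, h2⟩
      have h3 : D ∈ DD z y l := by
        rw [mem_DD]
        exact ⟨h1.trans inter_subset_left, h2.trans inter_subset_left, (card_le_card h2).trans hA2c⟩
      refine ⟨h3, ?_, ?_⟩
      · rw [dd_dvd_iff h3 hn]
        exact ⟨h1.trans inter_subset_right, h2.trans inter_subset_right⟩
      · exact hM0.trans (Nat.le_mul_of_pos_right _ (dd_struct h3).2.2.2.1)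
  unfold cM
  rw [hset, Finset.sum_product]
  have h1 : ∀ D1 ∈ A1.powerset, ∑ D2 ∈ A2.powerset, sg (D1, D2) =
      (-1 : ℝ) ^ D1.card * ∑ D2 ∈ A2.powerset, (-1 : ℝ) ^ D2.card := by
    intro D1 _
    rw [Finset.mul_sum]
    apply Finset.sum_congr rfl
    intro D2 _
    unfold sg
    rw [pow_add]
  rw [Finset.sum_congr rfl h1, ← Finset.sum_mul, sum_sign, sum_sign]
  have h2 : Rough y n ↔ (A1 = ∅ ∧ A2 = ∅) := by
    constructor
    · intro h
      constructor
      · rw [Finset.eq_empty_iff_forall_notMem]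
        intro p hp
        rw [hA1, mem_inter, mem_Q1, Nat.mem_primeFactors] at hp
        have := h p hp.2.1 hp.2.2.1
        omega
      · rw [Finset.eq_empty_iff_forall_notMem]
        intro p hp
        rw [hA2, mem_inter, mem_Q2, Nat.mem_primeFactors] at hp
        have := h p hp.2.1 hp.2.2.1
        omega
    · rintro ⟨h, h'⟩ p hp hpn
      by_contra hcon
      push Not at hcon
      have hpf : p ∈ n.primeFactors := Nat.mem_primeFactors.2 ⟨hp, hpn, hn.ne'⟩
      by_cases hpz : p ≤ z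
      · have : p ∈ A1 := by rw [hA1, mem_inter, mem_Q1]; exact ⟨⟨hp, hpz⟩, hpf⟩
        rw [h] at this
        exact absurd this (notMem_empty _)
      · have : p ∈ A2 := by rw [hA2, mem_inter, mem_Q2]; exact ⟨⟨hp, by omega, hcon⟩, hpf⟩
        rw [h'] at this
        exact absurd this (notMem_empty _)
  by_cases hA : A1 = ∅ ∧ A2 = ∅
  · rw [if_pos (h2.2 hA), if_pos hA.1, if_pos hA.2, mul_one]
  · rw [if_neg (fun h => hA (h2.1 h))]
    by_cases h3 : A1 = ∅
    · rw [if_neg (fun h4 => hA ⟨h3, h4⟩), mul_zero]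
    · rw [if_neg h3, zero_mul]

variable {q : ℕ} [Fact q.Prime]

/-- residue of a class -/
def vl (g : (ZMod q)ˣ) : ℕ := (g : ZMod q).val

lemma vl_pos (g : (ZMod q)ˣ) : 0 < vl g := val_pos g

lemma vl_lt (g : (ZMod q)ˣ) : vl g < q := by
  have : NeZero q := ⟨(Nat.Prime.pos Fact.out).ne'⟩
  exact ZMod.val_lt _

lemma vl_un {n : ℕ} (h0 : 0 < n) (h : n < q) : vl (un q n) = n := by
  unfold vl
  rw [un_val (cop_of_lt h0 h), ZMod.val_natCast, Nat.mod_eq_of_lt h]

lemma un_vl (g : (ZMod q)ˣ) : un q (vl g) = g := un_val_self g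

/-- the truncated main part of the coefficients of the L-value -/
noncomputable def h0 (M0 : ℕ) (g : (ZMod q)ˣ) : ℝ := if vl g ≤ M0 then 1 / Real.sqrt (vl g) else 0

/-- coefficients of the mollified sum -/
noncomputable def cc (z y l M0 : ℕ) (g : (ZMod q)ˣ) : ℝ :=
  ∑ D ∈ DD z y l, sg D * (1 / Real.sqrt (dd D)) * h0 M0 (g * (un q (dd D))⁻¹)

lemma cc_eq {z y l M0 : ℕ} (hM : ∀ D ∈ DD z y l, M0 * dd D < q) (hM0 : 1 ≤ M0) (g : (ZMod q)ˣ) :
    cc z y l M0 g = 1 / Real.sqrt (vl g) * cM z y l M0 (vl g) := by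
  unfold cc cM
  rw [Finset.sum_filter, Finset.mul_sum]
  apply Finset.sum_congr rfl
  intro D hD
  have hd0 : 0 < dd D := (dd_struct hD).2.2.2.1
  have hdq : dd D < q := lt_of_le_of_lt (Nat.le_mul_of_pos_left _ hM0) (hM D hD)
  have hdc : (dd D).Coprime q := cop_of_lt hd0 hdq
  set m := vl (g * (un q (dd D))⁻¹) with hm
  have hm0 : 0 < m := vl_pos _
  have hmq : m < q := vl_lt _
  have hmc : m.Coprime q := cop_of_lt hm0 hmq
  have h1 : un q (m * dd D) = g := by
    rw [un_mul' hmc hdc, hm, un_vl, inv_mul_cancel_right]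
  have key : m ≤ M0 ↔ (dd D ∣ vl g ∧ vl g ≤ M0 * dd D) := by
    constructor
    · intro h
      have h2 : m * dd D < q := lt_of_le_of_lt (Nat.mul_le_mul_right _ h) (hM D hD)
      have h3 : vl g = m * dd D := by
        rw [← h1, vl_un (Nat.mul_pos hm0 hd0) h2]
      rw [h3]
      exact ⟨dvd_mul_left _ _, Nat.mul_le_mul_right _ h⟩
    · rintro ⟨⟨m', h2⟩, h3⟩
      have hm'0 : 0 < m' := by
        rcases Nat.eq_zero_or_pos m' with h | h
        · subst h
          have := vl_pos g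
          omega
        · exact h
      have hm'q : m' < q := lt_of_le_of_lt (by rw [h2]; exact Nat.le_mul_of_pos_left _ hd0) (vl_lt g)
      have h4 : un q m' = g * (un q (dd D))⁻¹ := by
        rw [eq_mul_inv_iff_mul_eq, ← un_mul' (cop_of_lt hm'0 hm'q) hdc, mul_comm, ← h2, un_vl]
      have h5 : m = m' := by rw [hm, ← h4, vl_un hm'0 hm'q]
      rw [h5]
      rw [h2, mul_comm] at h3
      exact Nat.le_of_mul_le_mul_right h3 hd0
  unfold h0
  rw [← hm]
  by_cases h : m ≤ M0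
  · rw [if_pos h, if_pos (key.1 h)]
    have h2 : m * dd D < q := lt_of_le_of_lt (Nat.mul_le_mul_right _ h) (hM D hD)
    have h3 : vl g = m * dd D := by
      rw [← h1, vl_un (Nat.mul_pos hm0 hd0) h2]
    rw [h3]
    push_cast
    rw [Real.sqrt_mul (by positivity)]
    have e1 : Real.sqrt m ≠ 0 := by
      have : (0 : ℝ) < m := by exact_mod_cast hm0
      exact (Real.sqrt_pos.2 this).ne'
    have e2 : Real.sqrt (dd D) ≠ 0 := by
      have : (0 : ℝ) < dd D := by exact_mod_cast hd0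
      exact (Real.sqrt_pos.2 this).ne'
    field_simp
  · rw [if_neg h, if_neg (fun h' => h (key.2 h'))]
    simp

/-- the rough part -/
noncomputable def cA (y M1 : ℕ) (g : (ZMod q)ˣ) : ℝ :=
  if vl g ≤ M1 ∧ Rough y (vl g) then 1 / Real.sqrt (vl g) else 0

lemma cB_bound {z y l M0 M1 : ℕ} (hM : ∀ D ∈ DD z y l, M0 * dd D < q) (hM0 : 1 ≤ M0) (hz : 1 ≤ z)
    (hzy : z ≤ y) (hM1 : M1 ≤ M0) (hM1l : M1 ≤ z ^ l) (g : (ZMod q)ˣ) :
    (cc z y l M0 g - cA y M1 g) ^ 2 ≤
      if M1 < vl g then (((vl g).divisors.card : ℕ) : ℝ) ^ 2 * (1 / (vl g : ℝ)) else 0 := by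
  have hv0 : (0 : ℝ) < vl g := by exact_mod_cast vl_pos g
  rw [cc_eq hM hM0]
  unfold cA
  by_cases h : M1 < vl g
  · rw [if_pos h, if_neg (by rintro ⟨h', _⟩; omega), sub_zero, mul_pow, div_pow, Real.sq_sqrt hv0.le,
      one_pow, mul_comm]
    apply mul_le_mul_of_nonneg_right _ (by positivity)
    rw [← sq_abs]
    exact pow_le_pow_left₀ (abs_nonneg _) (cM_abs (vl_pos g)) 2
  · rw [if_neg h]
    push Not at h
    rw [cM_small hz hzy (vl_pos g) (h.trans hM1) (h.trans hM1l)]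
    by_cases hR : Rough y (vl g)
    · rw [if_pos hR, if_pos ⟨h, hR⟩]
      simp
    · rw [if_neg hR, if_neg (by rintro ⟨_, h'⟩; exact hR h')]
      simp

end Pool.Agent.V8H32.Cos
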