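import Mathlib
import Pool.Agent.V8H32.Cos.Moll

/-! The size of the mollifier: pointwise bound and mean values. -/

set_option autoImplicit false

namespace Pool.Agent.V8H32.Cos
open Finset Pool.Agent.R311.RES
open scoped Classical

variable {q : ℕ} [Fact q.Prime]

lemma un_pr {S : Finset ℕ} (hS : ∀ p ∈ S, p.Coprime q) : un q (pr S) = ∏ p ∈ S, un q p := by
  induction S using Finset.induction_on with
  | empty => simp [pr, un_one']
  | insert a s ha ih =>
    have h1 : ∀ p ∈ s, p.Coprime q := fun p hp => hS p (mem_insert_of_mem hp)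
    rw [pr_insert ha, Finset.prod_insert ha, ← ih h1]
    apply un_mul' (hS a (mem_insert_self _ _))
    exact Nat.Coprime.prod_left fun p hp => h1 p hp

lemma sqrt_pr (S : Finset ℕ) : Real.sqrt (pr S) = ∏ p ∈ S, Real.sqrt p := by
  induction S using Finset.induction_on with
  | empty => simp [pr]
  | insert a s ha ih =>
    rw [pr_insert ha, Finset.prod_insert ha, ← ih]
    push_cast
    rw [Real.sqrt_mul (by positivity)]

/-- the local term -/
noncomputable def xx (χ : DirichletCharacter ℂ q) (p : ℕ) : ℂ :=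
  -(((1 / Real.sqrt p : ℝ) : ℂ) * χ (un q p : ZMod q))

lemma xx_norm (χ : DirichletCharacter ℂ q) (p : ℕ) : ‖xx χ p‖ = 1 / Real.sqrt p := by
  unfold xx
  rw [norm_neg, norm_mul, χ.unit_norm_eq_one, mul_one, Complex.norm_real,
    Real.norm_of_nonneg (by positivity)]

lemma prod_xx (χ : DirichletCharacter ℂ q) {S : Finset ℕ} (hS : ∀ p ∈ S, p.Coprime q) :
    ∏ p ∈ S, xx χ p = (((-1 : ℝ) ^ S.card * (1 / Real.sqrt (pr S)) : ℝ) : ℂ) *
      χ (un q (pr S) : ZMod q) := by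
  unfold xx
  rw [un_pr hS, sqrt_pr, Units.coe_prod, map_prod]
  rw [show (∏ p ∈ S, -(((1 / Real.sqrt p : ℝ) : ℂ) * χ (un q p : ZMod q))) =
    ∏ p ∈ S, ((-1 : ℂ) * (((1 / Real.sqrt p : ℝ) : ℂ) * χ (un q p : ZMod q))) from
    Finset.prod_congr rfl fun p _ => by ring]
  rw [Finset.prod_mul_distrib, Finset.prod_mul_distrib, Finset.prod_const]
  push_cast
  rw [Finset.prod_div_distrib]
  simp
  ring

/-- the mollifier -/
noncomputable def Mo (z y l : ℕ) (χ : DirichletCharacter ℂ q) : ℂ :=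
  ∑ D ∈ DD z y l, ((sg D * (1 / Real.sqrt (dd D)) : ℝ) : ℂ) * χ (un q (dd D) : ZMod q)

lemma tr_Mo (z y l M0 : ℕ) (χ : DirichletCharacter ℂ q) :
    tr (fun g => (h0 M0 g : ℂ)) χ * Mo z y l χ = tr (fun g => (cc z y l M0 g : ℂ)) χ := by
  unfold Mo
  rw [Finset.mul_sum]
  have h1 : ∀ D ∈ DD z y l, tr (fun g => (h0 M0 g : ℂ)) χ *
      (((sg D * (1 / Real.sqrt (dd D)) : ℝ) : ℂ) * χ (un q (dd D) : ZMod q)) =
      ((sg D * (1 / Real.sqrt (dd D)) : ℝ) : ℂ) *
        tr (fun g => (h0 M0 (g * (un q (dd D))⁻¹) : ℂ)) χ := by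
    intro D _
    rw [← tr_shift (fun g => (h0 M0 g : ℂ)) χ (un q (dd D))]
    ring
  rw [Finset.sum_congr rfl h1, tr_finset_sum]
  congr 1
  funext g
  unfold cc
  push_cast
  rfl

lemma Mo_factor {z y l : ℕ} (hzy : z ≤ y) (hyq : y < q) (χ : DirichletCharacter ℂ q) :
    Mo z y l χ = (∑ D ∈ (Q1 z).powerset, ∏ p ∈ D, xx χ p) *
      ∑ D ∈ (Q2 z y).powerset.filter (fun D => D.card ≤ l), ∏ p ∈ D, xx χ p := by
  unfold Mo
  rw [Finset.sum_mul_sum, ← Finset.sum_product']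
  apply Finset.sum_congr rfl
  intro D hD
  have hD' := mem_DD.1 hD
  have c1 : ∀ p ∈ D.1, p.Coprime q := fun p hp =>
    cop_of_lt (mem_Q1.1 (hD'.1 hp)).1.pos (lt_of_le_of_lt ((mem_Q1.1 (hD'.1 hp)).2.trans hzy) hyq)
  have c2 : ∀ p ∈ D.2, p.Coprime q := fun p hp =>
    cop_of_lt (mem_Q2.1 (hD'.2.1 hp)).1.pos (lt_of_le_of_lt (mem_Q2.1 (hD'.2.1 hp)).2.2 hyq)
  rw [prod_xx χ c1, prod_xx χ c2]
  unfold sg dd
  have c3 : (pr D.1).Coprime q := Nat.Coprime.prod_left fun p hp => c1 p hp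
  have c4 : (pr D.2).Coprime q := Nat.Coprime.prod_left fun p hp => c2 p hp
  rw [un_mul' c3 c4, Units.val_mul, map_mul, pow_add]
  push_cast
  rw [Real.sqrt_mul (by positivity)]
  push_cast
  ring

/-- the sum over the middle primes -/
noncomputable def Dm (z y : ℕ) (χ : DirichletCharacter ℂ q) : ℂ :=
  ∑ p ∈ Q2 z y, ((1 / Real.sqrt p : ℝ) : ℂ) * χ (un q p : ZMod q)

theorem Mo_bound {z y l : ℕ} (hzy : z ≤ y) (hyq : y < q) (χ : DirichletCharacter ℂ q) :
    ‖Mo z y l χ‖ ≤ 2 ^ z * Real.exp (∑ p ∈ Q2 z y, 1 / (p : ℝ)) *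
      ∑ i ∈ range (l + 1), ‖Dm z y χ‖ ^ i / (i.factorial : ℝ) := by
  rw [Mo_factor hzy hyq, norm_mul, mul_assoc]
  have h1 : ‖∑ D ∈ (Q1 z).powerset, ∏ p ∈ D, xx χ p‖ ≤ 2 ^ z := by
    rw [← Finset.prod_one_add, norm_prod]
    calc ∏ p ∈ Q1 z, ‖1 + xx χ p‖ ≤ ∏ p ∈ Q1 z, (2 : ℝ) := by
          apply Finset.prod_le_prod
          · intro p _; exact norm_nonneg _
          · intro p hp
            have hp1 : (1 : ℝ) ≤ p := by exact_mod_cast (mem_Q1.1 hp).1.one_lt.le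
            have h2 : ‖xx χ p‖ ≤ 1 := by
              rw [xx_norm, div_le_one (Real.sqrt_pos.2 (by linarith))]
              rw [Real.one_le_sqrt]; exact hp1
            calc ‖1 + xx χ p‖ ≤ ‖(1 : ℂ)‖ + ‖xx χ p‖ := norm_add_le _ _
              _ ≤ 2 := by rw [norm_one]; linarith
      _ = 2 ^ (Q1 z).card := by rw [Finset.prod_const]
      _ ≤ 2 ^ z := by
          apply pow_le_pow_right₀ (by norm_num)
          unfold Q1
          refine (card_filter_le _ _).trans ?_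
          simp
  have hx1 : ∀ p ∈ Q2 z y, ‖xx χ p‖ ≤ 1 := by
    intro p hp
    have hp1 : (1 : ℝ) ≤ p := by exact_mod_cast (mem_Q2.1 hp).1.one_lt.le
    rw [xx_norm, div_le_one (Real.sqrt_pos.2 (by linarith))]
    rw [Real.one_le_sqrt]; exact hp1
  have h3 := esymm_bound (Q2 z y) (fun p => xx χ p) hx1 l
  have h4 : ∑ p ∈ Q2 z y, ‖xx χ p‖ ^ 2 = ∑ p ∈ Q2 z y, 1 / (p : ℝ) := by
    apply Finset.sum_congr rfl
    intro p _
    rw [xx_norm, div_pow, one_pow, Real.sq_sqrt (by positivity)]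
  have h5 : ‖∑ p ∈ Q2 z y, xx χ p‖ = ‖Dm z y χ‖ := by
    unfold Dm xx
    rw [Finset.sum_neg_distrib, norm_neg]
  rw [h4, h5] at h3
  exact mul_le_mul h1 h3 (norm_nonneg _) (by positivity)

/-- the resonators -/
noncomputable def Rs (P : Finset ℕ) (s : ℕ) (χ : DirichletCharacter ℂ q) : ℂ :=
  ∑ S ∈ P.powersetCard s, ((1 / Real.sqrt (pr S) : ℝ) : ℂ) * χ (un q (pr S) : ZMod q)

lemma len_prod {ι : Type*} (s : Finset ι) (f : ι → ℕ) (hf : ∀ i ∈ s, (f i).Prime) :
    (Nat.primeFactorsList (∏ i ∈ s, f i)).length = s.card := by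
  induction s using Finset.induction_on with
  | empty => simp
  | insert a s ha ih =>
    have h1 : (f a).Prime := hf a (mem_insert_self _ _)
    have h2 : ∀ i ∈ s, (f i).Prime := fun i hi => hf i (mem_insert_of_mem hi)
    rw [Finset.prod_insert ha, card_insert_of_notMem ha,
      (Nat.perm_primeFactorsList_mul h1.ne_zero (Finset.prod_ne_zero_iff.2 fun i hi =>
        (h2 i hi).ne_zero)).length_eq, List.length_append, ih h2,
      Nat.primeFactorsList_prime h1, List.length_singleton, add_comm]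

/-- mean values of powers of the sum over the middle primes, weighted with the resonator -/
theorem moment_Dm (z y a s : ℕ) (P : Finset ℕ) (hP : ∀ p ∈ P, p.Prime ∧ y < p) (Y : ℕ)
    (hY : ∀ p ∈ P, p ≤ Y) (hsz : y ^ a * Y ^ s < q) :
    ∑ χ : DirichletCharacter ℂ q, ‖Dm z y χ‖ ^ (2 * a) * ‖Rs P s χ‖ ^ 2 ≤
      (q - 1) * ((a : ℝ) ^ a * ((∑ p ∈ Q2 z y, 1 / (p : ℝ)) ^ a * ES P s)) := by
  set J : Finset ((Fin a → ℕ) × Finset ℕ) :=
    Fintype.piFinset (fun _ : Fin a => Q2 z y) ×ˢ P.powersetCard s with hJ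
  set w : (Fin a → ℕ) × Finset ℕ → ℝ := fun j =>
    (∏ i, (1 / Real.sqrt (j.1 i))) * (1 / Real.sqrt (pr j.2)) with hw
  set nn : (Fin a → ℕ) × Finset ℕ → ℕ := fun j => (∏ i, j.1 i) * pr j.2 with hnn
  have hq1 : (0 : ℝ) ≤ q - 1 := by
    have : (1 : ℝ) ≤ q := by exact_mod_cast (Nat.Prime.one_lt (Fact.out : q.Prime)).le
    linarith
  have hJm : ∀ j ∈ J, (∀ i, (j.1 i).Prime ∧ z < j.1 i ∧ j.1 i ≤ y) ∧ j.2 ⊆ P ∧ j.2.card = s := by
    intro j hj
    rw [hJ, mem_product, Fintype.mem_piFinset, mem_powersetCard] at hj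
    exact ⟨fun i => mem_Q2.1 (hj.1 i), hj.2⟩
  have hnn0 : ∀ j ∈ J, 0 < ∏ i, j.1 i ∧ 0 < pr j.2 ∧ nn j < q := by
    intro j hj
    obtain ⟨h1, h2, h3⟩ := hJm j hj
    refine ⟨Finset.prod_pos fun i _ => (h1 i).1.pos, pr_pos fun p hp => (hP p (h2 hp)).1.pos, ?_⟩
    refine lt_of_le_of_lt (Nat.mul_le_mul ?_ ?_) hsz
    · calc ∏ i, j.1 i ≤ ∏ _i : Fin a, y := Finset.prod_le_prod' fun i _ => (h1 i).2.2
        _ = y ^ a := by simp
    · calc pr j.2 ≤ ∏ _p ∈ j.2, Y := Finset.prod_le_prod' fun p hp => hY p (h2 hp)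
        _ = Y ^ s := by rw [Finset.prod_const, h3]
  have hcop : ∀ j ∈ J, (∏ i, j.1 i).Coprime q ∧ (pr j.2).Coprime q := by
    intro j hj
    obtain ⟨a1, a2, a3⟩ := hnn0 j hj
    exact ⟨cop_of_lt a1 (lt_of_le_of_lt (Nat.le_mul_of_pos_right _ a2) a3),
      cop_of_lt a2 (lt_of_le_of_lt (Nat.le_mul_of_pos_left _ a1) a3)⟩
  have hfc : ∀ j ∈ J, ∀ i, (j.1 i).Coprime q := by
    intro j hj i
    exact Nat.Coprime.coprime_dvd_left (Finset.dvd_prod_of_mem _ (mem_univ i)) (hcop j hj).1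
  -- the transform
  set ρ : (ZMod q)ˣ → ℂ := fun k => ∑ j ∈ J.filter (fun j => un q (nn j) = k), (w j : ℂ) with hρ
  have h1 : ∀ χ : DirichletCharacter ℂ q, Dm z y χ ^ a * Rs P s χ = tr ρ χ := by
    intro χ
    have e1 : Dm z y χ ^ a = ∏ _i : Fin a, Dm z y χ := by simp
    rw [e1]
    unfold Dm Rs
    rw [Finset.prod_univ_sum, Finset.sum_mul_sum, ← Finset.sum_product']
    unfold tr
    rw [← Finset.sum_fiberwise _ (fun j => un q (nn j))]
    apply Finset.sum_congr rfl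
    intro k _
    rw [hρ, Finset.sum_mul]
    apply Finset.sum_congr rfl
    intro j hj
    rw [mem_filter] at hj
    rw [← hj.2, hnn]
    simp only
    rw [un_mul' (hcop j hj.1).1 (hcop j hj.1).2, ← un_prod _ (hfc j hj.1), Units.val_mul, map_mul,
      Units.coe_prod, map_prod, hw]
    simp only
    push_cast
    rw [Finset.prod_mul_distrib]
    ring
  have h2 : ∀ χ : DirichletCharacter ℂ q, ‖Dm z y χ‖ ^ (2 * a) * ‖Rs P s χ‖ ^ 2 = ‖tr ρ χ‖ ^ 2 := by
    intro χ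
    rw [← h1 χ, norm_mul, norm_pow, mul_pow, ← pow_mul, mul_comm a 2]
  rw [Finset.sum_congr rfl (fun χ _ => h2 χ), parseval]
  apply mul_le_mul_of_nonneg_left _ hq1
  -- the size of the fibres
  have hfib : ∀ k : (ZMod q)ˣ, (J.filter (fun j => un q (nn j) = k)).card ≤ a ^ a := by
    intro k
    rcases Finset.eq_empty_or_nonempty (J.filter (fun j => un q (nn j) = k)) with he | ⟨j0, hj0⟩
    · rw [he, card_empty]; exact Nat.zero_le _
    rw [mem_filter] at hj0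
    have hlen := len_prod (univ : Finset (Fin a)) j0.1 (fun i _ => ((hJm j0 hj0.1).1 i).1)
    rw [card_univ, Fintype.card_fin] at hlen
    have hF := card_FMA a (∏ i, j0.1 i) (hnn0 j0 hj0.1).1.ne'
    rw [hlen] at hF
    refine le_trans ?_ hF
    have hkey : ∀ j ∈ J.filter (fun j => un q (nn j) = k), j.2 = j0.2 ∧ ∏ i, j.1 i = ∏ i, j0.1 i := by
      intro j hj
      rw [mem_filter] at hj
      have e1 : nn j = nn j0 := by
        apply un_inj (hnn0 j hj.1).2.2 (hnn0 j0 hj0.1).2.2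
        · exact (hcop j hj.1).1.mul_left (hcop j hj.1).2
        · exact (hcop j0 hj0.1).1.mul_left (hcop j0 hj0.1).2
        · rw [hj.2, hj0.2]
      have hsub : ∀ j j' : (Fin a → ℕ) × Finset ℕ, j ∈ J → j' ∈ J → nn j = nn j' → j.2 ⊆ j'.2 := by
        intro j j' hj hj' he p hp
        have hpP := (hJm j hj).2.1 hp
        have hpp := (hP p hpP).1
        have hd : p ∣ nn j' := by
          rw [← he]
          exact (Finset.dvd_prod_of_mem _ hp).mul_left _
        rcases hpp.dvd_mul.1 hd with h | h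
        · exfalso
          obtain ⟨i, _, hi⟩ := (Prime.dvd_finsetProd_iff hpp.prime _).1 h
          have := (Nat.prime_dvd_prime_iff_eq hpp ((hJm j' hj').1 i).1).1 hi
          have h3 := ((hJm j' hj').1 i).2.2
          have h4 := (hP p hpP).2
          omega
        · exact mem_of_dvd_pr (fun p hp => (hP p hp).1) (hJm j' hj').2.1 hpp h
      have e2 : j.2 = j0.2 := Subset.antisymm (hsub j j0 hj.1 hj0.1 e1) (hsub j0 j hj0.1 hj.1 e1.symm)
      refine ⟨e2, ?_⟩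
      rw [hnn] at e1
      simp only at e1
      rw [e2] at e1
      exact Nat.eq_of_mul_eq_mul_right (hnn0 j0 hj0.1).2.1 e1
    apply Finset.card_le_card_of_injOn (fun j => j.1)
    · intro j hj
      rw [mem_coe, Nat.mem_finMulAntidiag]
      exact ⟨(hkey j hj).2, (hnn0 j0 hj0.1).1.ne'⟩
    · intro j hj j' hj' h
      exact Prod.ext h ((hkey j hj).1.trans (hkey j' hj').1.symm)
  have h3 : ∀ k : (ZMod q)ˣ, ‖ρ k‖ ^ 2 ≤ (a : ℝ) ^ a * ∑ j ∈ J.filter (fun j => un q (nn j) = k), w j ^ 2 := by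
    intro k
    have hw0 : ∀ j, 0 ≤ w j := by
      intro j
      rw [hw]
      exact mul_nonneg (Finset.prod_nonneg fun i _ => by positivity) (by positivity)
    have e1 : ‖ρ k‖ ≤ ∑ j ∈ J.filter (fun j => un q (nn j) = k), w j := by
      rw [hρ]
      refine (norm_sum_le _ _).trans (Finset.sum_le_sum fun j _ => ?_)
      rw [Complex.norm_real, Real.norm_of_nonneg (hw0 j)]
    have e2 : (∑ j ∈ J.filter (fun j => un q (nn j) = k), w j) ^ 2 ≤
        ((J.filter (fun j => un q (nn j) = k)).card : ℝ) *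
          ∑ j ∈ J.filter (fun j => un q (nn j) = k), w j ^ 2 := sq_sum_le_card_mul_sum_sq
    have e3 : ((J.filter (fun j => un q (nn j) = k)).card : ℝ) ≤ (a : ℝ) ^ a := by
      exact_mod_cast hfib k
    calc ‖ρ k‖ ^ 2 ≤ (∑ j ∈ J.filter (fun j => un q (nn j) = k), w j) ^ 2 :=
          pow_le_pow_left₀ (norm_nonneg _) e1 2
      _ ≤ _ := e2
      _ ≤ _ := mul_le_mul_of_nonneg_right e3 (Finset.sum_nonneg fun j _ => sq_nonneg _)
  refine (Finset.sum_le_sum fun k _ => h3 k).trans ?_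
  rw [← Finset.mul_sum]
  apply mul_le_mul_of_nonneg_left _ (by positivity)
  rw [Finset.sum_fiberwise J (fun j => un q (nn j)) (fun j => w j ^ 2), hJ, Finset.sum_product]
  have h4 : ∀ f ∈ Fintype.piFinset (fun _ : Fin a => Q2 z y), ∑ S ∈ P.powersetCard s, w (f, S) ^ 2 =
      (∏ i, 1 / (f i : ℝ)) * ES P s := by
    intro f _
    unfold ES
    rw [Finset.mul_sum]
    apply Finset.sum_congr rfl
    intro S _
    rw [hw]
    simp only
    rw [mul_pow, ← Finset.prod_pow]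
    congr 1
    · apply Finset.prod_congr rfl
      intro i _
      rw [div_pow, one_pow, Real.sq_sqrt (by positivity)]
    · rw [div_pow, one_pow, Real.sq_sqrt (by positivity)]
  rw [Finset.sum_congr rfl h4, ← Finset.sum_mul]
  apply mul_le_mul_of_nonneg_right _ (ES_nonneg _ _)
  apply le_of_eq
  have e5 : (∑ p ∈ Q2 z y, 1 / (p : ℝ)) ^ a = ∏ _i : Fin a, ∑ p ∈ Q2 z y, 1 / (p : ℝ) := by simp
  rw [e5, Finset.prod_univ_sum]

end Pool.Agent.V8H32.Cos
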