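import Mathlib
import Pool.Agent.V8H32.Cos.Cls

/-! High moments of sums over rough fractions in a subgroup. -/

set_option autoImplicit false

namespace Pool.Agent.V8H32.Cos
open Finset Pool.Agent.R311.RES
open scoped Classical

variable {q : ℕ} [Fact q.Prime]

/-- products of fractions -/
lemma cls_prod {m : ℕ} (a b : Fin m → ℕ) (ha : ∀ i, (a i).Coprime q) (hb : ∀ i, (b i).Coprime q) :
    ∏ i, cls q (a i) (b i) = cls q (∏ i, a i) (∏ i, b i) := by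
  have hun : ∀ f : Fin m → ℕ, (∀ i, (f i).Coprime q) → ∏ i, un q (f i) = un q (∏ i, f i) := by
    intro f hf
    apply Units.ext
    rw [un_val (Nat.Coprime.prod_left fun i _ => hf i), Units.coe_prod, Nat.cast_prod]
    exact Finset.prod_congr rfl fun i _ => un_val (hf i)
  unfold cls
  rw [Finset.prod_mul_distrib, Finset.prod_inv_distrib, hun a ha, hun b hb]

/-- the counting lemma for a coloured family -/
lemma color_count (Ψ : Finset (ℕ × ℕ)) (y B1 B2 m Ω : ℕ) (T : Finset ℕ)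
    (hΨ : ∀ z ∈ Ψ, 0 < z.1 ∧ 0 < z.2 ∧ z.1 ≤ B1 ∧ z.2 ≤ B2 ∧ Rough y z.1 ∧ Rough y z.2 ∧
      z.1.primeFactors ⊆ T ∧ Disjoint z.2.primeFactors T)
    (hB : (B1 * B2) ^ m < q) (hm : 1 ≤ m) (hΩ : ∀ n : ℕ, 0 < n → n < q → Rough y n →
      (Nat.primeFactorsList n).length ≤ Ω) (k : (ZMod q)ˣ) :
    ((Fintype.piFinset (fun _ : Fin m => Ψ)).filter
      (fun f => ∏ i, cls q (f i).1 (f i).2 = k)).card ≤ m ^ Ω := by
  rcases Finset.eq_empty_or_nonempty ((Fintype.piFinset (fun _ : Fin m => Ψ)).filter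
      (fun f => ∏ i, cls q (f i).1 (f i).2 = k)) with he | ⟨f0, hf0⟩
  · rw [he, card_empty]; exact Nat.zero_le _
  rw [mem_filter, Fintype.mem_piFinset] at hf0
  have hq1 : 1 < q := Nat.Prime.one_lt Fact.out
  -- sizes
  have hsz : ∀ f : Fin m → ℕ × ℕ, (∀ i, f i ∈ Ψ) → 0 < ∏ i, (f i).1 ∧ 0 < ∏ i, (f i).2 ∧
      ∏ i, (f i).1 ≤ B1 ^ m ∧ ∏ i, (f i).2 ≤ B2 ^ m := by
    intro f hf
    refine ⟨Finset.prod_pos fun i _ => (hΨ _ (hf i)).1, Finset.prod_pos fun i _ => (hΨ _ (hf i)).2.1,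
      ?_, ?_⟩
    · calc ∏ i, (f i).1 ≤ ∏ _i : Fin m, B1 := Finset.prod_le_prod' fun i _ => (hΨ _ (hf i)).2.2.1
        _ = B1 ^ m := by simp
    · calc ∏ i, (f i).2 ≤ ∏ _i : Fin m, B2 := Finset.prod_le_prod' fun i _ => (hΨ _ (hf i)).2.2.2.1
        _ = B2 ^ m := by simp
  have hB0 : 0 < B1 ∧ 0 < B2 := by
    have := hΨ _ (hf0.1 ⟨0, hm⟩)
    omega
  have hBB : B1 ^ m * B2 ^ m < q := by rwa [← mul_pow]
  have hB1q : B1 ^ m < q := lt_of_le_of_lt (Nat.le_mul_of_pos_right _ (pow_pos hB0.2 m)) hBB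
  have hB2q : B2 ^ m < q := lt_of_le_of_lt (Nat.le_mul_of_pos_left _ (pow_pos hB0.1 m)) hBB
  have hcop : ∀ z ∈ Ψ, z.1.Coprime q ∧ z.2.Coprime q := by
    intro z hz
    have h1 := hΨ z hz
    exact ⟨cop_of_lt h1.1 (lt_of_le_of_lt (h1.2.2.1.trans (Nat.le_self_pow (by omega) B1)) hB1q),
      cop_of_lt h1.2.1 (lt_of_le_of_lt (h1.2.2.2.1.trans (Nat.le_self_pow (by omega) B2)) hB2q)⟩
  -- coprimality of numerators and denominators
  have hco : ∀ f f' : Fin m → ℕ × ℕ, (∀ i, f i ∈ Ψ) → (∀ i, f' i ∈ Ψ) →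
      Nat.Coprime (∏ i, (f i).1) (∏ i, (f' i).2) := by
    intro f f' hf hf'
    apply Nat.Coprime.prod_left
    intro i _
    apply Nat.Coprime.prod_right
    intro j _
    rw [← Nat.disjoint_primeFactors (hΨ _ (hf i)).1.ne' (hΨ _ (hf' j)).2.1.ne']
    exact ((hΨ _ (hf' j)).2.2.2.2.2.2.2.mono_right (hΨ _ (hf i)).2.2.2.2.2.2.1).symm
  set P0 := ∏ i, (f0 i).1 with hP0
  set Q0 := ∏ i, (f0 i).2 with hQ0
  have hkey : ∀ f : Fin m → ℕ × ℕ, (∀ i, f i ∈ Ψ) → ∏ i, cls q (f i).1 (f i).2 = k →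
      ∏ i, (f i).1 = P0 ∧ ∏ i, (f i).2 = Q0 := by
    intro f hf hfk
    have h1 : cls q (∏ i, (f i).1) (∏ i, (f i).2) = cls q P0 Q0 := by
      rw [← cls_prod _ _ (fun i => (hcop _ (hf i)).1) (fun i => (hcop _ (hf i)).2), hfk,
        ← cls_prod _ _ (fun i => (hcop _ (hf0.1 i)).1) (fun i => (hcop _ (hf0.1 i)).2), hf0.2]
    obtain ⟨a1, a2, a3, a4⟩ := hsz f hf
    obtain ⟨b1, b2, b3, b4⟩ := hsz f0 hf0.1
    have ca := cop_of_lt (q := q) a1 (a3.trans_lt hB1q)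
    have ca' := cop_of_lt (q := q) a2 (a4.trans_lt hB2q)
    have cb := cop_of_lt (q := q) b1 (b3.trans_lt hB1q)
    have cb' := cop_of_lt (q := q) b2 (b4.trans_lt hB2q)
    unfold cls at h1
    rw [mul_inv_eq_iff_eq_mul, mul_assoc, mul_comm (un q (∏ i, (f0 i).2))⁻¹, ← mul_assoc,
      eq_mul_inv_iff_mul_eq, ← un_mul' ca cb', ← un_mul' cb ca'] at h1
    have h2 : (∏ i, (f i).1) * Q0 = P0 * ∏ i, (f i).2 :=
      un_inj ((Nat.mul_le_mul a3 b4).trans_lt hBB) ((Nat.mul_le_mul b3 a4).trans_lt hBB)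
        (ca.mul_left cb') (cb.mul_left ca') h1
    have c1 : Nat.Coprime (∏ i, (f i).1) (∏ i, (f i).2) := hco f f hf hf
    have c2 : Nat.Coprime P0 Q0 := hco f0 f0 hf0.1 hf0.1
    have d1 : (∏ i, (f i).1) ∣ P0 := (c1.dvd_mul_right).1 ⟨Q0, h2.symm⟩
    have d2 : P0 ∣ ∏ i, (f i).1 := (c2.dvd_mul_right).1 ⟨∏ i, (f i).2, h2⟩
    have e1 : ∏ i, (f i).1 = P0 := Nat.dvd_antisymm d1 d2
    refine ⟨e1, ?_⟩
    rw [e1] at h2
    exact (Nat.eq_of_mul_eq_mul_left b1 h2).symm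
  obtain ⟨b1, b2, b3, b4⟩ := hsz f0 hf0.1
  have hcard : ((Fintype.piFinset (fun _ : Fin m => Ψ)).filter
      (fun f => ∏ i, cls q (f i).1 (f i).2 = k)).card ≤
      (Nat.finMulAntidiag m P0 ×ˢ Nat.finMulAntidiag m Q0).card := by
    apply Finset.card_le_card_of_injOn (fun f => ((fun i => (f i).1), (fun i => (f i).2)))
    · intro f hf
      rw [mem_coe, mem_filter, Fintype.mem_piFinset] at hf
      obtain ⟨h1, h2⟩ := hkey f hf.1 hf.2
      rw [mem_coe, mem_product, Nat.mem_finMulAntidiag, Nat.mem_finMulAntidiag]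
      exact ⟨⟨h1, b1.ne'⟩, ⟨h2, b2.ne'⟩⟩
    · intro f _ f' _ h
      rw [Prod.mk.injEq] at h
      funext i
      exact Prod.ext (congrFun h.1 i) (congrFun h.2 i)
  refine hcard.trans ?_
  rw [card_product]
  have hR : Rough y (P0 * Q0) := by
    apply Rough.mul
    · exact rough_prod _ _ _ fun i _ => (hΨ _ (hf0.1 i)).2.2.2.2.1
    · exact rough_prod _ _ _ fun i _ => (hΨ _ (hf0.1 i)).2.2.2.2.2.1
  have hlen := hΩ (P0 * Q0) (Nat.mul_pos b1 b2) ((Nat.mul_le_mul b3 b4).trans_lt hBB) hR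
  rw [(Nat.perm_primeFactorsList_mul b1.ne' b2.ne').length_eq, List.length_append] at hlen
  calc (Nat.finMulAntidiag m P0).card * (Nat.finMulAntidiag m Q0).card
      ≤ m ^ (Nat.primeFactorsList P0).length * m ^ (Nat.primeFactorsList Q0).length :=
        Nat.mul_le_mul (card_FMA m P0 b1.ne') (card_FMA m Q0 b2.ne')
    _ = m ^ ((Nat.primeFactorsList P0).length + (Nat.primeFactorsList Q0).length) := (pow_add _ _ _).symm
    _ ≤ m ^ Ω := Nat.pow_le_pow_right hm hlen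

/-- the moment of a coloured family -/
lemma color_moment (K : Subgroup (ZMod q)ˣ) (Ψ : Finset (ℕ × ℕ)) (y B1 B2 m Ω : ℕ) (T : Finset ℕ)
    (hΨ : ∀ z ∈ Ψ, 0 < z.1 ∧ 0 < z.2 ∧ z.1 ≤ B1 ∧ z.2 ≤ B2 ∧ Rough y z.1 ∧ Rough y z.2 ∧
      z.1.primeFactors ⊆ T ∧ Disjoint z.2.primeFactors T)
    (hK : ∀ z ∈ Ψ, cls q z.1 z.2 ∈ K)
    (hB : (B1 * B2) ^ m < q) (hm : 1 ≤ m) (hΩ : ∀ n : ℕ, 0 < n → n < q → Rough y n →
      (Nat.primeFactorsList n).length ≤ Ω) (h : ℕ × ℕ → ℝ) (W : ℝ)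
    (hW : 0 ≤ W) (hh : ∀ z ∈ Ψ, 0 ≤ h z ∧ h z ≤ W) :
    ∑ χ : DirichletCharacter ℂ q, ‖∑ z ∈ Ψ, (h z : ℂ) * χ (cls q z.1 z.2 : ZMod q)‖ ^ (2 * m) ≤
      (q - 1) * ((Fintype.card K : ℝ) * (W ^ m * (m : ℝ) ^ Ω) ^ 2) := by
  set ρ : (ZMod q)ˣ → ℂ := fun k => ∑ f ∈ (Fintype.piFinset (fun _ : Fin m => Ψ)).filter
      (fun f => ∏ i, cls q (f i).1 (f i).2 = k), ∏ i, (h (f i) : ℂ) with hρ
  have h1 : ∀ χ : DirichletCharacter ℂ q,
      (∑ z ∈ Ψ, (h z : ℂ) * χ (cls q z.1 z.2 : ZMod q)) ^ m = tr ρ χ := by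
    intro χ
    have e1 : (∑ z ∈ Ψ, (h z : ℂ) * χ (cls q z.1 z.2 : ZMod q)) ^ m =
        ∏ _i : Fin m, ∑ z ∈ Ψ, (h z : ℂ) * χ (cls q z.1 z.2 : ZMod q) := by simp
    rw [e1, Finset.prod_univ_sum]
    unfold tr
    rw [← Finset.sum_fiberwise (Fintype.piFinset (fun _ : Fin m => Ψ))
      (fun f => ∏ i, cls q (f i).1 (f i).2)]
    apply Finset.sum_congr rfl
    intro k _
    rw [hρ, Finset.sum_mul]
    apply Finset.sum_congr rfl
    intro f hf
    rw [mem_filter] at hf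
    rw [Finset.prod_mul_distrib, ← map_prod, ← Units.coe_prod, hf.2]
  have h2 : ∀ χ : DirichletCharacter ℂ q,
      ‖∑ z ∈ Ψ, (h z : ℂ) * χ (cls q z.1 z.2 : ZMod q)‖ ^ (2 * m) = ‖tr ρ χ‖ ^ 2 := by
    intro χ
    rw [← h1 χ, norm_pow, ← pow_mul, mul_comm]
  rw [Finset.sum_congr rfl (fun χ _ => h2 χ), parseval]
  have hq1 : (0 : ℝ) ≤ q - 1 := by
    have : (1 : ℝ) ≤ q := by exact_mod_cast (Nat.Prime.one_lt (Fact.out : q.Prime)).le
    linarith
  apply mul_le_mul_of_nonneg_left _ hq1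
  have h3 : ∀ k : (ZMod q)ˣ, ‖ρ k‖ ^ 2 ≤ if k ∈ K then (W ^ m * (m : ℝ) ^ Ω) ^ 2 else 0 := by
    intro k
    split_ifs with hk
    · apply pow_le_pow_left₀ (norm_nonneg _)
      refine (norm_sum_le _ _).trans ?_
      have h4 : ∀ f ∈ (Fintype.piFinset (fun _ : Fin m => Ψ)).filter
          (fun f => ∏ i, cls q (f i).1 (f i).2 = k), ‖∏ i, (h (f i) : ℂ)‖ ≤ W ^ m := by
        intro f hf
        rw [mem_filter, Fintype.mem_piFinset] at hf
        rw [norm_prod]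
        calc ∏ i, ‖((h (f i) : ℝ) : ℂ)‖ ≤ ∏ _i : Fin m, W := by
              apply Finset.prod_le_prod
              · intro i _; exact norm_nonneg _
              · intro i _
                rw [Complex.norm_real, Real.norm_of_nonneg (hh _ (hf.1 i)).1]
                exact (hh _ (hf.1 i)).2
          _ = W ^ m := by simp
      refine (Finset.sum_le_sum h4).trans ?_
      rw [Finset.sum_const, nsmul_eq_mul]
      have h5 := color_count Ψ y B1 B2 m Ω T hΨ hB hm hΩ k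
      have h5' : (((Fintype.piFinset (fun _ : Fin m => Ψ)).filter
          (fun f => ∏ i, cls q (f i).1 (f i).2 = k)).card : ℝ) ≤ (m : ℝ) ^ Ω := by exact_mod_cast h5
      calc _ ≤ (m : ℝ) ^ Ω * W ^ m := mul_le_mul_of_nonneg_right h5' (by positivity)
        _ = _ := mul_comm _ _
    · have h6 : ρ k = 0 := by
        rw [hρ]
        apply Finset.sum_eq_zero
        intro f hf
        exfalso
        rw [mem_filter, Fintype.mem_piFinset] at hf
        apply hk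
        rw [← hf.2]
        exact Subgroup.prod_mem K fun i _ => hK _ (hf.1 i)
      rw [h6]; simp
  refine (Finset.sum_le_sum fun k _ => h3 k).trans (le_of_eq ?_)
  rw [← Finset.sum_filter, Finset.sum_const, nsmul_eq_mul]
  congr 2
  rw [Fintype.card_subtype]

/-- the number of colourings -/
lemma card_col (V A B : Finset ℕ) (hA : A ⊆ V) (hB : B ⊆ V) (hAB : Disjoint A B) :
    ((V.powerset.filter (fun T => A ⊆ T ∧ Disjoint B T)).card : ℝ) * 2 ^ (A.card + B.card) =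
      2 ^ V.card := by
  have h1 : V.powerset.filter (fun T => A ⊆ T ∧ Disjoint B T) = Finset.Icc A (V \ B) := by
    ext T
    rw [mem_filter, mem_powerset, Finset.mem_Icc]
    constructor
    · rintro ⟨h1, h2, h3⟩
      refine ⟨h2, ?_⟩
      rw [subset_sdiff]
      exact ⟨h1, h3.symm⟩
    · rintro ⟨h1, h2⟩
      rw [subset_sdiff] at h2
      exact ⟨h2.1, h1, h2.2.symm⟩
  have h2 : A ⊆ V \ B := by
    rw [subset_sdiff]; exact ⟨hA, hAB⟩
  rw [h1, Finset.card_Icc_finset h2, card_sdiff_of_subset hB]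
  have h3 : A.card ≤ V.card - B.card := by
    rw [← card_sdiff_of_subset hB]; exact card_le_card h2
  have h4 : B.card ≤ V.card := card_le_card hB
  push_cast
  rw [← pow_add]
  congr 1
  omega

/-- the moment of the whole family, by averaging over the colourings -/
theorem box_moment (K : Subgroup (ZMod q)ˣ) (Ψ : Finset (ℕ × ℕ)) (y B1 B2 m Ω : ℕ)
    (hΨ : ∀ z ∈ Ψ, 0 < z.1 ∧ 0 < z.2 ∧ z.1 ≤ B1 ∧ z.2 ≤ B2 ∧ Rough y z.1 ∧ Rough y z.2 ∧
      Nat.Coprime z.1 z.2)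
    (hK : ∀ z ∈ Ψ, cls q z.1 z.2 ∈ K)
    (hB : (B1 * B2) ^ m < q) (hm : 1 ≤ m) (hΩ : ∀ n : ℕ, 0 < n → n < q → Rough y n →
      (Nat.primeFactorsList n).length ≤ Ω) (g : ℕ × ℕ → ℝ) (W : ℝ)
    (hW : 0 ≤ W) (hg : ∀ z ∈ Ψ, 0 ≤ g z ∧
      2 ^ (z.1.primeFactors.card + z.2.primeFactors.card) * g z ≤ W) :
    ∑ χ : DirichletCharacter ℂ q, ‖∑ z ∈ Ψ, (g z : ℂ) * χ (cls q z.1 z.2 : ZMod q)‖ ^ (2 * m) ≤
      (q - 1) * ((Fintype.card K : ℝ) * (W ^ m * (m : ℝ) ^ Ω) ^ 2) := by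
  set V : Finset ℕ := Ψ.biUnion (fun z => z.1.primeFactors ∪ z.2.primeFactors) with hV
  set c : ℝ := 1 / 2 ^ V.card with hc
  have hc0 : 0 < c := by rw [hc]; positivity
  set h : ℕ × ℕ → ℝ := fun z => 2 ^ (z.1.primeFactors.card + z.2.primeFactors.card) * g z with hh
  set ΨT : Finset ℕ → Finset (ℕ × ℕ) := fun T => Ψ.filter
    (fun z => z.1.primeFactors ⊆ T ∧ Disjoint z.2.primeFactors T) with hΨT
  have havg : ∀ χ : DirichletCharacter ℂ q, ∑ z ∈ Ψ, (g z : ℂ) * χ (cls q z.1 z.2 : ZMod q) =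
      ∑ T ∈ V.powerset, (c : ℂ) * ∑ z ∈ ΨT T, (h z : ℂ) * χ (cls q z.1 z.2 : ZMod q) := by
    intro χ
    have e1 : ∀ T ∈ V.powerset, (c : ℂ) * ∑ z ∈ ΨT T, (h z : ℂ) * χ (cls q z.1 z.2 : ZMod q) =
        ∑ z ∈ Ψ, if z.1.primeFactors ⊆ T ∧ Disjoint z.2.primeFactors T then
          (c : ℂ) * ((h z : ℂ) * χ (cls q z.1 z.2 : ZMod q)) else 0 := by
      intro T _
      rw [Finset.mul_sum, Finset.sum_filter]
    rw [Finset.sum_congr rfl e1, Finset.sum_comm]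
    apply Finset.sum_congr rfl
    intro z hz
    rw [← Finset.sum_filter, Finset.sum_const, nsmul_eq_mul]
    have e2 := card_col V z.1.primeFactors z.2.primeFactors
      (subset_union_left.trans (Finset.subset_biUnion_of_mem
        (fun z : ℕ × ℕ => z.1.primeFactors ∪ z.2.primeFactors) hz))
      (subset_union_right.trans (Finset.subset_biUnion_of_mem
        (fun z : ℕ × ℕ => z.1.primeFactors ∪ z.2.primeFactors) hz))
      (hΨ z hz).2.2.2.2.2.2.disjoint_primeFactors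
    have e3 : ((V.powerset.filter (fun T => z.1.primeFactors ⊆ T ∧
        Disjoint z.2.primeFactors T)).card : ℝ) * (c * h z) = g z := by
      rw [hh]
      simp only
      calc _ = c * (((V.powerset.filter (fun T => z.1.primeFactors ⊆ T ∧
        Disjoint z.2.primeFactors T)).card : ℝ) *
          2 ^ (z.1.primeFactors.card + z.2.primeFactors.card)) * g z := by ring
        _ = g z := by
          rw [e2, hc]
          field_simp
    rw [← e3]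
    push_cast
    ring
  have hsum : ∑ T ∈ V.powerset, c = 1 := by
    rw [Finset.sum_const, card_powerset, nsmul_eq_mul, hc]
    push_cast
    field_simp
  have hJ : ∀ χ : DirichletCharacter ℂ q,
      ‖∑ z ∈ Ψ, (g z : ℂ) * χ (cls q z.1 z.2 : ZMod q)‖ ^ (2 * m) ≤
      ∑ T ∈ V.powerset, c * ‖∑ z ∈ ΨT T, (h z : ℂ) * χ (cls q z.1 z.2 : ZMod q)‖ ^ (2 * m) := by
    intro χ
    rw [havg χ]
    have e1 : ‖∑ T ∈ V.powerset, (c : ℂ) * ∑ z ∈ ΨT T, (h z : ℂ) * χ (cls q z.1 z.2 : ZMod q)‖ ≤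
        ∑ T ∈ V.powerset, c * ‖∑ z ∈ ΨT T, (h z : ℂ) * χ (cls q z.1 z.2 : ZMod q)‖ := by
      refine (norm_sum_le _ _).trans (Finset.sum_le_sum fun T _ => ?_)
      rw [norm_mul, Complex.norm_real, Real.norm_of_nonneg hc0.le]
    refine (pow_le_pow_left₀ (norm_nonneg _) e1 _).trans ?_
    exact Real.pow_arith_mean_le_arith_mean_pow _ _ _ (fun _ _ => hc0.le) hsum
      (fun _ _ => norm_nonneg _) _
  calc ∑ χ : DirichletCharacter ℂ q, ‖∑ z ∈ Ψ, (g z : ℂ) * χ (cls q z.1 z.2 : ZMod q)‖ ^ (2 * m)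
      ≤ ∑ χ : DirichletCharacter ℂ q, ∑ T ∈ V.powerset,
          c * ‖∑ z ∈ ΨT T, (h z : ℂ) * χ (cls q z.1 z.2 : ZMod q)‖ ^ (2 * m) :=
        Finset.sum_le_sum fun χ _ => hJ χ
    _ = ∑ T ∈ V.powerset, c * ∑ χ : DirichletCharacter ℂ q,
          ‖∑ z ∈ ΨT T, (h z : ℂ) * χ (cls q z.1 z.2 : ZMod q)‖ ^ (2 * m) := by
        rw [Finset.sum_comm]
        exact Finset.sum_congr rfl fun T _ => (Finset.mul_sum _ _ _).symm
    _ ≤ ∑ T ∈ V.powerset, c * ((q - 1) * ((Fintype.card K : ℝ) * (W ^ m * (m : ℝ) ^ Ω) ^ 2)) := by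
        apply Finset.sum_le_sum
        intro T _
        apply mul_le_mul_of_nonneg_left _ hc0.le
        apply color_moment K (ΨT T) y B1 B2 m Ω T _ _ hB hm hΩ h W hW
        · intro z hz
          rw [mem_filter] at hz
          exact ⟨mul_nonneg (by positivity) (hg z hz.1).1, (hg z hz.1).2⟩
        · intro z hz
          rw [mem_filter] at hz
          obtain ⟨a1, a2, a3, a4, a5, a6, _⟩ := hΨ z hz.1
          exact ⟨a1, a2, a3, a4, a5, a6, hz.2.1, hz.2.2⟩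
        · intro z hz
          rw [mem_filter] at hz
          exact hK z hz.1
    _ = _ := by rw [← Finset.sum_mul, hsum, one_mul]

end Pool.Agent.V8H32.Cos
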