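import Mathlib
import Pool.Agent.V8H32.Cos.Box

/-! Sums over rough fractions in a subgroup are small for almost all characters. -/

set_option autoImplicit false

namespace Pool.Agent.V8H32.Cos
open Finset Pool.Agent.R311.RES
open scoped Classical

variable {q : ℕ} [Fact q.Prime]

/-- the numerical inequality -/
lemma rough_num {Λ ε θ b ly lm ll l4 m Ω : ℝ} (hΛ : 1 ≤ Λ) (hε : 0 < ε) (hε1 : ε ≤ 1) (hθ0 : 0 ≤ θ)
    (hθ : θ ≤ ε / 8) (hm0 : 0 ≤ m) (hΩ0 : 0 ≤ Ω) (hmb : m * b ≤ Λ) (hmb' : Λ ≤ (m + 1) * b)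
    (hb : b ≤ ε / 8 * Λ) (hby : ly ≤ b) (hΩ : Ω * ly ≤ Λ) (hlm : lm ≤ Real.log Λ) (hly : 0 < ly)
    (hll : ll ≤ 0) (hl4 : 0 ≤ l4) (hbig : l4 + 2 * Real.log Λ - 2 * ll ≤ ε / 8 * ly) :
    (1 - ε) * Λ + 2 * m * ((-(1 / 2) + θ) * (b - l4)) + 2 * Ω * lm ≤ -(ε / 2) * Λ + 2 * m * ll := by
  set c : ℝ := Λ / ly with hc
  have hcly : c * ly = Λ := by rw [hc]; field_simp
  have hc0 : 0 ≤ c := by rw [hc]; positivity
  have hmc : m ≤ c := by
    rw [hc, le_div_iff₀ hly]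
    exact (mul_le_mul_of_nonneg_left hby hm0).trans hmb
  have hΩc : Ω ≤ c := by
    rw [hc, le_div_iff₀ hly]; exact hΩ
  have hL0 : 0 ≤ Real.log Λ := Real.log_nonneg hΛ
  have h1 : m * l4 + 2 * Ω * lm - 2 * m * ll ≤ ε / 8 * Λ := by
    have e1 : m * l4 ≤ c * l4 := mul_le_mul_of_nonneg_right hmc hl4
    have e2 : Ω * lm ≤ c * Real.log Λ :=
      (mul_le_mul_of_nonneg_left hlm hΩ0).trans (mul_le_mul_of_nonneg_right hΩc hL0)
    have e3 : m * (-ll) ≤ c * (-ll) := mul_le_mul_of_nonneg_right hmc (by linarith)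
    have e4 : c * (l4 + 2 * Real.log Λ - 2 * ll) ≤ c * (ε / 8 * ly) :=
      mul_le_mul_of_nonneg_left hbig hc0
    have e5 : c * (ε / 8 * ly) = ε / 8 * Λ := by rw [← hcly]; ring
    nlinarith
  have h2 : 2 * m * ((-(1 / 2) + θ) * (b - l4)) ≤ -(1 - ε / 4 - ε / 8) * Λ + m * l4 := by
    have e1 : 2 * m * ((-(1 / 2) + θ) * (b - l4)) = -(1 - 2 * θ) * (m * b) + (1 - 2 * θ) * (m * l4) := by
      ring
    have e2 : (1 - ε / 8) * Λ ≤ m * b := by nlinarith
    have e3 : 0 ≤ 1 - 2 * θ := by linarith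
    have e4 : (1 - 2 * θ) * ((1 - ε / 8) * Λ) ≤ (1 - 2 * θ) * (m * b) :=
      mul_le_mul_of_nonneg_left e2 e3
    have e5 : (1 - 2 * θ) * (m * l4) ≤ m * l4 := by
      have : 0 ≤ m * l4 := mul_nonneg hm0 hl4
      nlinarith
    have e6 : (1 - ε / 4 - ε / 8) * Λ ≤ (1 - 2 * θ) * ((1 - ε / 8) * Λ) := by
      have : (1 - ε / 4 - ε / 8) ≤ (1 - 2 * θ) * (1 - ε / 8) := by nlinarith
      nlinarith
    linarith
  nlinarith

/-- one box -/
lemma one_box (K : Subgroup (ZMod q)ˣ) (y U : ℕ) (ε θ lam : ℝ) (g : ℕ × ℕ → ℝ)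
    (hε : 0 < ε) (hε1 : ε ≤ 1) (hθ0 : 0 ≤ θ) (hθ : θ ≤ ε / 8)
    (hKc : (Fintype.card K : ℝ) ≤ (q : ℝ) ^ (1 - ε)) (hy : 2 ≤ y)
    (hU : ((4 * U ^ 2 : ℕ) : ℝ) ≤ (q : ℝ) ^ (ε / 8)) (hl0 : 0 < lam) (hl1 : lam ≤ 1)
    (hΛ : 1 ≤ Real.log q)
    (hbig : Real.log 4 + 2 * Real.log (Real.log q) - 2 * Real.log lam ≤ ε / 8 * Real.log y)
    (hg : ∀ z ∈ Phi q K y U, 0 ≤ g z ∧ 2 ^ (z.1.primeFactors.card + z.2.primeFactors.card) * g z ≤
      ((z.1 : ℝ) * z.2) ^ (-(1 / 2 : ℝ) + θ)) (i i' : ℕ) :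
    ((univ.filter (fun χ : DirichletCharacter ℂ q => lam <
      ‖∑ z ∈ ((Phi q K y U).erase (1, 1)).filter (fun z => Nat.log 2 z.1 = i ∧ Nat.log 2 z.2 = i'),
        (g z : ℂ) * χ (cls q z.1 z.2 : ZMod q)‖)).card : ℝ) ≤ (q - 1) * (q : ℝ) ^ (-(ε / 2)) := by
  set Ψ := ((Phi q K y U).erase (1, 1)).filter (fun z => Nat.log 2 z.1 = i ∧ Nat.log 2 z.2 = i')
    with hΨ
  have hq2 : 2 ≤ q := Nat.Prime.two_le Fact.out
  have hq0 : (0 : ℝ) < q := by exact_mod_cast (by omega : 0 < q)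
  have hq1 : (1 : ℝ) ≤ q := by exact_mod_cast (by omega : 1 ≤ q)
  rcases Finset.eq_empty_or_nonempty Ψ with he | ⟨z0, hz0⟩
  · rw [he]
    simp only [Finset.sum_empty, norm_zero]
    rw [Finset.filter_false_of_mem (fun _ _ => not_lt.2 hl0.le), card_empty]
    push_cast
    have : (0 : ℝ) ≤ q - 1 := by linarith
    positivity
  have hmem : ∀ z ∈ Ψ, 0 < z.1 ∧ 0 < z.2 ∧ z.1 ≤ U ∧ z.2 ≤ U ∧ Rough y z.1 ∧ Rough y z.2 ∧
      Nat.Coprime z.1 z.2 ∧ cls q z.1 z.2 ∈ K ∧ z ≠ (1, 1) ∧ Nat.log 2 z.1 = i ∧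
      Nat.log 2 z.2 = i' ∧ z ∈ Phi q K y U := by
    intro z hz
    rw [hΨ, mem_filter, mem_erase] at hz
    have h1 := hz.1.2
    rw [Phi, mem_filter, mem_product, mem_Icc, mem_Icc] at h1
    exact ⟨h1.1.1.1, h1.1.2.1, h1.1.1.2, h1.1.2.2, h1.2.2.1, h1.2.2.2.1, h1.2.1, h1.2.2.2.2, hz.1.1,
      hz.2.1, hz.2.2, hz.1.2⟩
  have hdy : ∀ z ∈ Ψ, 2 ^ i ≤ z.1 ∧ z.1 ≤ 2 ^ (i + 1) ∧ 2 ^ i' ≤ z.2 ∧ z.2 ≤ 2 ^ (i' + 1) := by
    intro z hz
    obtain ⟨h1, h2, _, _, _, _, _, _, _, h3, h4, _⟩ := hmem z hz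
    refine ⟨?_, ?_, ?_, ?_⟩
    · rw [← h3]; exact Nat.pow_log_le_self 2 h1.ne'
    · rw [← h3]; exact (Nat.lt_pow_succ_log_self (by norm_num) _).le
    · rw [← h4]; exact Nat.pow_log_le_self 2 h2.ne'
    · rw [← h4]; exact (Nat.lt_pow_succ_log_self (by norm_num) _).le
  set B1 := 2 ^ (i + 1) with hB1
  set B2 := 2 ^ (i' + 1) with hB2
  set B := B1 * B2 with hB
  have hB4 : B = 4 * (2 ^ i * 2 ^ i') := by rw [hB, hB1, hB2]; ring
  have hBge : 4 ≤ B := by
    rw [hB4]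
    have : 0 < 2 ^ i * 2 ^ i' := by positivity
    omega
  obtain ⟨z1, z2, z3, z4, z5, z6, z7, z8, z9, z10, z11, z12⟩ := hmem z0 hz0
  obtain ⟨d1, d2, d3, d4⟩ := hdy z0 hz0
  have hBU : B ≤ 4 * U ^ 2 := by
    rw [hB4, sq]
    exact Nat.mul_le_mul_left 4 (Nat.mul_le_mul (d1.trans z3) (d3.trans z4))
  have hBy : y ≤ B := by
    have h0 : y < z0.1 ∨ y < z0.2 := by
      by_cases h : z0.1 = 1
      · right
        have h2 : z0.2 ≠ 1 := fun h2 => z9 (Prod.ext h h2)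
        obtain ⟨p, hp, hpd⟩ := Nat.exists_prime_and_dvd h2
        exact (z6 p hp hpd).trans_le (Nat.le_of_dvd z2 hpd)
      · left
        obtain ⟨p, hp, hpd⟩ := Nat.exists_prime_and_dvd h
        exact (z5 p hp hpd).trans_le (Nat.le_of_dvd z1 hpd)
    have hB10 : 0 < B1 := by rw [hB1]; positivity
    have hB20 : 0 < B2 := by rw [hB2]; positivity
    rcases h0 with h0 | h0
    · exact (h0.le.trans d2).trans (Nat.le_mul_of_pos_right _ hB20)
    · exact (h0.le.trans d4).trans (Nat.le_mul_of_pos_left _ hB10)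
  have hBr : (B : ℝ) ≤ (q : ℝ) ^ (ε / 8) := by
    refine le_trans ?_ hU
    exact_mod_cast hBU
  have hB0 : (0 : ℝ) < B := by exact_mod_cast (by omega : 0 < B)
  have hq_lt : (q : ℝ) ^ (ε / 8) < q := by
    calc (q : ℝ) ^ (ε / 8) < (q : ℝ) ^ (1 : ℝ) := by
          apply Real.rpow_lt_rpow_of_exponent_lt
          · exact_mod_cast (by omega : 1 < q)
          · linarith
      _ = q := Real.rpow_one _
  have hBq : B < q := by exact_mod_cast hBr.trans_lt hq_lt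
  set m := Nat.log B (q - 1) with hm
  have hm1 : 1 ≤ m := Nat.log_pos (by omega) (by omega)
  have hBm : B ^ m < q := by
    have := Nat.pow_log_le_self B (x := q - 1) (by omega)
    rw [← hm] at this
    omega
  have hBm' : q ≤ B ^ (m + 1) := by
    have := Nat.lt_pow_succ_log_self (b := B) (by omega) (q - 1)
    rw [← hm] at this
    have h2 : q - 1 + 1 = q := by omega
    rw [← h2]
    exact this
  set Ω := Nat.log y q with hΩd
  have hΩ : ∀ n : ℕ, 0 < n → n < q → Rough y n → (Nat.primeFactorsList n).length ≤ Ω := by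
    intro n hn hnq hr
    apply Nat.le_log_of_pow_le (by omega)
    exact (rough_len hn.ne' hr).trans hnq.le
  set W : ℝ := ((B : ℝ) / 4) ^ (-(1 / 2 : ℝ) + θ) with hW
  have hW0 : 0 ≤ W := by rw [hW]; positivity
  have hexp : -(1 / 2 : ℝ) + θ ≤ 0 := by linarith
  have hmom := box_moment K Ψ y B1 B2 m Ω (fun z hz => by
      obtain ⟨h1, h2, h3, h4, h5, h6, h7, _⟩ := hmem z hz
      obtain ⟨_, e2, _, e4⟩ := hdy z hz
      exact ⟨h1, h2, e2, e4, h5, h6, h7⟩)
    (fun z hz => (hmem z hz).2.2.2.2.2.2.2.1) hBm hm1 hΩ g W hW0 (fun z hz => by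
      obtain ⟨_, _, _, _, _, _, _, _, _, _, _, h12⟩ := hmem z hz
      obtain ⟨e1, _, e3, _⟩ := hdy z hz
      refine ⟨(hg z h12).1, (hg z h12).2.trans ?_⟩
      apply Real.rpow_le_rpow_of_nonpos (by positivity) _ hexp
      have : B ≤ 4 * (z.1 * z.2) := by
        rw [hB4]; exact Nat.mul_le_mul_left 4 (Nat.mul_le_mul e1 e3)
      have h' : (B : ℝ) ≤ 4 * ((z.1 : ℝ) * z.2) := by exact_mod_cast this
      linarith)
  -- Markov
  have hmk := markov (univ : Finset (DirichletCharacter ℂ q))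
    (fun χ => ‖∑ z ∈ Ψ, (g z : ℂ) * χ (cls q z.1 z.2 : ZMod q)‖ ^ (2 * m))
    (fun _ _ => by positivity) (lam ^ (2 * m))
  have hsub : (univ.filter (fun χ : DirichletCharacter ℂ q => lam <
      ‖∑ z ∈ Ψ, (g z : ℂ) * χ (cls q z.1 z.2 : ZMod q)‖)).card ≤
      (univ.filter (fun χ : DirichletCharacter ℂ q => lam ^ (2 * m) <
      ‖∑ z ∈ Ψ, (g z : ℂ) * χ (cls q z.1 z.2 : ZMod q)‖ ^ (2 * m))).card := by
    apply card_le_card
    intro χ hχ
    rw [mem_filter] at hχ ⊢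
    exact ⟨hχ.1, pow_lt_pow_left₀ hχ.2 hl0.le (by omega)⟩
  have hsub' : ((univ.filter (fun χ : DirichletCharacter ℂ q => lam <
      ‖∑ z ∈ Ψ, (g z : ℂ) * χ (cls q z.1 z.2 : ZMod q)‖)).card : ℝ) ≤
      ((univ.filter (fun χ : DirichletCharacter ℂ q => lam ^ (2 * m) <
      ‖∑ z ∈ Ψ, (g z : ℂ) * χ (cls q z.1 z.2 : ZMod q)‖ ^ (2 * m))).card : ℝ) := by
    exact_mod_cast hsub
  have hlp : 0 < lam ^ (2 * m) := by positivity
  have hq1' : (0 : ℝ) ≤ q - 1 := by linarith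
  -- the numerical inequality
  have hnum : (Fintype.card K : ℝ) * (W ^ m * (m : ℝ) ^ Ω) ^ 2 ≤ (q : ℝ) ^ (-(ε / 2)) * lam ^ (2 * m) := by
    have hm0 : (0 : ℝ) < m := by exact_mod_cast hm1
    have hB4' : (0 : ℝ) < (B : ℝ) / 4 := by positivity
    have e1 : W ^ m = Real.exp (m * ((-(1 / 2) + θ) * (Real.log B - Real.log 4))) := by
      rw [hW, Real.rpow_def_of_pos hB4', ← Real.exp_nat_mul, Real.log_div hB0.ne' (by norm_num)]
      congr 1; ring
    have e2 : (m : ℝ) ^ Ω = Real.exp (Ω * Real.log m) := by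
      rw [Real.exp_nat_mul, Real.exp_log hm0]
    have e3 : lam ^ (2 * m) = Real.exp (2 * m * Real.log lam) := by
      have : (2 * (m : ℝ) * Real.log lam) = ((2 * m : ℕ) : ℝ) * Real.log lam := by push_cast; ring
      rw [this, Real.exp_nat_mul, Real.exp_log hl0]
    have e4 : (q : ℝ) ^ (-(ε / 2)) = Real.exp (-(ε / 2) * Real.log q) := by
      rw [Real.rpow_def_of_pos hq0]; congr 1; ring
    have e5 : (q : ℝ) ^ (1 - ε) = Real.exp ((1 - ε) * Real.log q) := by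
      rw [Real.rpow_def_of_pos hq0]; congr 1; ring
    calc (Fintype.card K : ℝ) * (W ^ m * (m : ℝ) ^ Ω) ^ 2
        ≤ (q : ℝ) ^ (1 - ε) * (W ^ m * (m : ℝ) ^ Ω) ^ 2 :=
          mul_le_mul_of_nonneg_right hKc (by positivity)
      _ = Real.exp ((1 - ε) * Real.log q + 2 * m * ((-(1 / 2) + θ) * (Real.log B - Real.log 4)) +
            2 * Ω * Real.log m) := by
          rw [e5, e1, e2, sq, ← Real.exp_add, ← Real.exp_add, ← Real.exp_add]
          congr 1; ring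
      _ ≤ Real.exp (-(ε / 2) * Real.log q + 2 * m * Real.log lam) := by
          rw [Real.exp_le_exp]
          have hmB : (m : ℝ) * Real.log B ≤ Real.log q := by
            rw [← Real.log_pow]
            apply Real.log_le_log (by positivity)
            exact_mod_cast hBm.le
          have hlB1 : 1 ≤ Real.log B := by
            have h4 : Real.log 4 ≤ Real.log B := Real.log_le_log (by norm_num) (by exact_mod_cast hBge)
            have h5 : Real.log 4 = 2 * Real.log 2 := by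
              rw [show (4 : ℝ) = 2 ^ 2 by norm_num, Real.log_pow]; norm_num
            have := Real.log_two_gt_d9
            linarith
          apply rough_num (b := Real.log B) (ly := Real.log y) (lm := Real.log m) hΛ hε hε1 hθ0 hθ
            hm0.le (by positivity) hmB
          · have : Real.log q ≤ ((m + 1 : ℕ) : ℝ) * Real.log B := by
              rw [← Real.log_pow]
              apply Real.log_le_log hq0
              exact_mod_cast hBm'
            push_cast at this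
            exact this
          · calc Real.log B ≤ Real.log ((q : ℝ) ^ (ε / 8)) := Real.log_le_log hB0 hBr
              _ = _ := Real.log_rpow hq0 _
          · apply Real.log_le_log (by exact_mod_cast (by omega : 0 < y))
            exact_mod_cast hBy
          · rw [← Real.log_pow]
            apply Real.log_le_log (by
              have : (0 : ℝ) < y := by exact_mod_cast (by omega : 0 < y)
              positivity)
            exact_mod_cast Nat.pow_log_le_self y (by omega : q ≠ 0)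
          · apply Real.log_le_log hm0
            nlinarith
          · exact Real.log_pos (by exact_mod_cast (by omega : 1 < y))
          · exact Real.log_nonpos hl0.le hl1
          · exact Real.log_nonneg (by norm_num)
          · exact hbig
      _ = (q : ℝ) ^ (-(ε / 2)) * lam ^ (2 * m) := by
          rw [e3, e4, ← Real.exp_add]
  have hfin : ((univ.filter (fun χ : DirichletCharacter ℂ q => lam <
      ‖∑ z ∈ Ψ, (g z : ℂ) * χ (cls q z.1 z.2 : ZMod q)‖)).card : ℝ) * lam ^ (2 * m) ≤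
      ((q - 1) * (q : ℝ) ^ (-(ε / 2))) * lam ^ (2 * m) := by
    calc _ ≤ _ := mul_le_mul_of_nonneg_right hsub' hlp.le
      _ ≤ _ := hmk
      _ ≤ _ := hmom
      _ ≤ (q - 1) * ((q : ℝ) ^ (-(ε / 2)) * lam ^ (2 * m)) := mul_le_mul_of_nonneg_left hnum hq1'
      _ = _ := by ring
  exact le_of_mul_le_mul_right hfin hlp

/-- all boxes -/
theorem rough_small (K : Subgroup (ZMod q)ˣ) (y U : ℕ) (ε θ η : ℝ) (g : ℕ × ℕ → ℝ)
    (hε : 0 < ε) (hε1 : ε ≤ 1) (hθ0 : 0 ≤ θ) (hθ : θ ≤ ε / 8)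
    (hKc : (Fintype.card K : ℝ) ≤ (q : ℝ) ^ (1 - ε)) (hy : 2 ≤ y)
    (hU : ((4 * U ^ 2 : ℕ) : ℝ) ≤ (q : ℝ) ^ (ε / 8)) (hη0 : 0 < η) (hη1 : η ≤ 1)
    (hΛ : 1 ≤ Real.log q)
    (hbig : Real.log 4 + 2 * Real.log (Real.log q) -
      2 * Real.log (η / ((Nat.log 2 U + 1 : ℕ) : ℝ) ^ 2) ≤ ε / 8 * Real.log y)
    (hg : ∀ z ∈ Phi q K y U, 0 ≤ g z ∧ 2 ^ (z.1.primeFactors.card + z.2.primeFactors.card) * g z ≤
      ((z.1 : ℝ) * z.2) ^ (-(1 / 2 : ℝ) + θ)) :
    ((univ.filter (fun χ : DirichletCharacter ℂ q => η <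
      ‖∑ z ∈ (Phi q K y U).erase (1, 1), (g z : ℂ) * χ (cls q z.1 z.2 : ZMod q)‖)).card : ℝ) ≤
      (q - 1) * (((Nat.log 2 U + 1 : ℕ) : ℝ) ^ 2 * (q : ℝ) ^ (-(ε / 2))) := by
  set L := Nat.log 2 U + 1 with hL
  have hL0 : (0 : ℝ) < (L : ℝ) := by exact_mod_cast (by omega : 0 < L)
  have hL1 : (1 : ℝ) ≤ (L : ℝ) := by exact_mod_cast (by omega : 1 ≤ L)
  set lam : ℝ := η / (L : ℝ) ^ 2 with hlam
  have hl0 : 0 < lam := by rw [hlam]; positivity
  have hl1 : lam ≤ 1 := by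
    rw [hlam, div_le_one (by positivity)]
    nlinarith
  set Xb : ℕ × ℕ → DirichletCharacter ℂ q → ℂ := fun ii χ =>
    ∑ z ∈ ((Phi q K y U).erase (1, 1)).filter (fun z => Nat.log 2 z.1 = ii.1 ∧ Nat.log 2 z.2 = ii.2),
        (g z : ℂ) * χ (cls q z.1 z.2 : ZMod q) with hXb
  have hdec : ∀ χ : DirichletCharacter ℂ q,
      ∑ z ∈ (Phi q K y U).erase (1, 1), (g z : ℂ) * χ (cls q z.1 z.2 : ZMod q) =
      ∑ ii ∈ range L ×ˢ range L, Xb ii χ := by
    intro χ
    have hmap : ∀ z ∈ (Phi q K y U).erase (1, 1), (Nat.log 2 z.1, Nat.log 2 z.2) ∈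
        range L ×ˢ range L := by
      intro z hz
      rw [mem_erase, Phi, mem_filter, mem_product, mem_Icc, mem_Icc] at hz
      rw [mem_product, mem_range, mem_range]
      have h1 := Nat.log_mono_right (b := 2) hz.2.1.1.2
      have h2 := Nat.log_mono_right (b := 2) hz.2.1.2.2
      simp only
      omega
    rw [← Finset.sum_fiberwise_of_maps_to hmap]
    apply Finset.sum_congr rfl
    intro ii _
    rw [hXb]
    simp only
    apply Finset.sum_congr _ (fun _ _ => rfl)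
    ext z
    simp only [mem_filter, Prod.ext_iff]
  have hsub : (univ.filter (fun χ : DirichletCharacter ℂ q => η <
      ‖∑ z ∈ (Phi q K y U).erase (1, 1), (g z : ℂ) * χ (cls q z.1 z.2 : ZMod q)‖)) ⊆
      (range L ×ˢ range L).biUnion (fun ii => univ.filter
        (fun χ : DirichletCharacter ℂ q => lam < ‖Xb ii χ‖)) := by
    intro χ hχ
    rw [mem_filter] at hχ
    by_contra hcon
    rw [mem_biUnion] at hcon
    push Not at hcon
    have h1 : ∀ ii ∈ range L ×ˢ range L, ‖Xb ii χ‖ ≤ lam := by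
      intro ii hii
      have := hcon ii hii
      rw [mem_filter] at this
      push Not at this
      exact this (mem_univ _)
    have h2 : ‖∑ z ∈ (Phi q K y U).erase (1, 1), (g z : ℂ) * χ (cls q z.1 z.2 : ZMod q)‖ ≤ η := by
      rw [hdec χ]
      refine (norm_sum_le _ _).trans ((Finset.sum_le_sum h1).trans (le_of_eq ?_))
      rw [Finset.sum_const, card_product, card_range, nsmul_eq_mul, hlam]
      push_cast
      field_simp
    linarith [hχ.2]
  calc ((univ.filter (fun χ : DirichletCharacter ℂ q => η <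
      ‖∑ z ∈ (Phi q K y U).erase (1, 1), (g z : ℂ) * χ (cls q z.1 z.2 : ZMod q)‖)).card : ℝ)
      ≤ (((range L ×ˢ range L).biUnion (fun ii => univ.filter
        (fun χ : DirichletCharacter ℂ q => lam < ‖Xb ii χ‖))).card : ℝ) := by
        exact_mod_cast card_le_card hsub
    _ ≤ ∑ ii ∈ range L ×ˢ range L, ((univ.filter
        (fun χ : DirichletCharacter ℂ q => lam < ‖Xb ii χ‖)).card : ℝ) := by
        exact_mod_cast card_biUnion_le
    _ ≤ ∑ ii ∈ range L ×ˢ range L, (q - 1) * (q : ℝ) ^ (-(ε / 2)) := by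
        apply Finset.sum_le_sum
        intro ii _
        exact one_box K y U ε θ lam g hε hε1 hθ0 hθ hKc hy hU hl0 hl1 hΛ hbig hg ii.1 ii.2
    _ = _ := by
        rw [Finset.sum_const, card_product, card_range, nsmul_eq_mul]
        push_cast
        ring

end Pool.Agent.V8H32.Cos
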