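import Mathlib
import Pool.Agent.V8H32.Cos.Mom
import Pool.Agent.V8H32.Cos.Rough

/-! The rough part of the first moment. -/

set_option autoImplicit false

namespace Pool.Agent.V8H32.Cos
open Finset Pool.Agent.R311.RES
open scoped Classical

variable {q : ℕ} [Fact q.Prime]

/-- the rough numbers up to `M1` -/
noncomputable def NR (y M1 : ℕ) : Finset ℕ := (Icc 1 M1).filter (Rough y)

/-- Dirichlet polynomial over a set of integers -/
noncomputable def AN (N : Finset ℕ) (χ : DirichletCharacter ℂ q) : ℂ :=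
  ∑ n ∈ N, ((1 / Real.sqrt n : ℝ) : ℂ) * χ (un q n : ZMod q)

lemma tr_cA {y M1 : ℕ} (hM1 : M1 < q) (χ : DirichletCharacter ℂ q) :
    tr (fun g => (cA y M1 g : ℂ)) χ = AN (NR y M1) χ := by
  unfold tr AN cA
  have h1 : ∀ g : (ZMod q)ˣ, (((if vl g ≤ M1 ∧ Rough y (vl g) then 1 / Real.sqrt (vl g) else 0 : ℝ)) : ℂ) *
      χ (g : ZMod q) = if vl g ≤ M1 ∧ Rough y (vl g) then
        ((1 / Real.sqrt (vl g) : ℝ) : ℂ) * χ (g : ZMod q) else 0 := by
    intro g
    split_ifs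
    · rfl
    · simp
  rw [Finset.sum_congr rfl (fun g _ => h1 g), ← Finset.sum_filter]
  refine Finset.sum_bij' (fun g _ => vl g) (fun n _ => un q n) ?_ ?_ ?_ ?_ ?_
  · intro g hg
    rw [mem_filter] at hg
    rw [NR, mem_filter, mem_Icc]
    exact ⟨⟨vl_pos g, hg.2.1⟩, hg.2.2⟩
  · intro n hn
    rw [NR, mem_filter, mem_Icc] at hn
    rw [mem_filter, vl_un hn.1.1 (by omega)]
    exact ⟨mem_univ _, hn.1.2, hn.2⟩
  · intro g _
    exact un_vl g
  · intro n hn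
    rw [NR, mem_filter, mem_Icc] at hn
    exact vl_un hn.1.1 (by omega)
  · intro g _
    rw [un_vl]

lemma AN_one (χ : DirichletCharacter ℂ q) : AN {1} χ = 1 := by
  unfold AN
  rw [Finset.sum_singleton, un_one']
  simp

lemma prod_triple (N P : Finset ℕ) (s' s : ℕ) (hN : ∀ n ∈ N, n.Coprime q)
    (hP : ∀ p ∈ P, p.Coprime q) (χ : DirichletCharacter ℂ q) :
    AN N χ * Rs P s' χ * (starRingEnd ℂ) (Rs P s χ) =
      ∑ τ ∈ TI N P s' s, (tw τ : ℂ) * χ (cls q (tx τ) (ty τ) : ZMod q) := by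
  have h1 : ∀ S ⊆ P, (pr S).Coprime q := fun S hS => Nat.Coprime.prod_left fun p hp => hP p (hS hp)
  unfold AN Rs
  rw [map_sum, mul_assoc, Finset.sum_mul_sum, Finset.sum_mul_sum]
  rw [TI, Finset.sum_product]
  apply Finset.sum_congr rfl
  intro n hn
  rw [Finset.sum_product]
  apply Finset.sum_congr rfl
  intro S' hS'
  rw [Finset.mul_sum]
  apply Finset.sum_congr rfl
  intro S hS
  have c1 := h1 S' (mem_powersetCard.1 hS').1
  have c2 := h1 S (mem_powersetCard.1 hS).1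
  have e1 : cls q (tx (n, S', S)) (ty (n, S', S)) = un q n * un q (pr S') * (un q (pr S))⁻¹ := by
    unfold cls tx ty
    simp only
    rw [un_mul' (hN n hn) c1]
  have e2 : tw (n, S', S) = 1 / Real.sqrt n * (1 / Real.sqrt (pr S')) * (1 / Real.sqrt (pr S)) := by
    unfold tw tx ty
    simp only
    push_cast
    rw [Real.sqrt_mul (by positivity), Real.sqrt_mul (by positivity)]
    field_simp
  rw [e1, e2, map_mul, Complex.conj_ofReal, ← chi_inv, Units.val_mul, Units.val_mul, map_mul, map_mul]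
  push_cast
  ring

lemma coset_sum {ι : Type*} (H : Subgroup (DirichletCharacter ℂ q)) (χ₀ : DirichletCharacter ℂ q)
    (I : Finset ι) (w : ι → ℝ) (u : ι → (ZMod q)ˣ) :
    ∑ ψ : H, ∑ i ∈ I, (w i : ℂ) * (χ₀ * (ψ : DirichletCharacter ℂ q)) (u i : ZMod q) =
      (Fintype.card H : ℂ) * ∑ i ∈ I.filter (fun i => u i ∈ ann H), (w i : ℂ) * χ₀ (u i : ZMod q) := by
  rw [Finset.sum_comm, Finset.sum_filter, Finset.mul_sum]
  apply Finset.sum_congr rfl
  intro i _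
  have h1 : ∀ ψ : H, (w i : ℂ) * (χ₀ * (ψ : DirichletCharacter ℂ q)) (u i : ZMod q) =
      (w i : ℂ) * χ₀ (u i : ZMod q) * (ψ : DirichletCharacter ℂ q) (u i : ZMod q) := by
    intro ψ
    rw [MulChar.mul_apply]; ring
  rw [Finset.sum_congr rfl (fun ψ _ => h1 ψ), ← Finset.mul_sum, orth]
  split_ifs
  · ring
  · ring

/-- the diagonal -/
noncomputable def G11 (N P : Finset ℕ) (s' s : ℕ) : ℝ :=
  ∑ τ ∈ (TI N P s' s).filter (fun τ => 1 * tx τ = 1 * ty τ), tw τ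

theorem alpha (H : Subgroup (DirichletCharacter ℂ q)) (N P : Finset ℕ) (y r U s' s : ℕ)
    (ε θ η : ℝ) (hε : 0 < ε) (hε1 : ε ≤ 1) (hθ0 : 0 ≤ θ) (hθ8 : θ ≤ ε / 8)
    (hKc : (Fintype.card (ann H) : ℝ) ≤ (q : ℝ) ^ (1 - ε)) (hy : 2 ≤ y)
    (hU : ((4 * U ^ 2 : ℕ) : ℝ) ≤ (q : ℝ) ^ (ε / 8)) (hη0 : 0 < η) (hη1 : η ≤ 1)
    (hΛ : 1 ≤ Real.log q)
    (hbig : Real.log 4 + 2 * Real.log (Real.log q) -
      2 * Real.log (η / ((Nat.log 2 U + 1 : ℕ) : ℝ) ^ 2) ≤ ε / 8 * Real.log y)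
    (hP : ∀ p ∈ P, p.Prime) (hPy : ∀ p ∈ P, y < p) (hG : 1 ≤ ∑ p ∈ P, 1 / (p : ℝ))
    (hr : 2 * r ≤ y) (hr1 : 1 ≤ r) (hs' : s' ≤ s) (hs : s ≤ r)
    (hθ : (4 * r + 4 : ℝ) ≤ (y : ℝ) ^ θ)
    (hN : ∀ n ∈ N, 0 < n ∧ Rough y n)
    (hUx : ∀ n ∈ N, ∀ S' ∈ P.powersetCard s', n * pr S' ≤ U)
    (hUy : ∀ S ∈ P.powersetCard s, pr S ≤ U) (hU1 : 1 ≤ U)
    (hNc : ∀ n ∈ N, n.Coprime q) (hPc : ∀ p ∈ P, p.Coprime q) :
    ((univ.filter (fun χ₀ : DirichletCharacter ℂ q =>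
      η * ((Fintype.card H : ℝ) * ((s.choose s' : ℝ) * ES P s)) <
      ‖∑ ψ : H, AN N (χ₀ * (ψ : DirichletCharacter ℂ q)) * Rs P s' (χ₀ * (ψ : DirichletCharacter ℂ q)) *
        (starRingEnd ℂ) (Rs P s (χ₀ * (ψ : DirichletCharacter ℂ q))) -
        ((Fintype.card H * G11 N P s' s : ℝ) : ℂ)‖)).card : ℝ) ≤
      (q - 1) * (((Nat.log 2 U + 1 : ℕ) : ℝ) ^ 2 * (q : ℝ) ^ (-(ε / 2))) := by
  have hq2 : 2 ≤ q := Nat.Prime.two_le Fact.out
  have hq0 : (0 : ℝ) < q := by exact_mod_cast (by omega : 0 < q)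
  -- sizes
  have hUq : U * U < q := by
    have h1 : ((4 * U ^ 2 : ℕ) : ℝ) ≤ q := by
      refine hU.trans ?_
      nth_rw 2 [← Real.rpow_one (q : ℝ)]
      apply Real.rpow_le_rpow_of_exponent_le (by exact_mod_cast (by omega : 1 ≤ q))
      linarith
    have h2 : 4 * U ^ 2 ≤ q := by exact_mod_cast h1
    nlinarith
  have hMpos : 0 < (s.choose s' : ℝ) * ES P s := by
    have h1 : 0 < ES P s := by
      have := ES_low P y (by omega) hPy hG r hr s hs
      by_contra hcon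
      have h0 : ES P s ≤ 0 := not_lt.1 hcon
      have : (2 * (r : ℝ)) ^ s * ES P s ≤ 0 := mul_nonpos_of_nonneg_of_nonpos (by positivity) h0
      linarith
    have h2 : (0 : ℝ) < (s.choose s' : ℝ) := by exact_mod_cast Nat.choose_pos hs'
    positivity
  set Main := (s.choose s' : ℝ) * ES P s with hMain
  have hpos : ∀ τ ∈ TI N P s' s, 0 < tx τ ∧ tx τ ≤ U ∧ Rough y (tx τ) := by
    intro τ hτ
    rw [TI, mem_product, mem_product] at hτ
    have h1 := mem_powersetCard.1 hτ.2.1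
    refine ⟨Nat.mul_pos (hN _ hτ.1).1 (pr_pos fun p hp => (hP p (h1.1 hp)).pos),
      hUx _ hτ.1 _ hτ.2.1, (hN _ hτ.1).2.mul ?_⟩
    apply rough_prod
    intro p hp p' hp' hd
    rw [(Nat.prime_dvd_prime_iff_eq hp' (hP p (h1.1 hp))).1 hd]
    exact hPy p (h1.1 hp)
  have hpos' : ∀ τ ∈ TI N P s' s, 0 < ty τ ∧ ty τ ≤ U ∧ Rough y (ty τ) := by
    intro τ hτ
    rw [TI, mem_product, mem_product] at hτ
    have h1 := mem_powersetCard.1 hτ.2.2
    refine ⟨pr_pos fun p hp => (hP p (h1.1 hp)).pos, hUy _ hτ.2.2, ?_⟩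
    apply rough_prod
    intro p hp p' hp' hd
    rw [(Nat.prime_dvd_prime_iff_eq hp' (hP p (h1.1 hp))).1 hd]
    exact hPy p (h1.1 hp)
  set g : ℕ × ℕ → ℝ := fun z => (∑ τ ∈ (TI N P s' s).filter (fun τ => z.2 * tx τ = z.1 * ty τ), tw τ) /
    Main with hg
  have hrs := rough_small (ann H) y U ε θ η g hε hε1 hθ0 hθ8 hKc hy hU hη0 hη1 hΛ hbig (by
    intro z hz
    rw [Phi, mem_filter, mem_product, mem_Icc, mem_Icc] at hz
    constructor
    · exact div_nonneg (Finset.sum_nonneg fun τ _ => tw_nonneg τ) hMpos.le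
    · have hb := frac_bound P N y r (by omega) hP hPy hG hr (fun n hn => (hN n hn).1) s' s z.1 z.2
        hs' hs hz.1.1.1 hz.1.2.1 hz.2.1 hz.2.2.1 hz.2.2.2.1 θ hθ0 hθ
      rw [hg]
      simp only
      rw [← mul_div_assoc, div_le_iff₀ hMpos]
      exact hb)
  refine le_trans ?_ hrs
  have hsub : (univ.filter (fun χ₀ : DirichletCharacter ℂ q =>
      η * ((Fintype.card H : ℝ) * Main) <
      ‖∑ ψ : H, AN N (χ₀ * (ψ : DirichletCharacter ℂ q)) * Rs P s' (χ₀ * (ψ : DirichletCharacter ℂ q)) *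
        (starRingEnd ℂ) (Rs P s (χ₀ * (ψ : DirichletCharacter ℂ q))) -
        ((Fintype.card H * G11 N P s' s : ℝ) : ℂ)‖)) ⊆
      (univ.filter (fun χ : DirichletCharacter ℂ q => η <
      ‖∑ z ∈ (Phi q (ann H) y U).erase (1, 1), (g z : ℂ) * χ (cls q z.1 z.2 : ZMod q)‖)) := by
    intro χ₀ hχ
    rw [mem_filter] at hχ ⊢
    refine ⟨mem_univ _, ?_⟩
    have hH0 : 0 < (Fintype.card H : ℝ) := by exact_mod_cast Fintype.card_pos
    have e1 : ∑ ψ : H, AN N (χ₀ * (ψ : DirichletCharacter ℂ q)) *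
        Rs P s' (χ₀ * (ψ : DirichletCharacter ℂ q)) *
        (starRingEnd ℂ) (Rs P s (χ₀ * (ψ : DirichletCharacter ℂ q))) =
        (Fintype.card H : ℂ) * ∑ z ∈ Phi q (ann H) y U,
          ((∑ τ ∈ (TI N P s' s).filter (fun τ => z.2 * tx τ = z.1 * ty τ), tw τ : ℝ) : ℂ) *
            χ₀ (cls q z.1 z.2 : ZMod q) := by
      rw [Finset.sum_congr rfl (fun (ψ : H) _ => prod_triple N P s' s hNc hPc
        (χ₀ * (ψ : DirichletCharacter ℂ q))),
        coset_sum H χ₀ (TI N P s' s) tw (fun τ => cls q (tx τ) (ty τ)),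
        sum_frac (ann H) y U hUq (TI N P s' s) tx ty hpos hpos' tw χ₀]
    have h11 : ((1, 1) : ℕ × ℕ) ∈ Phi q (ann H) y U := by
      rw [Phi, mem_filter, mem_product, mem_Icc]
      refine ⟨⟨⟨le_refl _, hU1⟩, ⟨le_refl _, hU1⟩⟩, Nat.coprime_one_left 1, rough_one y, rough_one y, ?_⟩
      unfold cls
      simp only
      rw [un_one', mul_inv_cancel]
      exact one_mem _
    have e2 : ∑ ψ : H, AN N (χ₀ * (ψ : DirichletCharacter ℂ q)) *
        Rs P s' (χ₀ * (ψ : DirichletCharacter ℂ q)) *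
        (starRingEnd ℂ) (Rs P s (χ₀ * (ψ : DirichletCharacter ℂ q))) -
        ((Fintype.card H * G11 N P s' s : ℝ) : ℂ) =
        (((Fintype.card H : ℝ) * Main : ℝ) : ℂ) * ∑ z ∈ (Phi q (ann H) y U).erase (1, 1),
          (g z : ℂ) * χ₀ (cls q z.1 z.2 : ZMod q) := by
      rw [e1, ← Finset.add_sum_erase _ _ h11]
      have e3 : (cls q 1 1 : (ZMod q)ˣ) = 1 := by
        unfold cls
        rw [un_one', mul_inv_cancel]
      simp only
      rw [e3, Units.val_one, map_one, mul_one]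
      unfold G11
      have e4 : ∀ z ∈ (Phi q (ann H) y U).erase (1, 1),
          ((∑ τ ∈ (TI N P s' s).filter (fun τ => z.2 * tx τ = z.1 * ty τ), tw τ : ℝ) : ℂ) *
            χ₀ (cls q z.1 z.2 : ZMod q) = (Main : ℂ) * ((g z : ℂ) * χ₀ (cls q z.1 z.2 : ZMod q)) := by
        intro z _
        rw [hg]
        have : (Main : ℂ) ≠ 0 := by exact_mod_cast hMpos.ne'
        push_cast
        field_simp
      rw [Finset.sum_congr rfl e4, ← Finset.mul_sum]
      push_cast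
      ring
    rw [e2, norm_mul, Complex.norm_real, Real.norm_of_nonneg (by positivity), mul_comm] at hχ
    exact lt_of_mul_lt_mul_left hχ.2 (by positivity)
  exact_mod_cast card_le_card hsub

/-- the diagonal is at most the main term -/
lemma G11_le (N P : Finset ℕ) (hP : ∀ p ∈ P, p.Prime) (hN : ∀ n ∈ N, 0 < n) (s' s : ℕ) :
    G11 N P s' s ≤ (s.choose s' : ℝ) * ES P s := by
  have h1 := frac_sum P N hP hN s' s 1 1 one_pos one_pos (Nat.coprime_one_left 1)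
  simpa [G11] using h1

/-- the diagonal is at least the main term -/
lemma G11_ge (P : Finset ℕ) (y M1 : ℕ) (hP : ∀ p ∈ P, p.Prime) (hPy : ∀ p ∈ P, y < p)
    (s' s : ℕ) (hM1 : ∀ S ∈ P.powersetCard (s - s'), pr S ≤ M1) :
    (s.choose s' : ℝ) * ES P s ≤ G11 (NR y M1) P s' s := by
  unfold G11 ES
  rw [Finset.mul_sum]
  have h1 : ∀ S ∈ P.powersetCard s, (s.choose s' : ℝ) * (1 / (pr S : ℝ)) =
      ∑ S' ∈ S.powersetCard s', 1 / (pr S : ℝ) := by
    intro S hS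
    rw [Finset.sum_const, card_powersetCard, (mem_powersetCard.1 hS).2, nsmul_eq_mul]
  rw [Finset.sum_congr rfl h1, Finset.sum_sigma']
  have hinj : Set.InjOn (fun x : (_ : Finset ℕ) × Finset ℕ => (pr (x.1 \ x.2), x.2, x.1))
      ((P.powersetCard s).sigma fun S => S.powersetCard s' : Set ((_ : Finset ℕ) × Finset ℕ)) := by
    rintro ⟨S, S'⟩ _ ⟨T, T'⟩ _ h
    simp only [Prod.mk.injEq] at h
    obtain ⟨_, rfl, rfl⟩ := h
    rfl
  have h2 : ∀ x ∈ (P.powersetCard s).sigma fun S => S.powersetCard s', 1 / (pr x.1 : ℝ) =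
      tw (pr (x.1 \ x.2), x.2, x.1) := by
    rintro ⟨S, S'⟩ hx
    rw [mem_sigma, mem_powersetCard, mem_powersetCard] at hx
    unfold tw tx ty
    simp only
    have e1 : pr (S \ S') * pr S' = pr S := by
      rw [mul_comm]; exact pr_sdiff hx.2.1
    rw [e1, Real.sqrt_mul_self (by positivity)]
  rw [Finset.sum_congr rfl h2, ← Finset.sum_image (f := tw) hinj]
  apply Finset.sum_le_sum_of_subset_of_nonneg
  · intro τ hτ
    rw [mem_image] at hτ
    obtain ⟨⟨S, S'⟩, hx, rfl⟩ := hτ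
    rw [mem_sigma, mem_powersetCard, mem_powersetCard] at hx
    simp only at hx
    have hsd : S \ S' ⊆ P := sdiff_subset.trans hx.1.1
    rw [mem_filter, TI, mem_product, mem_product, NR, mem_filter, mem_Icc, mem_powersetCard,
      mem_powersetCard]
    refine ⟨⟨⟨⟨pr_pos fun p hp => (hP p (hsd hp)).pos, ?_⟩, ?_⟩, ⟨hx.2.1.trans hx.1.1, hx.2.2⟩,
      hx.1⟩, ?_⟩
    · apply hM1
      rw [mem_powersetCard]
      refine ⟨hsd, ?_⟩
      rw [card_sdiff_of_subset hx.2.1, hx.1.2, hx.2.2]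
    · apply rough_prod
      intro p hp p' hp' hd
      rw [(Nat.prime_dvd_prime_iff_eq hp' (hP p (hsd hp))).1 hd]
      exact hPy p (hsd hp)
    · unfold tx ty
      simp only
      rw [one_mul, one_mul, mul_comm]
      exact pr_sdiff hx.2.1
  · intro τ _ _
    exact tw_nonneg τ

end Pool.Agent.V8H32.Cos
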