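import Mathlib
import Pool.Agent.V8H32.Cos.Alpha

/-! The large parts of the first moment, and the mean values of the mollifier. -/

set_option autoImplicit false

namespace Pool.Agent.V8H32.Cos
open Finset Pool.Agent.R311.RES
open scoped Classical

variable {q : ℕ} [Fact q.Prime]

lemma q_sub_nonneg : (0 : ℝ) ≤ (q : ℝ) - 1 := by
  have : (1 : ℝ) ≤ q := by exact_mod_cast (Nat.Prime.one_lt (Fact.out : q.Prime)).le
  linarith

/-- Chebyshev's inequality for the averages over the cosets -/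
lemma second_count {ι : Type*} (H : Subgroup (DirichletCharacter ℂ q)) (f : (ZMod q)ˣ → ℂ)
    (I : Finset ι) (b : ι → ℂ) (v : ι → (ZMod q)ˣ) (M B t : ℝ)
    (hM : ∀ c : (ZMod q)ˣ, ∑ g : (ZMod q)ˣ, (if g ∈ ann H then ‖f (g * c)‖ ^ 2 else 0) ≤ M)
    (hB : ∑ i ∈ I, ‖b i‖ ≤ B) (ht : 0 ≤ t) :
    ((univ.filter (fun χ₀ : DirichletCharacter ℂ q => t * (Fintype.card H : ℝ) <
      ‖∑ ψ : H, tr f (χ₀ * (ψ : DirichletCharacter ℂ q)) *
        ∑ i ∈ I, b i * (χ₀ * (ψ : DirichletCharacter ℂ q)) (v i : ZMod q)‖)).card : ℝ) * t ^ 2 ≤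
      (q - 1) * (B ^ 2 * M) := by
  have h1 := second H f I b v M hM
  have hH0 : 0 < (Fintype.card H : ℝ) := by exact_mod_cast Fintype.card_pos
  have hq1 := q_sub_nonneg (q := q)
  have hM0 : 0 ≤ M := le_trans (Finset.sum_nonneg fun g _ => by
    split_ifs <;> positivity) (hM 1)
  have h2 := markov (univ : Finset (DirichletCharacter ℂ q))
    (fun χ₀ => ‖∑ ψ : H, tr f (χ₀ * (ψ : DirichletCharacter ℂ q)) *
        ∑ i ∈ I, b i * (χ₀ * (ψ : DirichletCharacter ℂ q)) (v i : ZMod q)‖ ^ 2)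
    (fun _ _ => by positivity) ((t * (Fintype.card H : ℝ)) ^ 2)
  have h3 : (univ.filter (fun χ₀ : DirichletCharacter ℂ q => t * (Fintype.card H : ℝ) <
      ‖∑ ψ : H, tr f (χ₀ * (ψ : DirichletCharacter ℂ q)) *
        ∑ i ∈ I, b i * (χ₀ * (ψ : DirichletCharacter ℂ q)) (v i : ZMod q)‖)).card ≤
      (univ.filter (fun χ₀ : DirichletCharacter ℂ q => (t * (Fintype.card H : ℝ)) ^ 2 <
      ‖∑ ψ : H, tr f (χ₀ * (ψ : DirichletCharacter ℂ q)) *
        ∑ i ∈ I, b i * (χ₀ * (ψ : DirichletCharacter ℂ q)) (v i : ZMod q)‖ ^ 2)).card := by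
    apply card_le_card
    intro χ hχ
    rw [mem_filter] at hχ ⊢
    exact ⟨hχ.1, pow_lt_pow_left₀ hχ.2 (by positivity) (by norm_num)⟩
  have h4 : ((univ.filter (fun χ₀ : DirichletCharacter ℂ q => t * (Fintype.card H : ℝ) <
      ‖∑ ψ : H, tr f (χ₀ * (ψ : DirichletCharacter ℂ q)) *
        ∑ i ∈ I, b i * (χ₀ * (ψ : DirichletCharacter ℂ q)) (v i : ZMod q)‖)).card : ℝ) *
      (t * (Fintype.card H : ℝ)) ^ 2 ≤ (q - 1) * (Fintype.card H : ℝ) ^ 2 * ((∑ i ∈ I, ‖b i‖) ^ 2 * M) := by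
    refine le_trans ?_ h1
    refine le_trans ?_ h2
    apply mul_le_mul_of_nonneg_right _ (by positivity)
    exact_mod_cast h3
  have h5 : (∑ i ∈ I, ‖b i‖) ^ 2 * M ≤ B ^ 2 * M := by
    apply mul_le_mul_of_nonneg_right _ hM0
    exact pow_le_pow_left₀ (Finset.sum_nonneg fun i _ => norm_nonneg _) hB 2
  have h6 : (q - 1) * (Fintype.card H : ℝ) ^ 2 * ((∑ i ∈ I, ‖b i‖) ^ 2 * M) ≤
      (q - 1) * (Fintype.card H : ℝ) ^ 2 * (B ^ 2 * M) := mul_le_mul_of_nonneg_left h5 (by positivity)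
  have h7 : (((univ.filter (fun χ₀ : DirichletCharacter ℂ q => t * (Fintype.card H : ℝ) <
      ‖∑ ψ : H, tr f (χ₀ * (ψ : DirichletCharacter ℂ q)) *
        ∑ i ∈ I, b i * (χ₀ * (ψ : DirichletCharacter ℂ q)) (v i : ZMod q)‖)).card : ℝ) * t ^ 2) *
      (Fintype.card H : ℝ) ^ 2 ≤ ((q - 1) * (B ^ 2 * M)) * (Fintype.card H : ℝ) ^ 2 := by
    calc _ = _ := by ring
      _ ≤ _ := h4.trans h6
      _ = _ := by ring
  exact le_of_mul_le_mul_right h7 (by positivity)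

lemma inv_sqrt_le {n : ℕ} (hn : 0 < n) : 1 / Real.sqrt n ≤ 1 := by
  rw [div_le_one (Real.sqrt_pos.2 (by exact_mod_cast hn)), Real.one_le_sqrt]
  exact_mod_cast hn

lemma sum_Rs_le (P : Finset ℕ) (Y s : ℕ) (hP : ∀ p ∈ P, p.Prime ∧ p ≤ Y) :
    ∑ S ∈ P.powersetCard s, 1 / Real.sqrt (pr S) ≤ (Y : ℝ) ^ s := by
  have h1 : ∀ S ∈ P.powersetCard s, 1 / Real.sqrt (pr S) ≤ 1 := fun S hS =>
    inv_sqrt_le (pr_pos fun p hp => (hP p ((mem_powersetCard.1 hS).1 hp)).1.pos)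
  refine (Finset.sum_le_sum h1).trans ?_
  rw [Finset.sum_const, card_powersetCard, nsmul_eq_mul, mul_one]
  have h2 : P.card ≤ Y := by
    calc P.card ≤ (Icc 1 Y).card := card_le_card fun p hp => by
          rw [mem_Icc]; exact ⟨(hP p hp).1.one_lt.le, (hP p hp).2⟩
      _ = Y := by simp
  have h3 : P.card.choose s ≤ Y ^ s := (Nat.choose_le_pow _ _).trans (Nat.pow_le_pow_left h2 s)
  exact_mod_cast h3

/-- the product of two resonators as a sum over pairs -/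
lemma Rs_pair (P : Finset ℕ) (s' s : ℕ) (χ : DirichletCharacter ℂ q) :
    Rs P s' χ * (starRingEnd ℂ) (Rs P s χ) = ∑ i ∈ P.powersetCard s' ×ˢ P.powersetCard s,
      ((1 / Real.sqrt (pr i.1) * (1 / Real.sqrt (pr i.2)) : ℝ) : ℂ) *
        χ (un q (pr i.1) * (un q (pr i.2))⁻¹ : (ZMod q)ˣ) := by
  unfold Rs
  rw [map_sum, Finset.sum_mul_sum, ← Finset.sum_product']
  apply Finset.sum_congr rfl
  intro i _
  rw [map_mul, Complex.conj_ofReal, ← chi_inv, Units.val_mul, map_mul]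
  push_cast
  ring

/-- the part with large `n` -/
theorem beta (H : Subgroup (DirichletCharacter ℂ q)) (f : (ZMod q)ˣ → ℂ) (P : Finset ℕ)
    (Y s' s : ℕ) (hP : ∀ p ∈ P, p.Prime ∧ p ≤ Y) (M t : ℝ)
    (hM : ∀ c : (ZMod q)ˣ, ∑ g : (ZMod q)ˣ, (if g ∈ ann H then ‖f (g * c)‖ ^ 2 else 0) ≤ M)
    (ht : 0 ≤ t) :
    ((univ.filter (fun χ₀ : DirichletCharacter ℂ q => t * (Fintype.card H : ℝ) <
      ‖∑ ψ : H, tr f (χ₀ * (ψ : DirichletCharacter ℂ q)) *
        (Rs P s' (χ₀ * (ψ : DirichletCharacter ℂ q)) *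
        (starRingEnd ℂ) (Rs P s (χ₀ * (ψ : DirichletCharacter ℂ q))))‖)).card : ℝ) * t ^ 2 ≤
      (q - 1) * (((Y : ℝ) ^ s' * (Y : ℝ) ^ s) ^ 2 * M) := by
  have h1 := second_count H f (P.powersetCard s' ×ˢ P.powersetCard s)
    (fun i => ((1 / Real.sqrt (pr i.1) * (1 / Real.sqrt (pr i.2)) : ℝ) : ℂ))
    (fun i => un q (pr i.1) * (un q (pr i.2))⁻¹) M ((Y : ℝ) ^ s' * (Y : ℝ) ^ s) t hM (by
      have e1 : ∀ i ∈ P.powersetCard s' ×ˢ P.powersetCard s,
          ‖((1 / Real.sqrt (pr i.1) * (1 / Real.sqrt (pr i.2)) : ℝ) : ℂ)‖ =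
          1 / Real.sqrt (pr i.1) * (1 / Real.sqrt (pr i.2)) := by
        intro i _
        rw [Complex.norm_real, Real.norm_of_nonneg (by positivity)]
      rw [Finset.sum_congr rfl e1, Finset.sum_product' (f := fun S' S =>
        1 / Real.sqrt (pr S') * (1 / Real.sqrt (pr S))), ← Finset.sum_mul_sum]
      exact mul_le_mul (sum_Rs_le P Y s' hP) (sum_Rs_le P Y s hP)
        (Finset.sum_nonneg fun _ _ => by positivity) (by positivity)) ht
  simp only [Rs_pair]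
  exact h1

lemma card_DD (z y l : ℕ) (hy : 1 ≤ y) : ((DD z y l).card : ℝ) ≤ 2 ^ z * ((l + 1) * (y : ℝ) ^ l) := by
  unfold DD
  rw [card_product, card_powerset]
  have h1 : (Q1 z).card ≤ z := by
    unfold Q1
    refine (card_filter_le _ _).trans ?_
    simp
  have h2 : (Q2 z y).card ≤ y := by
    unfold Q2
    refine (card_filter_le _ _).trans ?_
    rw [Nat.card_Ioc]
    omega
  have h3 : ((Q2 z y).powerset.filter (fun D => D.card ≤ l)).card ≤ (l + 1) * y ^ l := by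
    have e1 : (Q2 z y).powerset.filter (fun D => D.card ≤ l) ⊆
        (range (l + 1)).biUnion (fun i => (Q2 z y).powersetCard i) := by
      intro D hD
      rw [mem_filter, mem_powerset] at hD
      rw [mem_biUnion]
      exact ⟨D.card, mem_range.2 (by omega), mem_powersetCard.2 ⟨hD.1, rfl⟩⟩
    refine (card_le_card e1).trans (card_biUnion_le.trans ?_)
    calc ∑ i ∈ range (l + 1), ((Q2 z y).powersetCard i).card ≤ ∑ i ∈ range (l + 1), y ^ l := by
          apply Finset.sum_le_sum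
          intro i hi
          rw [mem_range] at hi
          rw [card_powersetCard]
          exact (Nat.choose_le_pow _ _).trans ((Nat.pow_le_pow_left h2 i).trans
            (Nat.pow_le_pow_right hy (by omega)))
      _ = _ := by rw [Finset.sum_const, card_range, smul_eq_mul]
  have h4 : 2 ^ (Q1 z).card * ((Q2 z y).powerset.filter (fun D => D.card ≤ l)).card ≤
      2 ^ z * ((l + 1) * y ^ l) :=
    Nat.mul_le_mul (Nat.pow_le_pow_right (by norm_num) h1) h3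
  exact_mod_cast h4

/-- the part with the mollifier -/
theorem gamma (H : Subgroup (DirichletCharacter ℂ q)) (f : (ZMod q)ˣ → ℂ) (P : Finset ℕ)
    (z y l Y s' s : ℕ) (hP : ∀ p ∈ P, p.Prime ∧ p ≤ Y) (M t : ℝ)
    (hM : ∀ c : (ZMod q)ˣ, ∑ g : (ZMod q)ˣ, (if g ∈ ann H then ‖f (g * c)‖ ^ 2 else 0) ≤ M)
    (ht : 0 ≤ t) :
    ((univ.filter (fun χ₀ : DirichletCharacter ℂ q => t * (Fintype.card H : ℝ) <
      ‖∑ ψ : H, tr f (χ₀ * (ψ : DirichletCharacter ℂ q)) *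
        (Mo z y l (χ₀ * (ψ : DirichletCharacter ℂ q)) *
        (Rs P s' (χ₀ * (ψ : DirichletCharacter ℂ q)) *
        (starRingEnd ℂ) (Rs P s (χ₀ * (ψ : DirichletCharacter ℂ q)))))‖)).card : ℝ) * t ^ 2 ≤
      (q - 1) * ((((DD z y l).card : ℝ) * ((Y : ℝ) ^ s' * (Y : ℝ) ^ s)) ^ 2 * M) := by
  have h1 := second_count H f (DD z y l ×ˢ (P.powersetCard s' ×ˢ P.powersetCard s))
    (fun i => ((sg i.1 * (1 / Real.sqrt (dd i.1)) *
      (1 / Real.sqrt (pr i.2.1) * (1 / Real.sqrt (pr i.2.2))) : ℝ) : ℂ))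
    (fun i => un q (dd i.1) * (un q (pr i.2.1) * (un q (pr i.2.2))⁻¹)) M
    (((DD z y l).card : ℝ) * ((Y : ℝ) ^ s' * (Y : ℝ) ^ s)) t hM (by
      have e1 : ∀ i ∈ DD z y l ×ˢ (P.powersetCard s' ×ˢ P.powersetCard s),
          ‖((sg i.1 * (1 / Real.sqrt (dd i.1)) *
            (1 / Real.sqrt (pr i.2.1) * (1 / Real.sqrt (pr i.2.2))) : ℝ) : ℂ)‖ ≤
          1 * (1 / Real.sqrt (pr i.2.1) * (1 / Real.sqrt (pr i.2.2))) := by
        intro i hi
        rw [mem_product] at hi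
        rw [Complex.norm_real, norm_mul, Real.norm_of_nonneg (by positivity :
          0 ≤ 1 / Real.sqrt (pr i.2.1) * (1 / Real.sqrt (pr i.2.2)))]
        apply mul_le_mul_of_nonneg_right _ (by positivity)
        rw [norm_mul, Real.norm_of_nonneg (by positivity : 0 ≤ 1 / Real.sqrt (dd i.1))]
        have : ‖sg i.1‖ = 1 := by
          unfold sg
          rw [norm_pow, norm_neg, norm_one, one_pow]
        rw [this, one_mul]
        exact inv_sqrt_le (dd_struct hi.1).2.2.2.1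
      refine (Finset.sum_le_sum e1).trans ?_
      rw [Finset.sum_product' (f := fun (_ : Finset ℕ × Finset ℕ) (i : Finset ℕ × Finset ℕ) =>
        1 * (1 / Real.sqrt (pr i.1) * (1 / Real.sqrt (pr i.2)))), Finset.sum_const, nsmul_eq_mul]
      apply mul_le_mul_of_nonneg_left _ (by positivity)
      simp only [one_mul]
      rw [Finset.sum_product' (f := fun S' S =>
        1 / Real.sqrt (pr S') * (1 / Real.sqrt (pr S))), ← Finset.sum_mul_sum]
      exact mul_le_mul (sum_Rs_le P Y s' hP) (sum_Rs_le P Y s hP)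
        (Finset.sum_nonneg fun _ _ => by positivity) (by positivity)) ht
  have e2 : ∀ χ : DirichletCharacter ℂ q, Mo z y l χ * (Rs P s' χ * (starRingEnd ℂ) (Rs P s χ)) =
      ∑ i ∈ DD z y l ×ˢ (P.powersetCard s' ×ˢ P.powersetCard s),
        ((sg i.1 * (1 / Real.sqrt (dd i.1)) *
          (1 / Real.sqrt (pr i.2.1) * (1 / Real.sqrt (pr i.2.2))) : ℝ) : ℂ) *
        χ (un q (dd i.1) * (un q (pr i.2.1) * (un q (pr i.2.2))⁻¹) : (ZMod q)ˣ) := by
    intro χ
    rw [Rs_pair]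
    unfold Mo
    rw [Finset.sum_mul_sum, ← Finset.sum_product']
    apply Finset.sum_congr rfl
    intro i _
    rw [Units.val_mul (un q (dd i.1)), map_mul]
    push_cast
    ring
  simp only [e2]
  exact h1

end Pool.Agent.V8H32.Cos
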