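import Mathlib
import Pool.Agent.V8H32.Cos.Beta

/-! The mean square of the mollified resonator over a coset. -/

set_option autoImplicit false

namespace Pool.Agent.V8H32.Cos
open Finset Pool.Agent.R311.RES
open scoped Classical

lemma exp_partial (V : ℝ) (hV : 0 ≤ V) (n : ℕ) : ∑ i ∈ range n, V ^ i / (i.factorial : ℝ) ≤ Real.exp V :=
  Real.sum_le_exp_of_nonneg hV n

lemma ptw (x V : ℝ) (hx : 0 ≤ x) (hV : 0 < V) (m l : ℕ) (hml : m ≤ l) :
    ∑ i ∈ range (l + 1), x ^ i / (i.factorial : ℝ) ≤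
      Real.exp V + Real.exp V * (x / V) ^ m + ∑ i ∈ Ico (m + 1) (l + 1), x ^ i / (i.factorial : ℝ) := by
  rw [Finset.range_eq_Ico, ← Finset.sum_Ico_consecutive _ (Nat.zero_le (m + 1)) (by omega : m + 1 ≤ l + 1)]
  apply add_le_add_left
  rw [← Finset.range_eq_Ico]
  have hE := exp_partial V hV.le (m + 1)
  rcases le_or_gt x V with h | h
  · have h1 : ∑ i ∈ range (m + 1), x ^ i / (i.factorial : ℝ) ≤
        ∑ i ∈ range (m + 1), V ^ i / (i.factorial : ℝ) := by
      apply Finset.sum_le_sum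
      intro i _
      apply div_le_div_of_nonneg_right (pow_le_pow_left₀ hx h i) (by positivity)
    have h2 : 0 ≤ Real.exp V * (x / V) ^ m := by positivity
    linarith
  · have h1 : ∑ i ∈ range (m + 1), x ^ i / (i.factorial : ℝ) ≤
        (x / V) ^ m * ∑ i ∈ range (m + 1), V ^ i / (i.factorial : ℝ) := by
      rw [Finset.mul_sum]
      apply Finset.sum_le_sum
      intro i hi
      rw [mem_range] at hi
      have e1 : x ^ i = (x / V) ^ i * V ^ i := by
        rw [div_pow]; field_simp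
      have e2 : (x / V) ^ i ≤ (x / V) ^ m := by
        apply pow_le_pow_right₀ _ (by omega)
        rw [one_le_div hV]; exact h.le
      rw [e1, mul_div_assoc]
      exact mul_le_mul_of_nonneg_right e2 (by positivity)
    have h2 : (x / V) ^ m * ∑ i ∈ range (m + 1), V ^ i / (i.factorial : ℝ) ≤
        (x / V) ^ m * Real.exp V := mul_le_mul_of_nonneg_left hE (by positivity)
    have h3 : 0 < Real.exp V := Real.exp_pos V
    linarith

lemma ptw_sq (x V : ℝ) (hx : 0 ≤ x) (hV : 0 < V) (m l : ℕ) (hml : m ≤ l) :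
    (∑ i ∈ range (l + 1), x ^ i / (i.factorial : ℝ)) ^ 2 ≤
      3 * (Real.exp (2 * V) + Real.exp (2 * V) / V ^ (2 * m) * x ^ (2 * m) +
        l * ∑ i ∈ Ico (m + 1) (l + 1), 1 / (i.factorial : ℝ) ^ 2 * x ^ (2 * i)) := by
  have h1 := ptw x V hx hV m l hml
  have h0 : 0 ≤ ∑ i ∈ range (l + 1), x ^ i / (i.factorial : ℝ) := by positivity
  have h2 := pow_le_pow_left₀ h0 h1 2
  refine h2.trans ?_
  set a := Real.exp V with ha
  set b := Real.exp V * (x / V) ^ m with hb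
  set c := ∑ i ∈ Ico (m + 1) (l + 1), x ^ i / (i.factorial : ℝ) with hc
  have h3 : (a + b + c) ^ 2 ≤ 3 * (a ^ 2 + b ^ 2 + c ^ 2) := by
    nlinarith [sq_nonneg (a - b), sq_nonneg (b - c), sq_nonneg (a - c)]
  refine h3.trans ?_
  apply mul_le_mul_of_nonneg_left _ (by norm_num)
  have e1 : a ^ 2 = Real.exp (2 * V) := by
    rw [ha, sq, ← Real.exp_add]; congr 1; ring
  have e2 : b ^ 2 = Real.exp (2 * V) / V ^ (2 * m) * x ^ (2 * m) := by
    rw [hb, mul_pow, ← ha, e1, ← pow_mul, mul_comm m 2, div_pow]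
    field_simp
  have e3 : c ^ 2 ≤ l * ∑ i ∈ Ico (m + 1) (l + 1), 1 / (i.factorial : ℝ) ^ 2 * x ^ (2 * i) := by
    have e4 : c ^ 2 ≤ ((Ico (m + 1) (l + 1)).card : ℝ) *
        ∑ i ∈ Ico (m + 1) (l + 1), (x ^ i / (i.factorial : ℝ)) ^ 2 := sq_sum_le_card_mul_sum_sq
    have e5 : ∑ i ∈ Ico (m + 1) (l + 1), (x ^ i / (i.factorial : ℝ)) ^ 2 =
        ∑ i ∈ Ico (m + 1) (l + 1), 1 / (i.factorial : ℝ) ^ 2 * x ^ (2 * i) := by
      apply Finset.sum_congr rfl
      intro i _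
      rw [div_pow, ← pow_mul, mul_comm i 2]
      ring
    rw [e5] at e4
    refine e4.trans ?_
    apply mul_le_mul_of_nonneg_right _ (by positivity)
    rw [Nat.card_Ico]
    exact_mod_cast (by omega : l + 1 - (m + 1) ≤ l)
  rw [e1, e2]
  linarith

/-- `i ^ i ≤ e ^ i i!` -/
lemma pow_self_le (i : ℕ) : (i : ℝ) ^ i ≤ Real.exp i * (i.factorial : ℝ) := by
  have h1 : (i : ℝ) ^ i / (i.factorial : ℝ) ≤ Real.exp i := by
    have := Real.pow_div_factorial_le_exp (i : ℝ) (by positivity) i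
    exact this
  rwa [div_le_iff₀ (by positivity)] at h1

theorem upper_abs {T : Type*} [Fintype T] (x w : T → ℝ) (hx : ∀ t, 0 ≤ x t) (hw : ∀ t, 0 ≤ w t)
    (l m : ℕ) (hml : m ≤ l) (V C A : ℝ) (hV : 0 < V) (hC : 0 ≤ C) (hA : 0 ≤ A)
    (hVm : Real.exp 1 * m * C ≤ V ^ 2)
    (h0 : ∑ t, w t ≤ 2 * A)
    (hY : ∀ i : ℕ, m ≤ i → i ≤ l → ∑ t, x t ^ (2 * i) * w t ≤
      (l + 1) * Real.exp m * ((i : ℝ) ^ i * (C ^ i * A))) :
    ∑ t, (∑ i ∈ range (l + 1), x t ^ i / (i.factorial : ℝ)) ^ 2 * w t ≤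
      9 * (l + 1) ^ 3 * Real.exp (2 * V) * Real.exp (9 * C) * A := by
  have h1 : ∑ t, (∑ i ∈ range (l + 1), x t ^ i / (i.factorial : ℝ)) ^ 2 * w t ≤
      ∑ t, 3 * (Real.exp (2 * V) * w t + Real.exp (2 * V) / V ^ (2 * m) * (x t ^ (2 * m) * w t) +
        l * ∑ i ∈ Ico (m + 1) (l + 1), 1 / (i.factorial : ℝ) ^ 2 * (x t ^ (2 * i) * w t)) := by
    apply Finset.sum_le_sum
    intro t _
    have := mul_le_mul_of_nonneg_right (ptw_sq (x t) V (hx t) hV m l hml) (hw t)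
    refine this.trans (le_of_eq ?_)
    have e1 : (∑ i ∈ Ico (m + 1) (l + 1), 1 / (i.factorial : ℝ) ^ 2 * x t ^ (2 * i)) * w t =
        ∑ i ∈ Ico (m + 1) (l + 1), 1 / (i.factorial : ℝ) ^ 2 * (x t ^ (2 * i) * w t) := by
      rw [Finset.sum_mul]
      exact Finset.sum_congr rfl fun i _ => by ring
    rw [← e1]; ring
  refine h1.trans ?_
  rw [← Finset.mul_sum, Finset.sum_add_distrib, Finset.sum_add_distrib, ← Finset.mul_sum,
    ← Finset.mul_sum, ← Finset.mul_sum, Finset.sum_comm]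
  have h2 : ∑ i ∈ Ico (m + 1) (l + 1), ∑ t, 1 / (i.factorial : ℝ) ^ 2 * (x t ^ (2 * i) * w t) =
      ∑ i ∈ Ico (m + 1) (l + 1), 1 / (i.factorial : ℝ) ^ 2 * ∑ t, x t ^ (2 * i) * w t :=
    Finset.sum_congr rfl fun i _ => (Finset.mul_sum _ _ _).symm
  rw [h2]
  have hE1 : 1 ≤ Real.exp (2 * V) := Real.one_le_exp (by positivity)
  have hE2 : 1 ≤ Real.exp (9 * C) := Real.one_le_exp (by positivity)
  -- second term
  have h3 : Real.exp (2 * V) / V ^ (2 * m) * ∑ t, x t ^ (2 * m) * w t ≤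
      Real.exp (2 * V) * ((l + 1) * A) := by
    have e1 := hY m le_rfl hml
    have e2 : Real.exp m * ((m : ℝ) ^ m * C ^ m) ≤ V ^ (2 * m) := by
      have : Real.exp m * ((m : ℝ) ^ m * C ^ m) = (Real.exp 1 * m * C) ^ m := by
        rw [mul_pow, mul_pow, ← Real.exp_nat_mul]
        simp only [mul_one]
        ring
      rw [this, pow_mul]
      exact pow_le_pow_left₀ (by positivity) hVm m
    rw [div_mul_eq_mul_div, div_le_iff₀ (by positivity), mul_assoc (Real.exp (2 * V))]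
    apply mul_le_mul_of_nonneg_left _ (Real.exp_pos _).le
    refine e1.trans ?_
    calc (l + 1) * Real.exp m * ((m : ℝ) ^ m * (C ^ m * A)) =
          ((l + 1) * A) * (Real.exp m * ((m : ℝ) ^ m * C ^ m)) := by ring
      _ ≤ ((l + 1) * A) * V ^ (2 * m) := mul_le_mul_of_nonneg_left e2 (by positivity)
  -- third term
  have h4 : ∀ i ∈ Ico (m + 1) (l + 1), 1 / (i.factorial : ℝ) ^ 2 * ∑ t, x t ^ (2 * i) * w t ≤
      (l + 1) * Real.exp (9 * C) * A := by
    intro i hi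
    rw [mem_Ico] at hi
    have e1 := hY i (by omega) (by omega)
    have hf : (0 : ℝ) < (i.factorial : ℝ) := by positivity
    have e2 : Real.exp m ≤ Real.exp 1 ^ i := by
      rw [← Real.exp_nat_mul, mul_one, Real.exp_le_exp]
      exact_mod_cast (by omega : m ≤ i)
    have e3 := pow_self_le i
    have e4 : (Real.exp 1 * Real.exp 1 * C) ^ i / (i.factorial : ℝ) ≤ Real.exp (9 * C) := by
      have e5 := Real.pow_div_factorial_le_exp (Real.exp 1 * Real.exp 1 * C) (by positivity) i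
      refine e5.trans ?_
      rw [Real.exp_le_exp]
      apply mul_le_mul_of_nonneg_right _ hC
      have := Real.exp_one_lt_d9
      nlinarith [Real.exp_pos 1]
    calc 1 / (i.factorial : ℝ) ^ 2 * ∑ t, x t ^ (2 * i) * w t
        ≤ 1 / (i.factorial : ℝ) ^ 2 * ((l + 1) * Real.exp m * ((i : ℝ) ^ i * (C ^ i * A))) :=
          mul_le_mul_of_nonneg_left e1 (by positivity)
      _ ≤ 1 / (i.factorial : ℝ) ^ 2 * ((l + 1) * Real.exp 1 ^ i *
            ((Real.exp i * (i.factorial : ℝ)) * (C ^ i * A))) := by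
          apply mul_le_mul_of_nonneg_left _ (by positivity)
          apply mul_le_mul
          · exact mul_le_mul_of_nonneg_left e2 (by positivity)
          · exact mul_le_mul_of_nonneg_right e3 (by positivity)
          · positivity
          · positivity
      _ = (l + 1) * A * ((Real.exp 1 * Real.exp 1 * C) ^ i / (i.factorial : ℝ)) := by
          have : Real.exp i = Real.exp 1 ^ i := by rw [← Real.exp_nat_mul, mul_one]
          rw [this, mul_pow, mul_pow]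
          field_simp
      _ ≤ (l + 1) * A * Real.exp (9 * C) := mul_le_mul_of_nonneg_left e4 (by positivity)
      _ = _ := by ring
  have h5 : ∑ i ∈ Ico (m + 1) (l + 1), 1 / (i.factorial : ℝ) ^ 2 * ∑ t, x t ^ (2 * i) * w t ≤
      l * ((l + 1) * Real.exp (9 * C) * A) := by
    refine (Finset.sum_le_sum h4).trans ?_
    rw [Finset.sum_const, nsmul_eq_mul, Nat.card_Ico]
    apply mul_le_mul_of_nonneg_right _ (by positivity)
    exact_mod_cast (by omega : l + 1 - (m + 1) ≤ l)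
  have hl0 : (0 : ℝ) ≤ l := by positivity
  set E1 := Real.exp (2 * V) with hE1d
  set E2 := Real.exp (9 * C) with hE2d
  have h6 : l * ∑ i ∈ Ico (m + 1) (l + 1), 1 / (i.factorial : ℝ) ^ 2 * ∑ t, x t ^ (2 * i) * w t ≤
      l * (l * ((l + 1) * E2 * A)) := mul_le_mul_of_nonneg_left h5 hl0
  have h7 : E1 * ∑ t, w t ≤ E1 * (2 * A) := mul_le_mul_of_nonneg_left h0 (by linarith)
  have hEE : 1 ≤ E1 * E2 := by nlinarith
  have k1 : E1 * (2 * A) ≤ 2 * (E1 * E2 * A) := by nlinarith [mul_nonneg (by linarith : 0 ≤ E1) hA]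
  have k2 : E1 * ((l + 1) * A) ≤ (l + 1) * (E1 * E2 * A) := by
    have : E1 * A ≤ E1 * E2 * A := by nlinarith [mul_nonneg (by linarith : 0 ≤ E1) hA]
    nlinarith
  have k3 : l * (l * ((l + 1) * E2 * A)) ≤ l ^ 2 * (l + 1) * (E1 * E2 * A) := by
    have : E2 * A ≤ E1 * E2 * A := by nlinarith [mul_nonneg (by linarith : 0 ≤ E2) hA]
    have h8 : 0 ≤ (l : ℝ) ^ 2 * (l + 1) := by positivity
    calc l * (l * ((l + 1) * E2 * A)) = l ^ 2 * (l + 1) * (E2 * A) := by ring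
      _ ≤ _ := mul_le_mul_of_nonneg_left this h8
  have hEA : 0 ≤ E1 * E2 * A := mul_nonneg (by linarith) hA
  have k4 : (2 + (l + 1) + (l : ℝ) ^ 2 * (l + 1)) ≤ 3 * ((l : ℝ) + 1) ^ 3 := by
    nlinarith [pow_nonneg hl0 3, pow_nonneg hl0 2]
  calc 3 * (E1 * ∑ t, w t + E1 / V ^ (2 * m) * ∑ t, x t ^ (2 * m) * w t +
        l * ∑ i ∈ Ico (m + 1) (l + 1), 1 / (i.factorial : ℝ) ^ 2 * ∑ t, x t ^ (2 * i) * w t)
      ≤ 3 * (2 * (E1 * E2 * A) + (l + 1) * (E1 * E2 * A) + l ^ 2 * (l + 1) * (E1 * E2 * A)) := by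
        linarith
    _ = 3 * (2 + (l + 1) + (l : ℝ) ^ 2 * (l + 1)) * (E1 * E2 * A) := by ring
    _ ≤ 3 * (3 * ((l : ℝ) + 1) ^ 3) * (E1 * E2 * A) := by
        apply mul_le_mul_of_nonneg_right _ hEA
        linarith
    _ = _ := by ring

end Pool.Agent.V8H32.Cos
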