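import Mathlib
import Pool.Agent.V8H32.Cos.Upper

/-! The core inequality. -/

set_option autoImplicit false

namespace Pool.Agent.V8H32.Cos
open Finset Pool.Agent.R311.RES
open scoped Classical

variable {q : ℕ} [Fact q.Prime]

/-- the sum of the squares of the divisor function over the large elements of a coset -/
noncomputable def DS (K : Subgroup (ZMod q)ˣ) (M : ℕ) (c : (ZMod q)ˣ) : ℝ :=
  ∑ g : (ZMod q)ˣ, (if g ∈ K ∧ M < vl (g * c) then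
      (((vl (g * c)).divisors.card : ℕ) : ℝ) ^ 2 * (1 / (vl (g * c) : ℝ)) else 0)

/-- parameters -/
structure Par (q : ℕ) [Fact q.Prime] (ε : ℝ) (z y l M0 M1 r j m Y : ℕ) (P : Finset ℕ)
    (θ V0 CD : ℝ) : Prop where
  hε : 0 < ε
  hε1 : ε ≤ 1
  hz : 1 ≤ z
  hzy : z ≤ y
  hy : 2 ≤ y
  hP : ∀ p ∈ P, p.Prime ∧ y < p ∧ p ≤ Y
  hG : 1 ≤ ∑ p ∈ P, 1 / (p : ℝ)
  hr1 : 1 ≤ r
  hr : 2 * r ≤ y
  hj : 64 * j ^ 2 ≤ r
  hθ0 : 0 ≤ θ
  hθ8 : θ ≤ ε / 8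
  hθ : (4 * r + 4 : ℝ) ≤ (y : ℝ) ^ θ
  hM1 : 1 ≤ M1
  hM10 : M1 ≤ M0
  hM1l : M1 ≤ z ^ l
  hM1j : Y ^ j ≤ M1
  hMq : ∀ D ∈ DD z y l, M0 * dd D < q
  hU : ((4 * (M1 * Y ^ r) ^ 2 : ℕ) : ℝ) ≤ (q : ℝ) ^ (ε / 8)
  hΛ : 1 ≤ Real.log q
  hbig : Real.log 4 + 2 * Real.log (Real.log q) -
      2 * Real.log (1 / 4 / ((Nat.log 2 (M1 * Y ^ r) + 1 : ℕ) : ℝ) ^ 2) ≤ ε / 8 * Real.log y
  hml : m ≤ l
  hV0 : 0 < V0
  hVm : Real.exp 1 * m * CD ≤ V0 ^ 2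
  hCD : ∑ p ∈ Q2 z y, 1 / (p : ℝ) ≤ CD
  hsz : y ^ l * Y ^ r < q

section
variable {ε : ℝ} {z y l M0 M1 r j m Y : ℕ} {P : Finset ℕ} {θ V0 CD : ℝ}

lemma Par.Y2 (h : Par q ε z y l M0 M1 r j m Y P θ V0 CD) : y ≤ Y := by
  obtain ⟨p, hp⟩ : P.Nonempty := by
    by_contra hcon
    rw [Finset.not_nonempty_iff_eq_empty] at hcon
    have := h.hG
    rw [hcon, Finset.sum_empty] at this
    norm_num at this
  have := h.hP p hp
  omega

lemma Par.jr (h : Par q ε z y l M0 M1 r j m Y P θ V0 CD) : j ≤ r := by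
  have := h.hj
  nlinarith

lemma Par.yq (h : Par q ε z y l M0 M1 r j m Y P θ V0 CD) : y < q ∧ Y ^ r < q ∧ Y < q ∧ 1 ≤ Y := by
  have h1 := h.Y2
  have h2 := h.hy
  have h3 := h.hr1
  have hY1 : 1 ≤ Y := by omega
  have h4 : Y ≤ Y ^ r := Nat.le_self_pow (by omega) Y
  have h5 : Y ^ r ≤ y ^ l * Y ^ r := Nat.le_mul_of_pos_left _ (pow_pos (by omega) l)
  have h6 := h.hsz
  omega

lemma Par.Pc (h : Par q ε z y l M0 M1 r j m Y P θ V0 CD) : ∀ p ∈ P, p.Coprime q := by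
  intro p hp
  have := h.hP p hp
  exact cop_of_lt this.1.pos (this.2.2.trans_lt h.yq.2.2.1)

lemma Par.prY (h : Par q ε z y l M0 M1 r j m Y P θ V0 CD) (s : ℕ) :
    ∀ S ∈ P.powersetCard s, pr S ≤ Y ^ s := by
  intro S hS
  rw [mem_powersetCard] at hS
  calc pr S ≤ ∏ _p ∈ S, Y := Finset.prod_le_prod' fun p hp => (h.hP p (hS.1 hp)).2.2
    _ = Y ^ s := by rw [Finset.prod_const, hS.2]

lemma Par.prYr (h : Par q ε z y l M0 M1 r j m Y P θ V0 CD) (s : ℕ) (hs : s ≤ r) :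
    ∀ S ∈ P.powersetCard s, pr S ≤ Y ^ r := fun S hS =>
  (h.prY s S hS).trans (Nat.pow_le_pow_right h.yq.2.2.2 hs)

lemma Par.ESpos (h : Par q ε z y l M0 M1 r j m Y P θ V0 CD) (s : ℕ) (hs : s ≤ r) : 0 < ES P s := by
  have h1 := ES_low P y (by have := h.hy; omega) (fun p hp => (h.hP p hp).2.1) h.hG r h.hr s hs
  by_contra hcon
  have h0 : ES P s ≤ 0 := not_lt.1 hcon
  have : (2 * (r : ℝ)) ^ s * ES P s ≤ 0 := mul_nonpos_of_nonneg_of_nonpos (by positivity) h0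
  linarith

/-- the bad sets of the rough parts -/
lemma Par.alpha (h : Par q ε z y l M0 M1 r j m Y P θ V0 CD) (H : Subgroup (DirichletCharacter ℂ q))
    (hKc : (Fintype.card (ann H) : ℝ) ≤ (q : ℝ) ^ (1 - ε)) (N : Finset ℕ) (s' s : ℕ)
    (hN : ∀ n ∈ N, 0 < n ∧ n ≤ M1 ∧ Rough y n) (hs' : s' ≤ s) (hs : s ≤ r) :
    ((univ.filter (fun χ₀ : DirichletCharacter ℂ q =>
      1 / 4 * ((Fintype.card H : ℝ) * ((s.choose s' : ℝ) * ES P s)) <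
      ‖∑ ψ : H, AN N (χ₀ * (ψ : DirichletCharacter ℂ q)) * Rs P s' (χ₀ * (ψ : DirichletCharacter ℂ q)) *
        (starRingEnd ℂ) (Rs P s (χ₀ * (ψ : DirichletCharacter ℂ q))) -
        ((Fintype.card H * G11 N P s' s : ℝ) : ℂ)‖)).card : ℝ) ≤
      (q - 1) * (((Nat.log 2 (M1 * Y ^ r) + 1 : ℕ) : ℝ) ^ 2 * (q : ℝ) ^ (-(ε / 2))) := by
  have hYr : 0 < Y ^ r := pow_pos (by have := h.yq; omega) r
  apply Cos.alpha H N P y r (M1 * Y ^ r) s' s ε θ (1 / 4) h.hε h.hε1 h.hθ0 h.hθ8 hKc h.hy h.hU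
    (by norm_num) (by norm_num) h.hΛ h.hbig (fun p hp => (h.hP p hp).1) (fun p hp => (h.hP p hp).2.1)
    h.hG h.hr h.hr1 hs' hs h.hθ (fun n hn => ⟨(hN n hn).1, (hN n hn).2.2⟩)
  · intro n hn S' hS'
    exact Nat.mul_le_mul (hN n hn).2.1 (h.prYr s' (hs'.trans hs) S' hS')
  · intro S hS
    exact (h.prYr s hs S hS).trans (Nat.le_mul_of_pos_left _ h.hM1)
  · exact Nat.mul_pos h.hM1 hYr
  · intro n hn
    have h1 := hN n hn
    apply cop_of_lt h1.1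
    have h2 : M1 ≤ z ^ l := h.hM1l
    have h3 : z ^ l ≤ y ^ l := Nat.pow_le_pow_left h.hzy l
    have h4 : y ^ l ≤ y ^ l * Y ^ r := Nat.le_mul_of_pos_right _ hYr
    have h5 := h.hsz
    omega
  · exact h.Pc

/-- the mean square of a resonator -/
lemma mean_Rs (H : Subgroup (DirichletCharacter ℂ q)) (P : Finset ℕ) (hP : ∀ p ∈ P, p.Prime) (s : ℕ)
    (χ₀ : DirichletCharacter ℂ q)
    (h : ¬ 1 / 4 * ((Fintype.card H : ℝ) * ((s.choose s : ℝ) * ES P s)) <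
      ‖∑ ψ : H, AN {1} (χ₀ * (ψ : DirichletCharacter ℂ q)) * Rs P s (χ₀ * (ψ : DirichletCharacter ℂ q)) *
        (starRingEnd ℂ) (Rs P s (χ₀ * (ψ : DirichletCharacter ℂ q))) -
        ((Fintype.card H * G11 {1} P s s : ℝ) : ℂ)‖) :
    ∑ ψ : H, ‖Rs P s (χ₀ * (ψ : DirichletCharacter ℂ q))‖ ^ 2 ≤
      2 * ((Fintype.card H : ℝ) * ES P s) := by
  push Not at h
  rw [Nat.choose_self, Nat.cast_one, one_mul] at h
  have h1 : ∑ ψ : H, AN {1} (χ₀ * (ψ : DirichletCharacter ℂ q)) *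
        Rs P s (χ₀ * (ψ : DirichletCharacter ℂ q)) *
        (starRingEnd ℂ) (Rs P s (χ₀ * (ψ : DirichletCharacter ℂ q))) =
      ((∑ ψ : H, ‖Rs P s (χ₀ * (ψ : DirichletCharacter ℂ q))‖ ^ 2 : ℝ) : ℂ) := by
    rw [Complex.ofReal_sum]
    apply Finset.sum_congr rfl
    intro ψ _
    rw [AN_one, one_mul, Complex.mul_conj, Complex.normSq_eq_norm_sq]
  rw [h1, ← Complex.ofReal_sub, Complex.norm_real, Real.norm_eq_abs] at h
  have h2 := G11_le {1} P hP (fun n hn => by rw [mem_singleton] at hn; omega) s s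
  rw [Nat.choose_self, Nat.cast_one, one_mul] at h2
  have hH0 : 0 ≤ (Fintype.card H : ℝ) := by positivity
  have h3 := (abs_le.1 h).2
  have h4 : (Fintype.card H : ℝ) * G11 {1} P s s ≤ (Fintype.card H : ℝ) * ES P s :=
    mul_le_mul_of_nonneg_left h2 hH0
  have h5 : 0 ≤ (Fintype.card H : ℝ) * ES P s := mul_nonneg hH0 (ES_nonneg _ _)
  linarith

/-- the values of the error function -/
lemma err_sq (M0 : ℕ) (g : (ZMod q)ˣ) : ‖hzv q g - (h0 M0 g : ℂ)‖ ^ 2 ≤ 9 / q +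
    4 * (if M0 < vl g then (((vl g).divisors.card : ℕ) : ℝ) ^ 2 * (1 / (vl g : ℝ)) else 0) := by
  have hq0 : (0 : ℝ) < q := by exact_mod_cast (Nat.Prime.pos (Fact.out : q.Prime))
  have hv : (0 : ℝ) < vl g := by exact_mod_cast vl_pos g
  have e1 : ∀ x : ℝ, 0 < x → x ^ (-(1 / 2 : ℝ)) = 1 / Real.sqrt x := by
    intro x hx
    rw [Real.rpow_neg hx.le, ← Real.sqrt_eq_rpow, one_div]
  by_cases h : M0 < vl g
  · rw [if_pos h]
    unfold h0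
    rw [if_neg (by omega), Complex.ofReal_zero, sub_zero]
    have h1 : ‖hzv q g‖ ≤ 2 * (1 / Real.sqrt (vl g)) := by
      rw [← e1 _ hv]; exact hzv_norm g
    have h2 := pow_le_pow_left₀ (norm_nonneg _) h1 2
    rw [mul_pow, div_pow, Real.sq_sqrt hv.le] at h2
    have h3 : (1 : ℝ) ≤ (((vl g).divisors.card : ℕ) : ℝ) := by
      have : 0 < (vl g).divisors.card := Finset.card_pos.2 ⟨1, Nat.one_mem_divisors.2 (vl_pos g).ne'⟩
      exact_mod_cast this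
    have h4 : 1 / (vl g : ℝ) ≤ (((vl g).divisors.card : ℕ) : ℝ) ^ 2 * (1 / (vl g : ℝ)) := by
      have : (1 : ℝ) ≤ (((vl g).divisors.card : ℕ) : ℝ) ^ 2 := one_le_pow₀ h3
      have h5 : (0 : ℝ) ≤ 1 / (vl g : ℝ) := by positivity
      nlinarith
    have h6 : (0 : ℝ) ≤ 9 / q := by positivity
    calc ‖hzv q g‖ ^ 2 ≤ 2 ^ 2 * (1 ^ 2 / (vl g : ℝ)) := h2
      _ = 4 * (1 / (vl g : ℝ)) := by norm_num
      _ ≤ _ := by linarith
  · rw [if_neg h, mul_zero, add_zero]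
    unfold h0
    rw [if_pos (by omega)]
    have h1 : ‖hzv q g - ((1 / Real.sqrt (vl g) : ℝ) : ℂ)‖ ≤ 3 * (1 / Real.sqrt q) := by
      rw [← e1 _ hv, ← e1 _ hq0]; exact hzv_two g
    have h2 := pow_le_pow_left₀ (norm_nonneg _) h1 2
    rw [mul_pow, div_pow, Real.sq_sqrt hq0.le] at h2
    calc _ ≤ _ := h2
      _ = _ := by ring

end

end Pool.Agent.V8H32.Cos
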