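import Mathlib
import Pool.Agent.V8H32.Cos.Core

/-! The core inequality: good cosets and the number of bad ones. -/

set_option autoImplicit false

namespace Pool.Agent.V8H32.Cos
open Finset Pool.Agent.R311.RES
open scoped Classical

variable {q : ℕ} [Fact q.Prime]

/-- coefficients of the part with large `n` -/
noncomputable def fB (z y l M0 M1 : ℕ) (g : (ZMod q)ˣ) : ℂ := ((cc z y l M0 g - cA y M1 g : ℝ) : ℂ)
/-- coefficients of the error of the main part of the L-value -/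
noncomputable def fC (M0 : ℕ) (g : (ZMod q)ˣ) : ℂ := hzv q g - (h0 M0 g : ℂ)

lemma tr_add (f f' : (ZMod q)ˣ → ℂ) (χ : DirichletCharacter ℂ q) :
    tr (fun g => f g + f' g) χ = tr f χ + tr f' χ := by
  unfold tr
  rw [← Finset.sum_add_distrib]
  exact Finset.sum_congr rfl fun g _ => by ring

section
variable {ε : ℝ} {z y l M0 M1 r j m Y : ℕ} {P : Finset ℕ} {θ V0 CD : ℝ}

lemma Par.M1q (h : Par q ε z y l M0 M1 r j m Y P θ V0 CD) : M1 < q := by
  have hYr : 0 < Y ^ r := pow_pos (by have := h.yq; omega) r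
  have h2 : M1 ≤ z ^ l := h.hM1l
  have h3 : z ^ l ≤ y ^ l := Nat.pow_le_pow_left h.hzy l
  have h4 : y ^ l ≤ y ^ l * Y ^ r := Nat.le_mul_of_pos_right _ hYr
  have h5 := h.hsz
  omega

/-- the decomposition of the mollified first moment -/
lemma Par.decomp (h : Par q ε z y l M0 M1 r j m Y P θ V0 CD) (χ : DirichletCharacter ℂ q) :
    DirichletCharacter.LFunction χ (1 / 2) * (Mo z y l χ * (Rs P (r - j) χ *
      (starRingEnd ℂ) (Rs P r χ))) =
    AN (NR y M1) χ * Rs P (r - j) χ * (starRingEnd ℂ) (Rs P r χ) +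
      tr (fB z y l M0 M1) χ * (Rs P (r - j) χ * (starRingEnd ℂ) (Rs P r χ)) +
      tr (fC M0) χ * (Mo z y l χ * (Rs P (r - j) χ * (starRingEnd ℂ) (Rs P r χ))) := by
  have h1 : DirichletCharacter.LFunction χ (1 / 2) = tr (fun g => (h0 M0 g : ℂ)) χ + tr (fC M0) χ := by
    rw [L_half, ← tr_add]
    unfold tr fC
    apply Finset.sum_congr rfl
    intro g _
    ring
  have h2 : tr (fun g => (h0 M0 g : ℂ)) χ * Mo z y l χ = AN (NR y M1) χ + tr (fB z y l M0 M1) χ := by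
    rw [tr_Mo, ← tr_cA h.M1q, ← tr_add]
    congr 1
    funext g
    unfold fB
    push_cast
    ring
  calc DirichletCharacter.LFunction χ (1 / 2) * (Mo z y l χ * (Rs P (r - j) χ *
      (starRingEnd ℂ) (Rs P r χ)))
      = (tr (fun g => (h0 M0 g : ℂ)) χ * Mo z y l χ) * (Rs P (r - j) χ *
          (starRingEnd ℂ) (Rs P r χ)) + tr (fC M0) χ * (Mo z y l χ * (Rs P (r - j) χ *
          (starRingEnd ℂ) (Rs P r χ))) := by rw [h1]; ring
    _ = _ := by rw [h2]; ring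

/-- the main term -/
noncomputable def Mn (P : Finset ℕ) (r j : ℕ) : ℝ := ((r.choose (r - j) : ℕ) : ℝ) * ES P r

/-- the deterministic inequality -/
theorem Par.good (h : Par q ε z y l M0 M1 r j m Y P θ V0 CD) (hCD0 : 0 ≤ CD)
    (H : Subgroup (DirichletCharacter ℂ q)) (χ₀ : DirichletCharacter ℂ q) (Vmax : ℝ)
    (hVmax : 0 ≤ Vmax)
    (hL : ∀ ψ : H, ‖DirichletCharacter.LFunction (χ₀ * (ψ : DirichletCharacter ℂ q)) (1 / 2)‖ ≤ Vmax)
    (b1 : ‖∑ ψ : H, AN (NR y M1) (χ₀ * (ψ : DirichletCharacter ℂ q)) *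
        Rs P (r - j) (χ₀ * (ψ : DirichletCharacter ℂ q)) *
        (starRingEnd ℂ) (Rs P r (χ₀ * (ψ : DirichletCharacter ℂ q))) -
        ((Fintype.card H * G11 (NR y M1) P (r - j) r : ℝ) : ℂ)‖ ≤
        1 / 4 * ((Fintype.card H : ℝ) * Mn P r j))
    (b2 : ∑ ψ : H, ‖Rs P r (χ₀ * (ψ : DirichletCharacter ℂ q))‖ ^ 2 ≤
      2 * ((Fintype.card H : ℝ) * ES P r))
    (b3 : ∑ ψ : H, ‖Rs P (r - j) (χ₀ * (ψ : DirichletCharacter ℂ q))‖ ^ 2 ≤
      2 * ((Fintype.card H : ℝ) * ES P (r - j)))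
    (b4 : ‖∑ ψ : H, tr (fB z y l M0 M1) (χ₀ * (ψ : DirichletCharacter ℂ q)) *
        (Rs P (r - j) (χ₀ * (ψ : DirichletCharacter ℂ q)) *
        (starRingEnd ℂ) (Rs P r (χ₀ * (ψ : DirichletCharacter ℂ q))))‖ ≤
        Mn P r j / 8 * (Fintype.card H : ℝ))
    (b5 : ‖∑ ψ : H, tr (fC M0) (χ₀ * (ψ : DirichletCharacter ℂ q)) *
        (Mo z y l (χ₀ * (ψ : DirichletCharacter ℂ q)) *
        (Rs P (r - j) (χ₀ * (ψ : DirichletCharacter ℂ q)) *
        (starRingEnd ℂ) (Rs P r (χ₀ * (ψ : DirichletCharacter ℂ q)))))‖ ≤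
        Mn P r j / 8 * (Fintype.card H : ℝ))
    (b6 : ∀ i : ℕ, i ≤ l → ∑ ψ : H, ‖Dm z y (χ₀ * (ψ : DirichletCharacter ℂ q))‖ ^ (2 * i) *
        ‖Rs P (r - j) (χ₀ * (ψ : DirichletCharacter ℂ q))‖ ^ 2 ≤
      (l + 1) * Real.exp m * ((i : ℝ) ^ i * (CD ^ i * ((Fintype.card H : ℝ) * ES P (r - j))))) :
    Real.exp j ≤ Vmax * (9 * 2 ^ z * (l + 1) ^ 2 * Real.exp (V0 + 6 * CD)) := by
  have hH0 : 0 < (Fintype.card H : ℝ) := by exact_mod_cast Fintype.card_pos
  have hE1 : 0 < ES P r := h.ESpos r le_rfl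
  have hE2 : 0 < ES P (r - j) := h.ESpos (r - j) (Nat.sub_le _ _)
  have hch : 0 < ((r.choose (r - j) : ℕ) : ℝ) := by exact_mod_cast Nat.choose_pos (Nat.sub_le _ _)
  have hMn : 0 < Mn P r j := by unfold Mn; positivity
  set S : ℂ := ∑ ψ : H, DirichletCharacter.LFunction (χ₀ * (ψ : DirichletCharacter ℂ q)) (1 / 2) *
    (Mo z y l (χ₀ * (ψ : DirichletCharacter ℂ q)) * (Rs P (r - j) (χ₀ * (ψ : DirichletCharacter ℂ q)) *
      (starRingEnd ℂ) (Rs P r (χ₀ * (ψ : DirichletCharacter ℂ q))))) with hS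
  -- lower bound
  have hlow : 1 / 2 * ((Fintype.card H : ℝ) * Mn P r j) ≤ ‖S‖ := by
    set S1 := ∑ ψ : H, AN (NR y M1) (χ₀ * (ψ : DirichletCharacter ℂ q)) *
        Rs P (r - j) (χ₀ * (ψ : DirichletCharacter ℂ q)) *
        (starRingEnd ℂ) (Rs P r (χ₀ * (ψ : DirichletCharacter ℂ q))) with hS1
    set S2 := ∑ ψ : H, tr (fB z y l M0 M1) (χ₀ * (ψ : DirichletCharacter ℂ q)) *
        (Rs P (r - j) (χ₀ * (ψ : DirichletCharacter ℂ q)) *
        (starRingEnd ℂ) (Rs P r (χ₀ * (ψ : DirichletCharacter ℂ q)))) with hS2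
    set S3 := ∑ ψ : H, tr (fC M0) (χ₀ * (ψ : DirichletCharacter ℂ q)) *
        (Mo z y l (χ₀ * (ψ : DirichletCharacter ℂ q)) *
        (Rs P (r - j) (χ₀ * (ψ : DirichletCharacter ℂ q)) *
        (starRingEnd ℂ) (Rs P r (χ₀ * (ψ : DirichletCharacter ℂ q))))) with hS3
    have e1 : S = S1 + S2 + S3 := by
      rw [hS, hS1, hS2, hS3, ← Finset.sum_add_distrib, ← Finset.sum_add_distrib]
      exact Finset.sum_congr rfl fun ψ _ => h.decomp _
    have e2 : Mn P r j ≤ G11 (NR y M1) P (r - j) r := by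
      unfold Mn
      apply G11_ge P y M1 (fun p hp => (h.hP p hp).1) (fun p hp => (h.hP p hp).2.1)
      intro S hS
      rw [Nat.sub_sub_self h.jr] at hS
      exact (h.prY j S hS).trans h.hM1j
    have e3 : (Fintype.card H : ℝ) * Mn P r j ≤ ‖((Fintype.card H * G11 (NR y M1) P (r - j) r : ℝ) : ℂ)‖ := by
      rw [Complex.norm_real, Real.norm_of_nonneg (mul_nonneg hH0.le (hMn.le.trans e2))]
      exact mul_le_mul_of_nonneg_left e2 hH0.le
    have e4 : ‖((Fintype.card H * G11 (NR y M1) P (r - j) r : ℝ) : ℂ)‖ ≤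
        ‖S‖ + ‖S1 - ((Fintype.card H * G11 (NR y M1) P (r - j) r : ℝ) : ℂ)‖ + ‖S2‖ + ‖S3‖ := by
      have e5 : ((Fintype.card H * G11 (NR y M1) P (r - j) r : ℝ) : ℂ) =
          S - (S1 - ((Fintype.card H * G11 (NR y M1) P (r - j) r : ℝ) : ℂ)) - S2 - S3 := by
        rw [e1]; ring
      nth_rw 1 [e5]
      refine (norm_sub_le _ _).trans ?_
      apply add_le_add_left
      refine (norm_sub_le _ _).trans ?_
      apply add_le_add_left
      exact norm_sub_le _ _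
    nlinarith
  -- upper bound
  set A : ℝ := (Fintype.card H : ℝ) * ES P (r - j) with hA
  have hA0 : 0 < A := by positivity
  have hU1 := upper_abs (fun ψ : H => ‖Dm z y (χ₀ * (ψ : DirichletCharacter ℂ q))‖)
    (fun ψ : H => ‖Rs P (r - j) (χ₀ * (ψ : DirichletCharacter ℂ q))‖ ^ 2) (fun _ => norm_nonneg _)
    (fun _ => by positivity) l m h.hml V0 CD A h.hV0 hCD0 hA0.le h.hVm b3
    (fun i _ hi => b6 i hi)
  set CM : ℝ := 2 ^ z * Real.exp CD with hCM
  have hCM0 : 0 < CM := by rw [hCM]; positivity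
  have hMoB : ∀ χ : DirichletCharacter ℂ q, ‖Mo z y l χ‖ ≤
      CM * ∑ i ∈ range (l + 1), ‖Dm z y χ‖ ^ i / (i.factorial : ℝ) := by
    intro χ
    refine (Mo_bound h.hzy h.yq.1 χ).trans ?_
    apply mul_le_mul_of_nonneg_right _ (by positivity)
    rw [hCM]
    apply mul_le_mul_of_nonneg_left _ (by positivity)
    rw [Real.exp_le_exp]
    exact h.hCD
  have hup : ‖S‖ ≤ Vmax * (Real.sqrt (∑ ψ : H, (‖Mo z y l (χ₀ * (ψ : DirichletCharacter ℂ q))‖ *
      ‖Rs P (r - j) (χ₀ * (ψ : DirichletCharacter ℂ q))‖) ^ 2) *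
      Real.sqrt (∑ ψ : H, ‖Rs P r (χ₀ * (ψ : DirichletCharacter ℂ q))‖ ^ 2)) := by
    calc ‖S‖ ≤ ∑ ψ : H, Vmax * ((‖Mo z y l (χ₀ * (ψ : DirichletCharacter ℂ q))‖ *
          ‖Rs P (r - j) (χ₀ * (ψ : DirichletCharacter ℂ q))‖) *
          ‖Rs P r (χ₀ * (ψ : DirichletCharacter ℂ q))‖) := by
          rw [hS]
          refine (norm_sum_le _ _).trans (Finset.sum_le_sum fun ψ _ => ?_)
          rw [norm_mul, norm_mul, norm_mul, RCLike.norm_conj]
          calc _ ≤ Vmax * (‖Mo z y l (χ₀ * (ψ : DirichletCharacter ℂ q))‖ *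
                (‖Rs P (r - j) (χ₀ * (ψ : DirichletCharacter ℂ q))‖ *
                ‖Rs P r (χ₀ * (ψ : DirichletCharacter ℂ q))‖)) :=
                mul_le_mul_of_nonneg_right (hL ψ) (by positivity)
            _ = _ := by ring
      _ = Vmax * ∑ ψ : H, ((‖Mo z y l (χ₀ * (ψ : DirichletCharacter ℂ q))‖ *
          ‖Rs P (r - j) (χ₀ * (ψ : DirichletCharacter ℂ q))‖) *
          ‖Rs P r (χ₀ * (ψ : DirichletCharacter ℂ q))‖) := (Finset.mul_sum _ _ _).symm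
      _ ≤ _ := by
          apply mul_le_mul_of_nonneg_left _ hVmax
          exact Real.sum_mul_le_sqrt_mul_sqrt _ _ _
  have hM2 : ∑ ψ : H, (‖Mo z y l (χ₀ * (ψ : DirichletCharacter ℂ q))‖ *
      ‖Rs P (r - j) (χ₀ * (ψ : DirichletCharacter ℂ q))‖) ^ 2 ≤
      CM ^ 2 * (9 * (l + 1) ^ 3 * Real.exp (2 * V0) * Real.exp (9 * CD) * A) := by
    refine le_trans ?_ (mul_le_mul_of_nonneg_left hU1 (by positivity))
    rw [Finset.mul_sum]
    apply Finset.sum_le_sum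
    intro ψ _
    rw [mul_pow, ← mul_assoc]
    apply mul_le_mul_of_nonneg_right _ (by positivity)
    rw [← mul_pow]
    exact pow_le_pow_left₀ (norm_nonneg _) (hMoB _) 2
  -- squares
  have hsq : (1 / 2 * ((Fintype.card H : ℝ) * Mn P r j)) ^ 2 ≤
      Vmax ^ 2 * ((CM ^ 2 * (9 * (l + 1) ^ 3 * Real.exp (2 * V0) * Real.exp (9 * CD) * A)) *
        (2 * ((Fintype.card H : ℝ) * ES P r))) := by
    have e1 := pow_le_pow_left₀ (by positivity) (hlow.trans hup) 2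
    refine e1.trans ?_
    rw [mul_pow, mul_pow, Real.sq_sqrt (by positivity), Real.sq_sqrt (by positivity)]
    apply mul_le_mul_of_nonneg_left _ (by positivity)
    exact mul_le_mul hM2 b2 (by positivity) (by positivity)
  have hratio : Real.exp (2 * j) * ES P (r - j) ≤ ((r.choose (r - j) : ℕ) : ℝ) ^ 2 * ES P r := by
    have := main_ratio P y (by have := h.hy; omega) (fun p hp => (h.hP p hp).2.1) h.hG r h.hr j h.hj
    rwa [Nat.choose_symm h.jr]
  have hfin : Real.exp (2 * j) ≤ Vmax ^ 2 * (72 * CM ^ 2 * (l + 1) ^ 3 *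
      Real.exp (2 * V0) * Real.exp (9 * CD)) := by
    have e1 : Real.exp (2 * j) * (1 / 4 * ((Fintype.card H : ℝ) ^ 2 * (ES P (r - j) * ES P r))) ≤
        (1 / 2 * ((Fintype.card H : ℝ) * Mn P r j)) ^ 2 := by
      have e2 : (1 / 2 * ((Fintype.card H : ℝ) * Mn P r j)) ^ 2 =
          1 / 4 * (Fintype.card H : ℝ) ^ 2 * (((r.choose (r - j) : ℕ) : ℝ) ^ 2 * ES P r) * ES P r := by
        unfold Mn; ring
      rw [e2]
      calc _ = 1 / 4 * (Fintype.card H : ℝ) ^ 2 * (Real.exp (2 * j) * ES P (r - j)) * ES P r := by ring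
        _ ≤ _ := by
          apply mul_le_mul_of_nonneg_right _ hE1.le
          exact mul_le_mul_of_nonneg_left hratio (by positivity)
    have e3 : Real.exp (2 * j) * (1 / 4 * ((Fintype.card H : ℝ) ^ 2 * (ES P (r - j) * ES P r))) ≤
        (Vmax ^ 2 * (72 * CM ^ 2 * (l + 1) ^ 3 * Real.exp (2 * V0) * Real.exp (9 * CD))) *
          (1 / 4 * ((Fintype.card H : ℝ) ^ 2 * (ES P (r - j) * ES P r))) := by
      refine (e1.trans hsq).trans (le_of_eq ?_)
      rw [hA]; ring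
    exact le_of_mul_le_mul_right e3 (by positivity)
  have hfin2 : Real.exp j ^ 2 ≤ (Vmax * (9 * 2 ^ z * (l + 1) ^ 2 * Real.exp (V0 + 6 * CD))) ^ 2 := by
    have e1 : Real.exp j ^ 2 = Real.exp (2 * j) := by
      rw [← Real.exp_nat_mul]; norm_num
    rw [e1]
    refine hfin.trans ?_
    rw [mul_pow Vmax]
    apply mul_le_mul_of_nonneg_left _ (by positivity)
    have e2 : (9 * 2 ^ z * ((l : ℝ) + 1) ^ 2 * Real.exp (V0 + 6 * CD)) ^ 2 =
        81 * (2 ^ z) ^ 2 * ((l : ℝ) + 1) ^ 4 * Real.exp (2 * V0 + 12 * CD) := by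
      have : Real.exp (2 * V0 + 12 * CD) = Real.exp (V0 + 6 * CD) ^ 2 := by
        rw [← Real.exp_nat_mul]; congr 1; push_cast; ring
      rw [this]; ring
    have e3 : 72 * CM ^ 2 * ((l : ℝ) + 1) ^ 3 * Real.exp (2 * V0) * Real.exp (9 * CD) =
        72 * (2 ^ z) ^ 2 * ((l : ℝ) + 1) ^ 3 * Real.exp (2 * V0 + 11 * CD) := by
      rw [hCM, mul_pow]
      have e4 : Real.exp (2 * V0 + 11 * CD) = Real.exp CD ^ 2 * Real.exp (2 * V0) * Real.exp (9 * CD) := by
        rw [← Real.exp_nat_mul, ← Real.exp_add, ← Real.exp_add]; congr 1; push_cast; ring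
      rw [e4]; ring
    rw [e2, e3]
    have e5 : Real.exp (2 * V0 + 11 * CD) ≤ Real.exp (2 * V0 + 12 * CD) := by
      rw [Real.exp_le_exp]; linarith
    have e6 : ((l : ℝ) + 1) ^ 3 ≤ ((l : ℝ) + 1) ^ 4 :=
      pow_le_pow_right₀ (by have : (0:ℝ) ≤ l := by positivity
                            linarith) (by norm_num)
    have e7 : 72 * (2 ^ z : ℝ) ^ 2 ≤ 81 * (2 ^ z) ^ 2 := by
      have : (0 : ℝ) ≤ (2 ^ z) ^ 2 := by positivity
      linarith
    apply mul_le_mul _ e5 (by positivity) (by positivity)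
    exact mul_le_mul e7 e6 (by positivity) (by positivity)
  exact le_of_pow_le_pow_left₀ (by norm_num) (by positivity) hfin2

end

end Pool.Agent.V8H32.Cos
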