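import Mathlib
import Pool.Agent.V8H32.Cos.Core2

/-! The number of bad characters. -/

set_option autoImplicit false

namespace Pool.Agent.V8H32.Cos
open Finset Pool.Agent.R311.RES
open scoped Classical

variable {q : ℕ} [Fact q.Prime]

section
variable {ε : ℝ} {z y l M0 M1 r j m Y : ℕ} {P : Finset ℕ} {θ V0 CD : ℝ}

lemma Par.Mn_low (h : Par q ε z y l M0 M1 r j m Y P θ V0 CD) : 1 ≤ (Y : ℝ) ^ r * Mn P r j := by
  have h1 := ES_low P y (by have := h.hy; omega) (fun p hp => (h.hP p hp).2.1) h.hG r h.hr r le_rfl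
  have h2 : (2 * (r : ℝ)) ^ r ≤ (Y : ℝ) ^ r := by
    apply pow_le_pow_left₀ (by positivity)
    have := h.hr
    have := h.Y2
    exact_mod_cast (by omega : 2 * r ≤ Y)
  have h3 : ES P r ≤ Mn P r j := by
    unfold Mn
    have : (1 : ℝ) ≤ ((r.choose (r - j) : ℕ) : ℝ) := by
      exact_mod_cast Nat.choose_pos (Nat.sub_le _ _)
    nlinarith [ES_nonneg P r]
  calc (1 : ℝ) ≤ (2 * (r : ℝ)) ^ r * ES P r := h1
    _ ≤ (Y : ℝ) ^ r * Mn P r j := mul_le_mul h2 h3 (ES_nonneg _ _) (by positivity)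

/-- from the weighted count to the count -/
lemma Par.unweight (h : Par q ε z y l M0 M1 r j m Y P θ V0 CD) (X D M : ℝ) (hX : 0 ≤ X) (hM : 0 ≤ M)
    (hD : 0 ≤ D) (h1 : X * (Mn P r j / 8) ^ 2 ≤ (q - 1) * ((D * ((Y : ℝ) ^ (r - j) * (Y : ℝ) ^ r)) ^ 2 * M)) :
    X ≤ (q - 1) * (64 * D ^ 2 * (Y : ℝ) ^ (6 * r) * M) := by
  have hq1 := q_sub_nonneg (q := q)
  have hY1 : (1 : ℝ) ≤ Y := by exact_mod_cast h.yq.2.2.2
  have h2 := h.Mn_low
  have h3 : X ≤ 64 * ((Y : ℝ) ^ r) ^ 2 * (X * (Mn P r j / 8) ^ 2) := by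
    have : 64 * ((Y : ℝ) ^ r) ^ 2 * (X * (Mn P r j / 8) ^ 2) = X * ((Y : ℝ) ^ r * Mn P r j) ^ 2 := by ring
    rw [this]
    have h4 : (1 : ℝ) ≤ ((Y : ℝ) ^ r * Mn P r j) ^ 2 := one_le_pow₀ h2
    nlinarith
  have h5 : (Y : ℝ) ^ (r - j) ≤ (Y : ℝ) ^ r := pow_le_pow_right₀ hY1 (Nat.sub_le _ _)
  have h6 : (D * ((Y : ℝ) ^ (r - j) * (Y : ℝ) ^ r)) ^ 2 ≤ (D * ((Y : ℝ) ^ r * (Y : ℝ) ^ r)) ^ 2 := by
    apply pow_le_pow_left₀ (by positivity)
    apply mul_le_mul_of_nonneg_left _ hD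
    exact mul_le_mul_of_nonneg_right h5 (by positivity)
  calc X ≤ 64 * ((Y : ℝ) ^ r) ^ 2 * (X * (Mn P r j / 8) ^ 2) := h3
    _ ≤ 64 * ((Y : ℝ) ^ r) ^ 2 * ((q - 1) * ((D * ((Y : ℝ) ^ (r - j) * (Y : ℝ) ^ r)) ^ 2 * M)) :=
        mul_le_mul_of_nonneg_left h1 (by positivity)
    _ ≤ 64 * ((Y : ℝ) ^ r) ^ 2 * ((q - 1) * ((D * ((Y : ℝ) ^ r * (Y : ℝ) ^ r)) ^ 2 * M)) := by
        apply mul_le_mul_of_nonneg_left _ (by positivity)
        apply mul_le_mul_of_nonneg_left _ hq1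
        exact mul_le_mul_of_nonneg_right h6 hM
    _ = _ := by
        have : (Y : ℝ) ^ (6 * r) = ((Y : ℝ) ^ r) ^ 6 := by rw [← pow_mul, mul_comm]
        rw [this]; ring

lemma DS_nonneg (K : Subgroup (ZMod q)ˣ) (M : ℕ) (c : (ZMod q)ˣ) : 0 ≤ DS K M c := by
  unfold DS
  apply Finset.sum_nonneg
  intro g _
  split_ifs <;> positivity

theorem Par.count (h : Par q ε z y l M0 M1 r j m Y P θ V0 CD) (hCD0 : 0 < CD)
    (H : Subgroup (DirichletCharacter ℂ q))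
    (hKc : (Fintype.card (ann H) : ℝ) ≤ (q : ℝ) ^ (1 - ε)) (Mβ Mγ : ℝ)
    (hβ : ∀ c, DS (ann H) M1 c ≤ Mβ) (hγ : ∀ c, DS (ann H) M0 c ≤ Mγ) (Vmax : ℝ) (hVmax : 0 ≤ Vmax)
    (hV : Vmax * (9 * 2 ^ z * (l + 1) ^ 2 * Real.exp (V0 + 6 * CD)) < Real.exp j) :
    ((univ.filter (fun χ₀ : DirichletCharacter ℂ q => ∀ ψ : H,
      ‖DirichletCharacter.LFunction (χ₀ * (ψ : DirichletCharacter ℂ q)) (1 / 2)‖ ≤ Vmax)).card : ℝ) ≤
      (q - 1) * (3 * (((Nat.log 2 (M1 * Y ^ r) + 1 : ℕ) : ℝ) ^ 2 * (q : ℝ) ^ (-(ε / 2))) +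
        64 * (Y : ℝ) ^ (6 * r) * Mβ +
        64 * ((DD z y l).card : ℝ) ^ 2 * (Y : ℝ) ^ (6 * r) *
          (9 * ((Fintype.card (ann H) : ℝ) / q) + 4 * Mγ) + Real.exp (-(m : ℝ))) := by
  have hq0 : (0 : ℝ) < q := by exact_mod_cast (Nat.Prime.pos (Fact.out : q.Prime))
  have hq1 := q_sub_nonneg (q := q)
  have hH0 : 0 < (Fintype.card H : ℝ) := by exact_mod_cast Fintype.card_pos
  have hE2 : 0 < ES P (r - j) := h.ESpos (r - j) (Nat.sub_le _ _)
  have hMβ0 : 0 ≤ Mβ := (DS_nonneg (ann H) M1 1).trans (hβ 1)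
  have hMγ0 : 0 ≤ Mγ := (DS_nonneg (ann H) M0 1).trans (hγ 1)
  have hM01 : 1 ≤ M0 := h.hM1.trans h.hM10
  set B1 := univ.filter (fun χ₀ : DirichletCharacter ℂ q =>
      1 / 4 * ((Fintype.card H : ℝ) * Mn P r j) <
      ‖∑ ψ : H, AN (NR y M1) (χ₀ * (ψ : DirichletCharacter ℂ q)) *
        Rs P (r - j) (χ₀ * (ψ : DirichletCharacter ℂ q)) *
        (starRingEnd ℂ) (Rs P r (χ₀ * (ψ : DirichletCharacter ℂ q))) -
        ((Fintype.card H * G11 (NR y M1) P (r - j) r : ℝ) : ℂ)‖) with hB1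
  set BR : ℕ → Finset (DirichletCharacter ℂ q) := fun s => univ.filter
    (fun χ₀ : DirichletCharacter ℂ q =>
      1 / 4 * ((Fintype.card H : ℝ) * ((s.choose s : ℝ) * ES P s)) <
      ‖∑ ψ : H, AN {1} (χ₀ * (ψ : DirichletCharacter ℂ q)) * Rs P s (χ₀ * (ψ : DirichletCharacter ℂ q)) *
        (starRingEnd ℂ) (Rs P s (χ₀ * (ψ : DirichletCharacter ℂ q))) -
        ((Fintype.card H * G11 {1} P s s : ℝ) : ℂ)‖) with hBR
  set B4 := univ.filter (fun χ₀ : DirichletCharacter ℂ q => Mn P r j / 8 * (Fintype.card H : ℝ) <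
      ‖∑ ψ : H, tr (fB z y l M0 M1) (χ₀ * (ψ : DirichletCharacter ℂ q)) *
        (Rs P (r - j) (χ₀ * (ψ : DirichletCharacter ℂ q)) *
        (starRingEnd ℂ) (Rs P r (χ₀ * (ψ : DirichletCharacter ℂ q))))‖) with hB4
  set B5 := univ.filter (fun χ₀ : DirichletCharacter ℂ q => Mn P r j / 8 * (Fintype.card H : ℝ) <
      ‖∑ ψ : H, tr (fC M0) (χ₀ * (ψ : DirichletCharacter ℂ q)) *
        (Mo z y l (χ₀ * (ψ : DirichletCharacter ℂ q)) *
        (Rs P (r - j) (χ₀ * (ψ : DirichletCharacter ℂ q)) *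
        (starRingEnd ℂ) (Rs P r (χ₀ * (ψ : DirichletCharacter ℂ q)))))‖) with hB5
  set Yf : ℕ → DirichletCharacter ℂ q → ℝ := fun i χ₀ =>
    ∑ ψ : H, ‖Dm z y (χ₀ * (ψ : DirichletCharacter ℂ q))‖ ^ (2 * i) *
        ‖Rs P (r - j) (χ₀ * (ψ : DirichletCharacter ℂ q))‖ ^ 2 with hYf
  set lam : ℕ → ℝ := fun i => (l + 1) * Real.exp m *
    ((i : ℝ) ^ i * (CD ^ i * ((Fintype.card H : ℝ) * ES P (r - j)))) with hlam
  set B6 : ℕ → Finset (DirichletCharacter ℂ q) := fun i => univ.filter (fun χ₀ => lam i < Yf i χ₀) with hB6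
  -- the bad set is covered
  have hsub : (univ.filter (fun χ₀ : DirichletCharacter ℂ q => ∀ ψ : H,
      ‖DirichletCharacter.LFunction (χ₀ * (ψ : DirichletCharacter ℂ q)) (1 / 2)‖ ≤ Vmax)) ⊆
      (B1 ∪ (BR r ∪ (BR (r - j) ∪ (B4 ∪ B5)))) ∪ (range (l + 1)).biUnion B6 := by
    intro χ₀ hχ
    rw [mem_filter] at hχ
    by_contra hcon
    rw [mem_union, mem_union, mem_union, mem_union, mem_union, mem_biUnion] at hcon
    push Not at hcon
    obtain ⟨⟨c1, c2, c3, c4, c5⟩, c6⟩ := hcon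
    rw [hB1, mem_filter] at c1
    rw [hBR] at c2 c3
    simp only [mem_filter] at c2 c3
    rw [hB4, mem_filter] at c4
    rw [hB5, mem_filter] at c5
    have d1 := not_lt.1 (fun hh => c1 ⟨mem_univ _, hh⟩)
    have d2 := mean_Rs H P (fun p hp => (h.hP p hp).1) r χ₀ (fun hh => c2 ⟨mem_univ _, hh⟩)
    have d3 := mean_Rs H P (fun p hp => (h.hP p hp).1) (r - j) χ₀ (fun hh => c3 ⟨mem_univ _, hh⟩)
    have d4 := not_lt.1 (fun hh => c4 ⟨mem_univ _, hh⟩)
    have d5 := not_lt.1 (fun hh => c5 ⟨mem_univ _, hh⟩)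
    have d6 : ∀ i : ℕ, i ≤ l → Yf i χ₀ ≤ lam i := by
      intro i hi
      have := c6 i (mem_range.2 (by omega))
      rw [hB6] at this
      simp only [mem_filter] at this
      exact not_lt.1 (fun hh => this ⟨mem_univ _, hh⟩)
    have := h.good hCD0.le H χ₀ Vmax hVmax hχ.2 d1 d2 d3 d4 d5 d6
    linarith
  -- the sizes
  have s1 : (B1.card : ℝ) ≤ (q - 1) * (((Nat.log 2 (M1 * Y ^ r) + 1 : ℕ) : ℝ) ^ 2 *
      (q : ℝ) ^ (-(ε / 2))) := by
    have := h.alpha H hKc (NR y M1) (r - j) r (fun n hn => by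
      rw [NR, mem_filter, mem_Icc] at hn
      exact ⟨hn.1.1, hn.1.2, hn.2⟩) (Nat.sub_le _ _) le_rfl
    exact this
  have s2 : ∀ s ≤ r, ((BR s).card : ℝ) ≤ (q - 1) * (((Nat.log 2 (M1 * Y ^ r) + 1 : ℕ) : ℝ) ^ 2 *
      (q : ℝ) ^ (-(ε / 2))) := by
    intro s hs
    exact h.alpha H hKc {1} s s (fun n hn => by
      rw [mem_singleton] at hn
      subst hn
      exact ⟨one_pos, h.hM1, rough_one y⟩) le_rfl hs
  have hPY : ∀ p ∈ P, p.Prime ∧ p ≤ Y := fun p hp => ⟨(h.hP p hp).1, (h.hP p hp).2.2⟩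
  have hMn0 : 0 ≤ Mn P r j := by
    unfold Mn
    exact mul_nonneg (by positivity) (ES_nonneg _ _)
  have s4 : (B4.card : ℝ) ≤ (q - 1) * (64 * (Y : ℝ) ^ (6 * r) * Mβ) := by
    have h1 := beta H (fB z y l M0 M1) P Y (r - j) r hPY Mβ (Mn P r j / 8) (by
      intro c
      refine le_trans ?_ (hβ c)
      unfold DS
      apply Finset.sum_le_sum
      intro g _
      by_cases hg : g ∈ ann H
      · rw [if_pos hg]
        unfold fB
        rw [Complex.norm_real, Real.norm_eq_abs, sq_abs]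
        refine (cB_bound h.hMq hM01 h.hz h.hzy h.hM10 h.hM1l (g * c)).trans (le_of_eq ?_)
        by_cases h2 : M1 < vl (g * c)
        · rw [if_pos h2, if_pos ⟨hg, h2⟩]
        · rw [if_neg h2, if_neg (fun h3 => h2 h3.2)]
      · rw [if_neg hg, if_neg (fun h3 => hg h3.1)]) (by positivity)
    have h2 := h.unweight (B4.card : ℝ) 1 Mβ (by positivity) hMβ0 zero_le_one (by
      rw [one_mul]; exact h1)
    rwa [one_pow, mul_one] at h2
  have s5 : (B5.card : ℝ) ≤ (q - 1) * (64 * ((DD z y l).card : ℝ) ^ 2 * (Y : ℝ) ^ (6 * r) *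
          (9 * ((Fintype.card (ann H) : ℝ) / q) + 4 * Mγ)) := by
    have h1 := gamma H (fC M0) P z y l Y (r - j) r hPY
      (9 * ((Fintype.card (ann H) : ℝ) / q) + 4 * Mγ) (Mn P r j / 8) (by
      intro c
      have e1 : ∀ g : (ZMod q)ˣ, (if g ∈ ann H then ‖fC M0 (g * c)‖ ^ 2 else 0) ≤
          (if g ∈ ann H then 9 / (q : ℝ) else 0) + 4 * (if g ∈ ann H ∧ M0 < vl (g * c) then
            (((vl (g * c)).divisors.card : ℕ) : ℝ) ^ 2 * (1 / (vl (g * c) : ℝ)) else 0) := by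
        intro g
        by_cases hg : g ∈ ann H
        · rw [if_pos hg, if_pos hg]
          refine (err_sq M0 (g * c)).trans (le_of_eq ?_)
          by_cases h2 : M0 < vl (g * c)
          · rw [if_pos h2, if_pos ⟨hg, h2⟩]
          · rw [if_neg h2, if_neg (fun h3 => h2 h3.2)]
        · rw [if_neg hg, if_neg hg, if_neg (fun h3 => hg h3.1)]
          simp
      refine (Finset.sum_le_sum fun g _ => e1 g).trans ?_
      rw [Finset.sum_add_distrib, ← Finset.mul_sum]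
      apply add_le_add
      · rw [← Finset.sum_filter, Finset.sum_const, nsmul_eq_mul]
        apply le_of_eq
        rw [Fintype.card_subtype]
        ring
      · exact mul_le_mul_of_nonneg_left (hγ c) (by norm_num)) (by positivity)
    exact h.unweight (B5.card : ℝ) ((DD z y l).card : ℝ) _ (by positivity) (by positivity)
      (by positivity) h1
  have s6 : ∀ i ≤ l, ((B6 i).card : ℝ) ≤ (q - 1) * (Real.exp (-(m : ℝ)) / (l + 1)) := by
    intro i hi
    have h1 := markov (univ : Finset (DirichletCharacter ℂ q)) (Yf i) (fun χ₀ _ => by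
      rw [hYf]
      exact Finset.sum_nonneg fun ψ _ => by positivity) (lam i)
    have h2 : ∑ χ₀ : DirichletCharacter ℂ q, Yf i χ₀ ≤
        (q - 1) * ((i : ℝ) ^ i * (CD ^ i * ((Fintype.card H : ℝ) * ES P (r - j)))) := by
      rw [hYf]
      simp only
      rw [sum_translate H (fun χ => ‖Dm z y χ‖ ^ (2 * i) * ‖Rs P (r - j) χ‖ ^ 2)]
      have h3 := moment_Dm z y i (r - j) P (fun p hp => ⟨(h.hP p hp).1, (h.hP p hp).2.1⟩) Y
        (fun p hp => (h.hP p hp).2.2) (by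
          refine lt_of_le_of_lt (Nat.mul_le_mul ?_ ?_) h.hsz
          · exact Nat.pow_le_pow_right (by have := h.hy; omega) hi
          · exact Nat.pow_le_pow_right h.yq.2.2.2 (Nat.sub_le _ _))
      calc (Fintype.card H : ℝ) * ∑ χ : DirichletCharacter ℂ q,
            ‖Dm z y χ‖ ^ (2 * i) * ‖Rs P (r - j) χ‖ ^ 2
          ≤ (Fintype.card H : ℝ) * ((q - 1) * ((i : ℝ) ^ i *
              ((∑ p ∈ Q2 z y, 1 / (p : ℝ)) ^ i * ES P (r - j)))) :=
            mul_le_mul_of_nonneg_left h3 hH0.le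
        _ ≤ (Fintype.card H : ℝ) * ((q - 1) * ((i : ℝ) ^ i * (CD ^ i * ES P (r - j)))) := by
            apply mul_le_mul_of_nonneg_left _ hH0.le
            apply mul_le_mul_of_nonneg_left _ hq1
            apply mul_le_mul_of_nonneg_left _ (by positivity)
            apply mul_le_mul_of_nonneg_right _ hE2.le
            exact pow_le_pow_left₀ (Finset.sum_nonneg fun _ _ => by positivity) h.hCD i
        _ = _ := by ring
    have hX : 0 < (i : ℝ) ^ i * (CD ^ i * ((Fintype.card H : ℝ) * ES P (r - j))) := by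
      have : 0 < (i : ℝ) ^ i := by
        rcases Nat.eq_zero_or_pos i with h0 | h0
        · subst h0; simp
        · positivity
      positivity
    have h4 : (((B6 i).card : ℝ) * ((l + 1) * Real.exp m)) *
        ((i : ℝ) ^ i * (CD ^ i * ((Fintype.card H : ℝ) * ES P (r - j)))) ≤
        (q - 1) * ((i : ℝ) ^ i * (CD ^ i * ((Fintype.card H : ℝ) * ES P (r - j)))) := by
      calc _ = ((B6 i).card : ℝ) * lam i := by rw [hlam]; ring
        _ ≤ _ := h1.trans h2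
    have h5 := le_of_mul_le_mul_right h4 hX
    rw [Real.exp_neg]
    have h6 : (0 : ℝ) < (l + 1) * Real.exp m := by positivity
    calc ((B6 i).card : ℝ) ≤ (q - 1) / ((l + 1) * Real.exp m) := by
          rw [le_div_iff₀ h6]; exact h5
      _ = _ := by field_simp
  have s6' : (((range (l + 1)).biUnion B6).card : ℝ) ≤ (q - 1) * Real.exp (-(m : ℝ)) := by
    calc (((range (l + 1)).biUnion B6).card : ℝ) ≤ ∑ i ∈ range (l + 1), ((B6 i).card : ℝ) := by
          exact_mod_cast card_biUnion_le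
      _ ≤ ∑ i ∈ range (l + 1), (q - 1) * (Real.exp (-(m : ℝ)) / (l + 1)) := by
          apply Finset.sum_le_sum
          intro i hi
          rw [mem_range] at hi
          exact s6 i (by omega)
      _ = _ := by
          rw [Finset.sum_const, card_range, nsmul_eq_mul]
          push_cast
          field_simp
  have hun : ∀ A B : Finset (DirichletCharacter ℂ q), ((A ∪ B).card : ℝ) ≤ A.card + B.card := by
    intro A B
    exact_mod_cast card_union_le A B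
  have t1 := s2 r le_rfl
  have t2 := s2 (r - j) (Nat.sub_le _ _)
  calc ((univ.filter (fun χ₀ : DirichletCharacter ℂ q => ∀ ψ : H,
      ‖DirichletCharacter.LFunction (χ₀ * (ψ : DirichletCharacter ℂ q)) (1 / 2)‖ ≤ Vmax)).card : ℝ)
      ≤ (((B1 ∪ (BR r ∪ (BR (r - j) ∪ (B4 ∪ B5)))) ∪ (range (l + 1)).biUnion B6).card : ℝ) := by
        exact_mod_cast card_le_card hsub
    _ ≤ (B1.card + ((BR r).card + ((BR (r - j)).card + (B4.card + B5.card)))) +
          ((range (l + 1)).biUnion B6).card := by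
        refine (hun _ _).trans (add_le_add_left ?_ _)
        refine (hun _ _).trans (add_le_add_right ?_ _)
        refine (hun _ _).trans (add_le_add_right ?_ _)
        refine (hun _ _).trans (add_le_add_right ?_ _)
        exact hun _ _
    _ ≤ _ := by
        have : (q - 1) * (3 * (((Nat.log 2 (M1 * Y ^ r) + 1 : ℕ) : ℝ) ^ 2 * (q : ℝ) ^ (-(ε / 2))) +
        64 * (Y : ℝ) ^ (6 * r) * Mβ +
        64 * ((DD z y l).card : ℝ) ^ 2 * (Y : ℝ) ^ (6 * r) *
          (9 * ((Fintype.card (ann H) : ℝ) / q) + 4 * Mγ) + Real.exp (-(m : ℝ))) =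
          3 * ((q - 1) * (((Nat.log 2 (M1 * Y ^ r) + 1 : ℕ) : ℝ) ^ 2 * (q : ℝ) ^ (-(ε / 2)))) +
          (q - 1) * (64 * (Y : ℝ) ^ (6 * r) * Mβ) +
          (q - 1) * (64 * ((DD z y l).card : ℝ) ^ 2 * (Y : ℝ) ^ (6 * r) *
            (9 * ((Fintype.card (ann H) : ℝ) / q) + 4 * Mγ)) + (q - 1) * Real.exp (-(m : ℝ)) := by ring
        rw [this]
        linarith

end

end Pool.Agent.V8H32.Cos
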