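import Mathlib
import Pool.Agent.V8H32.Cos.Core3
import Pool.Agent.Erdos456.Mertens

/-! The choice of the parameters. -/

set_option autoImplicit false

namespace Pool.Agent.V8H32.Cos
open Finset Pool.Agent.R311.RES
open scoped Classical

/-- the basic integer parameter -/
lemma zfacts (Λ : ℝ) (hΛ : 1 ≤ Λ) : 1 ≤ ⌊Λ ^ (1 / 3 : ℝ)⌋₊ ∧ ((⌊Λ ^ (1 / 3 : ℝ)⌋₊ : ℕ) : ℝ) ^ 3 ≤ Λ ∧
    Λ ≤ 8 * ((⌊Λ ^ (1 / 3 : ℝ)⌋₊ : ℕ) : ℝ) ^ 3 := by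
  have h0 : (0 : ℝ) ≤ Λ := by linarith
  have h1 : (1 : ℝ) ≤ Λ ^ (1 / 3 : ℝ) := Real.one_le_rpow hΛ (by norm_num)
  have h3 : (Λ ^ (1 / 3 : ℝ)) ^ 3 = Λ := by
    rw [← Real.rpow_natCast, ← Real.rpow_mul h0]
    norm_num
  have h4 : 1 ≤ ⌊Λ ^ (1 / 3 : ℝ)⌋₊ := Nat.le_floor (by exact_mod_cast h1)
  have h4' : (1 : ℝ) ≤ ((⌊Λ ^ (1 / 3 : ℝ)⌋₊ : ℕ) : ℝ) := by exact_mod_cast h4
  refine ⟨h4, ?_, ?_⟩
  · calc ((⌊Λ ^ (1 / 3 : ℝ)⌋₊ : ℕ) : ℝ) ^ 3 ≤ (Λ ^ (1 / 3 : ℝ)) ^ 3 :=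
          pow_le_pow_left₀ (by positivity) (Nat.floor_le (by linarith)) 3
      _ = Λ := h3
  · have h5 : Λ ^ (1 / 3 : ℝ) ≤ 2 * ((⌊Λ ^ (1 / 3 : ℝ)⌋₊ : ℕ) : ℝ) := by
      have := (Nat.lt_floor_add_one (Λ ^ (1 / 3 : ℝ))).le
      linarith
    calc Λ = (Λ ^ (1 / 3 : ℝ)) ^ 3 := h3.symm
      _ ≤ (2 * ((⌊Λ ^ (1 / 3 : ℝ)⌋₊ : ℕ) : ℝ)) ^ 3 := pow_le_pow_left₀ (by positivity) h5 3
      _ = _ := by ring

/-- Mertens' theorem for the two sets of primes -/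
lemma mert : ∃ C : ℝ, 0 ≤ C ∧ ∀ u v : ℕ, 3 ≤ u → u ≤ v →
    Real.log (Real.log v / Real.log u) - C ≤ ∑ p ∈ (Ioc u v).filter Nat.Prime, 1 / (p : ℝ) ∧
    ∑ p ∈ (Ioc u v).filter Nat.Prime, 1 / (p : ℝ) ≤ Real.log (Real.log v / Real.log u) + C := by
  obtain ⟨C, hC⟩ := Pool.Agent.Erdos456.Mert.mertens_inv
  have hC0 : 0 ≤ C := (abs_nonneg _).trans (hC 3 le_rfl)
  refine ⟨2 * C, by positivity, fun u v hu huv => ?_⟩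
  have h1 := abs_le.1 (hC u hu)
  have h2 := abs_le.1 (hC v (hu.trans huv))
  have hlu : 0 < Real.log u := Real.log_pos (by exact_mod_cast (by omega : 1 < u))
  have hlv : 0 < Real.log v := Real.log_pos (by exact_mod_cast (by omega : 1 < v))
  have h3 : ∑ p ∈ (Ioc u v).filter Nat.Prime, 1 / (p : ℝ) + ∑ p ∈ (Icc 1 u).filter Nat.Prime, 1 / (p : ℝ) =
      ∑ p ∈ (Icc 1 v).filter Nat.Prime, 1 / (p : ℝ) := by
    rw [← Finset.sum_union]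
    · congr 1
      ext p
      simp only [mem_union, mem_filter, mem_Ioc, mem_Icc]
      constructor
      · rintro (⟨⟨h, h'⟩, hp⟩ | ⟨⟨h, h'⟩, hp⟩)
        · exact ⟨⟨by omega, h'⟩, hp⟩
        · exact ⟨⟨h, by omega⟩, hp⟩
      · rintro ⟨⟨h, h'⟩, hp⟩
        by_cases hpu : u < p
        · exact Or.inl ⟨⟨hpu, h'⟩, hp⟩
        · exact Or.inr ⟨⟨h, by omega⟩, hp⟩
    · rw [Finset.disjoint_left]
      intro p hp hp'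
      rw [mem_filter, mem_Ioc] at hp
      rw [mem_filter, mem_Icc] at hp'
      omega
  rw [Real.log_div hlv.ne' hlu.ne']
  constructor <;> linarith

end Pool.Agent.V8H32.Cos
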