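import Mathlib
import Pool.Agent.V8H32.Cos.Par1

/-! The parameters satisfy all the conditions. -/

set_option autoImplicit false

namespace Pool.Agent.V8H32.Cos
open Finset Pool.Agent.R311.RES
open scoped Classical

/-- constants depending on `ε` -/
structure Con (ε C : ℝ) (a b T1 : ℕ) (η δ CD K c : ℝ) : Prop where
  hε : 0 < ε
  hε1 : ε ≤ 1
  hC : 0 ≤ C
  ha : 240 ≤ ε * a
  hb : C + 1 ≤ Real.log b
  hb1 : 1 ≤ b
  hη : η = ε / 64
  hT1 : 2 * a ≤ η * T1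
  hδ0 : 0 < δ
  hδ : δ * (a * b) * (48 * T1) = ε
  hCD : CD = Real.log a + C + 1
  hK1 : 1000 * T1 ≤ ε * K
  hK2 : 200000 * CD ≤ δ * K
  hK3 : (a : ℝ) ^ 4 * b ^ 2 ≤ η ^ 2 * K
  hc0 : 0 < c
  hc1 : c ≤ δ / 100
  hc2 : c * CD ≤ δ / 32768
  hc3 : c * T1 ≤ ε / 16

/-- the existence of the constants -/
lemma exists_con (ε : ℝ) (hε : 0 < ε) (hε1 : ε ≤ 1) (C : ℝ) (hC : 0 ≤ C) :
    ∃ (a b T1 : ℕ) (η δ CD K c : ℝ), Con ε C a b T1 η δ CD K c := by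
  set a : ℕ := ⌈240 / ε⌉₊ with ha
  have ha1 : 240 / ε ≤ a := Nat.le_ceil _
  have ha2 : 240 ≤ ε * a := by rw [div_le_iff₀ hε] at ha1; linarith
  have ha3 : (240 : ℝ) ≤ a := by nlinarith
  have ha0 : (0 : ℝ) < a := by linarith
  set b : ℕ := ⌈Real.exp (C + 1)⌉₊ with hb
  have hb1 : Real.exp (C + 1) ≤ b := Nat.le_ceil _
  have hb0 : (0 : ℝ) < b := (Real.exp_pos _).trans_le hb1
  have hb2 : C + 1 ≤ Real.log b := by rw [Real.le_log_iff_exp_le hb0]; exact hb1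
  set η : ℝ := ε / 64 with hη
  have hη0 : 0 < η := by rw [hη]; positivity
  set T1 : ℕ := ⌈2 * a / η⌉₊ with hT1
  have hT2 : 2 * a / η ≤ T1 := Nat.le_ceil _
  have hT3 : 2 * a ≤ η * T1 := by rw [div_le_iff₀ hη0] at hT2; linarith
  have hT0 : (0 : ℝ) < T1 := by
    have : 0 < η * T1 := by linarith
    exact (pos_iff_pos_of_mul_pos this).1 hη0
  set δ : ℝ := ε / (48 * T1 * (a * b)) with hδ
  have hδ0 : 0 < δ := by rw [hδ]; positivity
  set CD : ℝ := Real.log a + C + 1 with hCD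
  have hCD1 : 1 ≤ CD := by
    have := Real.log_nonneg (by linarith : (1 : ℝ) ≤ a)
    linarith
  set K : ℝ := 1000 * T1 / ε + 200000 * CD / δ + (a : ℝ) ^ 4 * b ^ 2 / η ^ 2 with hK
  have k1 : 0 ≤ 1000 * T1 / ε := by positivity
  have k2 : 0 ≤ 200000 * CD / δ := by positivity
  have k3 : 0 ≤ (a : ℝ) ^ 4 * b ^ 2 / η ^ 2 := by positivity
  set c : ℝ := min (δ / 100) (min (δ / (32768 * CD)) (ε / (16 * T1))) with hc
  have hc0 : 0 < c := by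
    rw [hc]
    exact lt_min (by positivity) (lt_min (by positivity) (by positivity))
  refine ⟨a, b, T1, η, δ, CD, K, c, ⟨hε, hε1, hC, ha2, hb2, ?_, hη, hT3, hδ0, ?_, hCD, ?_, ?_, ?_, hc0,
    min_le_left _ _, ?_, ?_⟩⟩
  · exact_mod_cast Nat.one_le_iff_ne_zero.2 (by
      intro h; rw [h] at hb0; simp at hb0)
  · rw [hδ]; field_simp
  · have e1 : ε * (1000 * T1 / ε) = 1000 * T1 := by field_simp
    have e2 : ε * K = ε * (1000 * T1 / ε) + ε * (200000 * CD / δ) +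
        ε * ((a : ℝ) ^ 4 * b ^ 2 / η ^ 2) := by rw [hK]; ring
    rw [e2, e1]
    linarith [mul_nonneg hε.le k2, mul_nonneg hε.le k3]
  · have e1 : δ * (200000 * CD / δ) = 200000 * CD := by field_simp
    have e2 : δ * K = δ * (1000 * T1 / ε) + δ * (200000 * CD / δ) +
        δ * ((a : ℝ) ^ 4 * b ^ 2 / η ^ 2) := by rw [hK]; ring
    rw [e2, e1]
    linarith [mul_nonneg hδ0.le k1, mul_nonneg hδ0.le k3]
  · have e1 : η ^ 2 * ((a : ℝ) ^ 4 * b ^ 2 / η ^ 2) = (a : ℝ) ^ 4 * b ^ 2 := by field_simp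
    have e2 : η ^ 2 * K = η ^ 2 * (1000 * T1 / ε) + η ^ 2 * (200000 * CD / δ) +
        η ^ 2 * ((a : ℝ) ^ 4 * b ^ 2 / η ^ 2) := by rw [hK]; ring
    rw [e2, e1]
    linarith [mul_nonneg (sq_nonneg η) k1, mul_nonneg (sq_nonneg η) k2]
  · have h1 : c ≤ δ / (32768 * CD) := (min_le_right _ _).trans (min_le_left _ _)
    rw [le_div_iff₀ (by positivity)] at h1
    rw [le_div_iff₀ (by norm_num)]
    linarith
  · have h1 : c ≤ ε / (16 * T1) := (min_le_right _ _).trans (min_le_right _ _)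
    rw [le_div_iff₀ (by positivity)] at h1
    rw [le_div_iff₀ (by norm_num)]
    linarith

/-- the size conditions -/
structure Siz (K : ℝ) (Λ : ℝ) (z : ℕ) : Prop where
  h1 : (z : ℝ) ^ 3 ≤ Λ
  h2 : Λ ≤ 8 * (z : ℝ) ^ 3
  h3 : K ≤ z
  h4 : K * Real.log z ≤ z

section
variable {ε C : ℝ} {a b T1 : ℕ} {η δ CD K c : ℝ} {Λ : ℝ} {z : ℕ}

lemma Con.basic (h : Con ε C a b T1 η δ CD K c) : (240 : ℝ) ≤ a ∧ (1 : ℝ) ≤ b ∧ (1000 : ℝ) ≤ T1 ∧
    1 ≤ CD ∧ δ ≤ 1 ∧ 0 < η ∧ η ≤ 1 / 64 ∧ (1000000 : ℝ) ≤ K ∧ δ * (a * b) ≤ ε / 64 ∧ δ ≤ η / a ∧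
    (T1 : ℝ) ≤ K := by
  obtain ⟨hε, hε1, hC, ha, hb, hb1, hη, hT1, hδ0, hδ, hCD, hK1, hK2, hK3, hc0, hc1, hc2, hc3⟩ := h
  have a1 : (240 : ℝ) ≤ a := by
    have : (0 : ℝ) ≤ a := by positivity
    nlinarith
  have a2 : (1 : ℝ) ≤ b := by exact_mod_cast hb1
  have a3 : 0 < η := by rw [hη]; positivity
  have a4 : η ≤ 1 / 64 := by rw [hη]; linarith
  have a5 : (1000 : ℝ) ≤ T1 := by
    have : (0 : ℝ) ≤ T1 := by positivity
    nlinarith
  have a6 : 1 ≤ CD := by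
    have := Real.log_nonneg (by linarith : (1 : ℝ) ≤ a)
    linarith
  have hab : (0 : ℝ) < a * b := by positivity
  have a7 : δ * (a * b) ≤ ε / 64 := by
    have : 0 ≤ δ * (a * b) := by positivity
    nlinarith
  have a8 : δ ≤ 1 := by
    have : (1 : ℝ) ≤ a * b := by nlinarith
    nlinarith
  have a9 : (1000000 : ℝ) ≤ K := by
    have : 0 ≤ K := by
      by_contra hcon
      push Not at hcon
      nlinarith
    nlinarith
  have a10 : δ ≤ η / a := by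
    rw [le_div_iff₀ (by linarith), hη]
    refine le_trans ?_ a7
    have : δ * a * 1 ≤ δ * a * b := mul_le_mul_of_nonneg_left a2 (by positivity)
    linarith
  have a11 : (T1 : ℝ) ≤ K := by nlinarith
  exact ⟨a1, a2, a5, a6, a8, a3, a4, a9, a7, a10, a11⟩

lemma Siz.basic (h : Con ε C a b T1 η δ CD K c) (s : Siz K Λ z) :
    (1000000 : ℝ) ≤ z ∧ 1 ≤ Real.log z ∧ K * Real.log z * (z : ℝ) ^ 2 ≤ Λ ∧ K * Real.log z ≤ Λ ∧
    K * (z : ℝ) ^ 2 ≤ Λ ∧ K ≤ Λ ∧ 0 < Λ ∧ Real.log Λ ≤ 4 * Real.log z ∧ 3 * Real.log z ≤ Real.log Λ := by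
  obtain ⟨s1, s2, s3, s4⟩ := s
  obtain ⟨_, _, _, _, _, _, _, hK, _, _, _⟩ := h.basic
  have b1 : (1000000 : ℝ) ≤ z := hK.trans s3
  have z0 : (0 : ℝ) < z := by linarith
  have b2 : 1 ≤ Real.log z := by
    rw [Real.le_log_iff_exp_le z0]
    have := Real.exp_one_lt_d9
    linarith
  have z2 : (1 : ℝ) ≤ (z : ℝ) ^ 2 := one_le_pow₀ (by linarith)
  have b3 : K * Real.log z * (z : ℝ) ^ 2 ≤ Λ := by
    refine le_trans ?_ s1
    calc K * Real.log z * (z : ℝ) ^ 2 ≤ z * (z : ℝ) ^ 2 :=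
          mul_le_mul_of_nonneg_right s4 (by positivity)
      _ = (z : ℝ) ^ 3 := by ring
  have hKl : 0 ≤ K * Real.log z := by positivity
  have b4 : K * Real.log z ≤ Λ := by nlinarith
  have b5 : K * (z : ℝ) ^ 2 ≤ Λ := by
    refine le_trans ?_ s1
    calc K * (z : ℝ) ^ 2 ≤ z * (z : ℝ) ^ 2 := mul_le_mul_of_nonneg_right s3 (by positivity)
      _ = (z : ℝ) ^ 3 := by ring
  have b6 : K ≤ Λ := by nlinarith
  have b7 : 0 < Λ := by linarith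
  refine ⟨b1, b2, b3, b4, b5, b6, b7, ?_, ?_⟩
  · have : Λ ≤ (z : ℝ) ^ 4 := by
      refine s2.trans ?_
      have : (z : ℝ) ^ 4 = z * (z : ℝ) ^ 3 := by ring
      rw [this]
      exact mul_le_mul_of_nonneg_right (by linarith) (by positivity)
    calc Real.log Λ ≤ Real.log ((z : ℝ) ^ 4) := Real.log_le_log b7 this
      _ = _ := by rw [Real.log_pow]; norm_num
  · calc 3 * Real.log z = Real.log ((z : ℝ) ^ 3) := by rw [Real.log_pow]; norm_num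
      _ ≤ Real.log Λ := Real.log_le_log (by positivity) s1

end

end Pool.Agent.V8H32.Cos
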