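import Mathlib
import Pool.Agent.V8H32.Cos.Par2

/-! The integer parameters. -/

set_option autoImplicit false

namespace Pool.Agent.V8H32.Cos
open Finset Pool.Agent.R311.RES
open scoped Classical

/-- the integer parameters -/
structure Prm (a b : ℕ) (η δ CD : ℝ) (Λ : ℝ) (z r l j m : ℕ) : Prop where
  R1 : (r : ℝ) * Real.log z ≤ δ * Λ
  R2 : δ * Λ ≤ (r + 1) * Real.log z
  R3 : (1000 : ℝ) ≤ r
  L1 : (l : ℝ) * (a * Real.log z) ≤ η * Λ
  L2 : η * Λ ≤ (l + 1) * (a * Real.log z)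
  J1 : 64 * j ^ 2 ≤ r
  J2 : δ * Λ ≤ 512 * (j : ℝ) ^ 2 * Real.log z
  J3 : 8 * z ≤ j
  J4 : a * b * j ≤ l
  m1 : Real.exp 1 * m * CD ≤ (j : ℝ) ^ 2 / 16
  m2 : (j : ℝ) ^ 2 ≤ 88 * CD * m
  rl : r ≤ l

/-- cancellation -/
lemma cancel_w {x y w : ℝ} (hw : 0 < w) {u : ℝ} (h1 : x * (u * w) ≤ y * w) : x * u ≤ y := by
  have h2 : (x * u) * w ≤ y * w := by rw [mul_assoc]; exact h1
  exact le_of_mul_le_mul_right h2 hw

lemma cancel_w2 {x y w : ℝ} (hw : 0 < w) {u v : ℝ} (h1 : x * (u * w * v) ≤ y * w) : x * u * v ≤ y := by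
  have h2 : (x * u * v) * w ≤ y * w := by
    calc (x * u * v) * w = x * (u * w * v) := by ring
      _ ≤ _ := h1
  exact le_of_mul_le_mul_right h2 hw

lemma J3_aux {D z j : ℝ} (hD : 200000 ≤ D) (h : D * z ^ 2 ≤ 512 * j ^ 2) : (8 * z) ^ 2 ≤ j ^ 2 := by
  have h5 : 200000 * z ^ 2 ≤ D * z ^ 2 := mul_le_mul_of_nonneg_right hD (by positivity)
  nlinarith [sq_nonneg z]

lemma J4_aux {η a b w δ Λ K j r : ℝ} (hw : 0 < w) (hΛ : 0 < Λ) (hη : 0 < η) (ha : 0 < a) (hb : 0 < b)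
    (hj : 0 ≤ j) (hδ1 : δ ≤ 1) (hδ0 : 0 < δ)
    (h2 : η * Λ ≤ (a * b * j) * (a * w)) (hJ : 64 * j ^ 2 ≤ r) (hR : r * w ≤ δ * Λ)
    (hK : a ^ 4 * b ^ 2 ≤ η ^ 2 * K) (hKw : K * w ≤ Λ) : False := by
  have h3 : (η * Λ) ^ 2 ≤ ((a * b * j) * (a * w)) ^ 2 := pow_le_pow_left₀ (by positivity) h2 2
  have h4 : ((a * b * j) * (a * w)) ^ 2 = a ^ 4 * b ^ 2 * w * (j ^ 2 * w) := by ring
  have h5 : j ^ 2 * w ≤ δ * Λ / 64 := by
    have : 64 * j ^ 2 * w ≤ r * w := mul_le_mul_of_nonneg_right hJ hw.le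
    linarith
  have h6 : (η * Λ) ^ 2 ≤ a ^ 4 * b ^ 2 * w * (δ * Λ / 64) := by
    rw [h4] at h3
    exact h3.trans (mul_le_mul_of_nonneg_left h5 (by positivity))
  have h7 : a ^ 4 * b ^ 2 * w ≤ η ^ 2 * Λ := by
    calc a ^ 4 * b ^ 2 * w ≤ η ^ 2 * K * w := mul_le_mul_of_nonneg_right hK hw.le
      _ = η ^ 2 * (K * w) := by ring
      _ ≤ η ^ 2 * Λ := mul_le_mul_of_nonneg_left hKw (by positivity)
  have h8 : a ^ 4 * b ^ 2 * w * (δ * Λ / 64) ≤ (η ^ 2 * Λ) * (Λ / 64) := by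
    apply mul_le_mul h7 _ (by positivity) (by positivity)
    have : δ * Λ ≤ 1 * Λ := mul_le_mul_of_nonneg_right hδ1 hΛ.le
    linarith
  have h10 : 0 < η ^ 2 * Λ ^ 2 := by positivity
  nlinarith

theorem exists_prm {ε C : ℝ} {a b T1 : ℕ} {η δ CD K c : ℝ} {Λ : ℝ} {z : ℕ}
    (h : Con ε C a b T1 η δ CD K c) (s : Siz K Λ z) :
    ∃ r l j m : ℕ, Prm a b η δ CD Λ z r l j m := by
  obtain ⟨a1, a2, a3, a4, a5, a6, a7, a8, a9, a10, a11⟩ := h.basic
  obtain ⟨b1, b2, b3, b4, b5, b6, b7, b8, b9⟩ := s.basic h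
  obtain ⟨hε, hε1, hC, ha, hb, hb1, hη, hT1, hδ0, hδ, hCD, hK1, hK2, hK3, hc0, hc1, hc2, hc3⟩ := h
  set w := Real.log z with hw
  have w0 : 0 < w := by linarith
  have z0 : (0 : ℝ) < z := by linarith
  set r : ℕ := ⌊δ * Λ / w⌋₊ with hr
  set l : ℕ := ⌊η * Λ / (a * w)⌋₊ with hl
  set j : ℕ := Nat.sqrt r / 8 with hj
  set m : ℕ := ⌊(j : ℝ) ^ 2 / (16 * Real.exp 1 * CD)⌋₊ with hm
  have haw : 0 < (a : ℝ) * w := by positivity
  have R1 : (r : ℝ) * w ≤ δ * Λ := by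
    have := Nat.floor_le (by positivity : 0 ≤ δ * Λ / w)
    rwa [le_div_iff₀ w0] at this
  have R2 : δ * Λ ≤ (r + 1) * w := by
    have := (Nat.lt_floor_add_one (δ * Λ / w)).le
    rwa [div_le_iff₀ w0] at this
  have hδK : 200000 ≤ δ * K := by nlinarith
  have R3' : (199999 : ℝ) ≤ r := by
    have h1 : δ * (K * w) ≤ (r + 1) * w := (mul_le_mul_of_nonneg_left b4 hδ0.le).trans R2
    have h3 := cancel_w w0 h1
    linarith
  have L1 : (l : ℝ) * (a * w) ≤ η * Λ := by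
    have := Nat.floor_le (by positivity : 0 ≤ η * Λ / (a * w))
    rwa [le_div_iff₀ haw] at this
  have L2 : η * Λ ≤ (l + 1) * (a * w) := by
    have := (Nat.lt_floor_add_one (η * Λ / (a * w))).le
    rwa [div_le_iff₀ haw] at this
  have J1 : 64 * j ^ 2 ≤ r := by
    have h1 : 8 * j ≤ Nat.sqrt r := Nat.mul_div_le _ _
    have h2 : Nat.sqrt r * Nat.sqrt r ≤ r := Nat.sqrt_le r
    nlinarith
  have hs : 8 ≤ Nat.sqrt r := by
    rw [Nat.le_sqrt]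
    have : (199999 : ℕ) ≤ r := by exact_mod_cast R3'
    omega
  have hj1 : 1 ≤ j := by
    rw [hj]
    exact (Nat.one_le_div_iff (by norm_num)).2 hs
  have J2n : r + 1 ≤ 256 * j ^ 2 := by
    have h1 : Nat.sqrt r < 8 * (j + 1) := by
      have := Nat.lt_mul_div_succ (Nat.sqrt r) (by norm_num : 0 < 8)
      rw [← hj] at this
      omega
    have h2 : r < (Nat.sqrt r + 1) * (Nat.sqrt r + 1) := Nat.lt_succ_sqrt r
    have h3 : Nat.sqrt r + 1 ≤ 16 * j := by omega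
    have h4 : (Nat.sqrt r + 1) * (Nat.sqrt r + 1) ≤ (16 * j) * (16 * j) := Nat.mul_le_mul h3 h3
    nlinarith
  have J2r : ((r : ℝ) + 1) ≤ 256 * (j : ℝ) ^ 2 := by exact_mod_cast J2n
  have J2 : δ * Λ ≤ 512 * (j : ℝ) ^ 2 * w := by
    have h1 : (r + 1) * w ≤ 256 * (j : ℝ) ^ 2 * w := mul_le_mul_of_nonneg_right J2r w0.le
    have h2 : 0 ≤ (j : ℝ) ^ 2 * w := by positivity
    linarith only [h1, h2, R2]
  have J3 : 8 * z ≤ j := by
    have h1 : (8 * (z : ℝ)) ^ 2 ≤ (j : ℝ) ^ 2 := by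
      have h2 : δ * (K * w * (z : ℝ) ^ 2) ≤ 512 * (j : ℝ) ^ 2 * w :=
        (mul_le_mul_of_nonneg_left b3 hδ0.le).trans J2
      exact J3_aux hδK (cancel_w2 w0 h2)
    have h2 : 8 * (z : ℝ) ≤ j := le_of_pow_le_pow_left₀ (by norm_num) (by positivity) h1
    exact_mod_cast h2
  have J4 : a * b * j ≤ l := by
    by_contra hcon
    push Not at hcon
    have h1 : l + 1 ≤ a * b * j := hcon
    have h1' : (l : ℝ) + 1 ≤ a * b * j := by exact_mod_cast h1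
    have h2 : η * Λ ≤ (a * b * j) * (a * w) := L2.trans (mul_le_mul_of_nonneg_right h1' haw.le)
    have J1r : 64 * (j : ℝ) ^ 2 ≤ r := by exact_mod_cast J1
    exact J4_aux w0 b7 a6 (by linarith) (by linarith) (by positivity) a5 hδ0 h2 J1r R1 hK3 b4
  have hE : Real.exp 1 ≤ 2.75 := by have := Real.exp_one_lt_d9; linarith
  have hE0 := Real.exp_pos 1
  have hD0 : 0 < 16 * Real.exp 1 * CD := by positivity
  have m1 : Real.exp 1 * m * CD ≤ (j : ℝ) ^ 2 / 16 := by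
    have := Nat.floor_le (by positivity : 0 ≤ (j : ℝ) ^ 2 / (16 * Real.exp 1 * CD))
    rw [← hm, le_div_iff₀ hD0] at this
    linarith only [this]
  have m2 : (j : ℝ) ^ 2 ≤ 88 * CD * m := by
    have h1 := (Nat.lt_floor_add_one ((j : ℝ) ^ 2 / (16 * Real.exp 1 * CD))).le
    rw [← hm, div_le_iff₀ hD0] at h1
    have h2 : 1 ≤ m := by
      rw [hm]
      apply Nat.le_floor
      rw [Nat.cast_one, le_div_iff₀ hD0, one_mul]
      -- j² large
      have h3 : δ * (K * w) ≤ 512 * (j : ℝ) ^ 2 * w := (mul_le_mul_of_nonneg_left b4 hδ0.le).trans J2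
      have h5 : 200000 * CD ≤ 512 * (j : ℝ) ^ 2 := hK2.trans (cancel_w w0 h3)
      have h6 : 16 * Real.exp 1 * CD ≤ 16 * 2.75 * CD :=
        mul_le_mul_of_nonneg_right (by linarith only [hE]) (by linarith only [a4])
      linarith only [h5, h6, a4]
    have h2' : (1 : ℝ) ≤ m := by exact_mod_cast h2
    have h6 : ((m : ℝ) + 1) * (16 * Real.exp 1 * CD) ≤ (2 * m) * (16 * 2.75 * CD) := by
      apply mul_le_mul (by linarith only [h2']) _ hD0.le (by linarith only [h2'])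
      apply mul_le_mul_of_nonneg_right _ (by linarith only [a4])
      linarith only [hE]
    linarith only [h1, h6]
  have rl : r ≤ l := by
    apply Nat.floor_le_floor
    rw [div_le_div_iff₀ w0 haw]
    have h1 : δ * a ≤ η := by rwa [le_div_iff₀ (by linarith)] at a10
    calc δ * Λ * (a * w) = (δ * a) * (Λ * w) := by ring
      _ ≤ η * (Λ * w) := mul_le_mul_of_nonneg_right h1 (by positivity)
      _ = _ := by ring
  exact ⟨r, l, j, m, ⟨R1, R2, by linarith, L1, L2, J1, J2, J3, J4, m1, m2, rl⟩⟩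

end Pool.Agent.V8H32.Cos
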