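import Mathlib
import Pool.Agent.V8H32.Cos.Par3

/-! All conditions hold. -/

set_option autoImplicit false

namespace Pool.Agent.V8H32.Cos
open Finset Pool.Agent.R311.RES
open scoped Classical

lemma zpow_exp (z : ℕ) (hz : 0 < z) (n : ℕ) : (z : ℝ) ^ n = Real.exp (n * Real.log z) := by
  rw [mul_comm, Real.exp_mul, Real.exp_log (by exact_mod_cast hz), Real.rpow_natCast]

lemma pr_le (S : Finset ℕ) (B : ℕ) (hB : ∀ p ∈ S, p ≤ B) : pr S ≤ B ^ S.card :=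
  Finset.prod_le_pow_card S _ B hB

lemma dd_le {z y l : ℕ} (hz : 1 ≤ z) (hy : 1 ≤ y) {D : Finset ℕ × Finset ℕ} (hD : D ∈ DD z y l) :
    dd D ≤ z ^ z * y ^ l := by
  rw [mem_DD] at hD
  obtain ⟨h1, h2, h3⟩ := hD
  unfold dd
  apply Nat.mul_le_mul
  · refine (pr_le D.1 z fun p hp => (mem_Q1.1 (h1 hp)).2).trans (Nat.pow_le_pow_right hz ?_)
    refine (card_le_card h1).trans ?_
    unfold Q1
    refine (card_filter_le _ _).trans ?_
    simp
  · exact (pr_le D.2 y fun p hp => (mem_Q2.1 (h2 hp)).2.2).trans (Nat.pow_le_pow_right hy h3)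

lemma sqrt_bounds (q : ℕ) (hq : 4 ≤ q) : Real.sqrt q ≤ ((Nat.sqrt q + 1 : ℕ) : ℝ) ∧
    ((Nat.sqrt q + 1 : ℕ) : ℝ) ≤ 2 * Real.sqrt q ∧ q ≤ (Nat.sqrt q + 1) ^ 2 := by
  have h1 : q < (Nat.sqrt q + 1) * (Nat.sqrt q + 1) := Nat.lt_succ_sqrt q
  have h2 : Nat.sqrt q * Nat.sqrt q ≤ q := Nat.sqrt_le q
  refine ⟨?_, ?_, ?_⟩
  · apply Real.sqrt_le_iff.2
    refine ⟨by positivity, ?_⟩
    rw [sq]
    exact_mod_cast h1.le
  · have h3 : ((Nat.sqrt q : ℕ) : ℝ) ≤ Real.sqrt q := by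
      apply Real.le_sqrt_of_sq_le
      rw [sq]
      exact_mod_cast h2
    have h4 : (1 : ℝ) ≤ Real.sqrt q := by
      rw [Real.one_le_sqrt]
      exact_mod_cast (by omega : 1 ≤ q)
    push_cast
    linarith
  · nlinarith

section
variable {ε C : ℝ} {a b T1 : ℕ} {η δ CD K c : ℝ} {z r l j m : ℕ} {q : ℕ} [Fact q.Prime]

lemma nums_e1 {l a w η Λ : ℝ} (hΛ : 0 < Λ) (h7 : η ≤ 1 / 64) (L1 : l * (a * w) ≤ η * Λ) :
    l * (a * w) ≤ Λ / 64 := by
  have : η * Λ ≤ 1 / 64 * Λ := mul_le_mul_of_nonneg_right h7 hΛ.le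
  linarith

lemma nums_e2 {l a w η Λ ε : ℝ} (hl : 0 ≤ l) (hw : 0 ≤ w) (ha : 240 ≤ a) (hη : η = ε / 64)
    (L1 : l * (a * w) ≤ η * Λ) : l * w ≤ ε * Λ / 15360 := by
  have h1 : 240 * (l * w) ≤ l * (a * w) := by
    have : l * w * 240 ≤ l * w * a := mul_le_mul_of_nonneg_left ha (by positivity)
    calc 240 * (l * w) = l * w * 240 := by ring
      _ ≤ _ := this
      _ = _ := by ring
  rw [hη] at L1
  linarith

lemma nums_e3 {r a b w δ Λ ε : ℝ} (hΛ : 0 < Λ) (hab : 0 ≤ a * b) (h9 : δ * (a * b) ≤ ε / 64)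
    (R1 : r * w ≤ δ * Λ) : r * (a * b * w) ≤ ε * Λ / 64 := by
  calc r * (a * b * w) = (a * b) * (r * w) := by ring
    _ ≤ (a * b) * (δ * Λ) := mul_le_mul_of_nonneg_left R1 (by positivity)
    _ = (δ * (a * b)) * Λ := by ring
    _ ≤ (ε / 64) * Λ := mul_le_mul_of_nonneg_right h9 hΛ.le
    _ = _ := by ring

lemma nums_e4 {z w K Λ ε M : ℝ} (hz : 1 ≤ z) (hw : 0 ≤ w) (hε : 0 ≤ ε) (hM : 0 < M)
    (h0 : M ≤ ε * K) (h3 : K * w * z ^ 2 ≤ Λ) : z * w ≤ ε * Λ / M := by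
  have h1 : M * (w * z ^ 2) ≤ ε * Λ := by
    calc M * (w * z ^ 2) ≤ (ε * K) * (w * z ^ 2) :=
          mul_le_mul_of_nonneg_right h0 (by positivity)
      _ = ε * (K * w * z ^ 2) := by ring
      _ ≤ ε * Λ := mul_le_mul_of_nonneg_left h3 hε
  have h2 : z * w ≤ w * z ^ 2 := by
    have : z ≤ z ^ 2 := le_self_pow₀ hz (by norm_num)
    calc z * w = w * z := by ring
      _ ≤ _ := mul_le_mul_of_nonneg_left this hw
  rw [le_div_iff₀ hM]
  have h4 : M * (z * w) ≤ M * (w * z ^ 2) := mul_le_mul_of_nonneg_left h2 hM.le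
  linarith

lemma nums_e6 {r z w δ Λ : ℝ} (hz : 1000000 ≤ z) (hw : 1 ≤ w) (hr : 0 ≤ r) (hΛ : 0 < Λ)
    (h5 : δ ≤ 1) (R1 : r * w ≤ δ * Λ) (s2 : Λ ≤ 8 * z ^ 3) : 4 * r + 4 ≤ z ^ 4 := by
  have h1 : r ≤ 8 * z ^ 3 := by
    have h2 : r ≤ r * w := le_mul_of_one_le_right hr hw
    have h3 : δ * Λ ≤ 1 * Λ := mul_le_mul_of_nonneg_right h5 hΛ.le
    linarith
  have h3 : z ^ 4 = z * z ^ 3 := by ring
  have h4 : (1 : ℝ) ≤ z ^ 3 := one_le_pow₀ (by linarith)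
  have h5 : 1000000 * z ^ 3 ≤ z * z ^ 3 := mul_le_mul_of_nonneg_right hz (by positivity)
  rw [h3]
  linarith

/-- the numerical inequalities used below -/
lemma nums {Λ : ℝ} (h : Con ε C a b T1 η δ CD K c) (s : Siz K Λ z) (p : Prm a b η δ CD Λ z r l j m) :
    (l : ℝ) * (a * Real.log z) ≤ Λ / 64 ∧ (l : ℝ) * Real.log z ≤ ε * Λ / 15360 ∧
      (r : ℝ) * (a * b * Real.log z) ≤ ε * Λ / 64 ∧ (z : ℝ) * Real.log z ≤ ε * Λ / 1000 ∧
      1000 ≤ ε * Λ ∧ 4 * r + 4 ≤ z ^ 4 ∧ (z : ℝ) * Real.log z ≤ Λ / 1000000 := by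
  obtain ⟨a1, a2, a3, a4, a5, a6, a7, a8, a9, a10, a11⟩ := h.basic
  obtain ⟨b1, b2, b3, b4, b5, b6, b7, b8, b9⟩ := s.basic h
  have hε := h.hε
  have hη := h.hη
  have hK1 := h.hK1
  have R1 := p.R1
  have L1 := p.L1
  have s2 := s.h2
  have w0 : 0 < Real.log z := by linarith only [b2]
  have e0 : 1000 ≤ ε * K := by linarith only [hK1, a3]
  have hz1 : (1 : ℝ) ≤ z := by linarith only [b1]
  refine ⟨nums_e1 b7 a7 L1, nums_e2 (by positivity) w0.le a1 hη L1, nums_e3 b7 (by positivity) a9 R1,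
    nums_e4 hz1 w0.le hε.le (by norm_num) e0 b3, e0.trans (mul_le_mul_of_nonneg_left b6 hε.le), ?_, ?_⟩
  · exact_mod_cast nums_e6 b1 b2 (by positivity) b7 a5 R1 s2
  · have := nums_e4 (ε := 1) (M := 1000000) hz1 w0.le (by norm_num) (by norm_num)
      (by linarith only [a8]) b3
    linarith only [this]

lemma Lbound (X : ℕ) (hX : X ≠ 0) {Λ z : ℝ} (hX2 : (X : ℝ) ≤ Real.exp Λ) (hz : 1000000 ≤ z)
    (s2 : Λ ≤ 8 * z ^ 3) : ((Nat.log 2 X + 1 : ℕ) : ℝ) ≤ z ^ 4 := by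
  have h1 : (2 : ℝ) ^ (Nat.log 2 X) ≤ Real.exp Λ := by
    have h2 : 2 ^ (Nat.log 2 X) ≤ X := Nat.pow_log_le_self 2 hX
    have h3 : ((2 ^ (Nat.log 2 X) : ℕ) : ℝ) ≤ (X : ℝ) := by exact_mod_cast h2
    push_cast at h3
    exact h3.trans hX2
  have h4 : (Nat.log 2 X : ℝ) * Real.log 2 ≤ Λ := by
    have := Real.log_le_log (by positivity) h1
    rwa [Real.log_pow, Real.log_exp] at this
  have h5 := Real.log_two_gt_d9
  have h6 : (Nat.log 2 X : ℝ) ≤ 2 * Λ := by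
    have h7 : (0 : ℝ) ≤ (Nat.log 2 X : ℝ) := by positivity
    nlinarith only [h4, h5, h7]
  push_cast
  have h3 : z ^ 4 = z * z ^ 3 := by ring
  have h4 : (1 : ℝ) ≤ z ^ 3 := one_le_pow₀ (by linarith)
  have h5 : 1000000 * z ^ 3 ≤ z * z ^ 3 := mul_le_mul_of_nonneg_right hz (by positivity)
  rw [h3]
  linarith

lemma hbig_aux {w ε a Λ L : ℝ} (hL0 : 0 < L) (hL : Real.log L ≤ 4 * w) (hΛ : Real.log Λ ≤ 4 * w)
    (hw : 1 ≤ w) (ha : 240 ≤ ε * a) (h4 : Real.log 4 ≤ 2) :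
    Real.log 4 + 2 * Real.log Λ - 2 * Real.log (1 / 4 / L ^ 2) ≤ ε / 8 * (a * w) := by
  have h1 : Real.log (1 / 4 / L ^ 2) = -(Real.log 4 + 2 * Real.log L) := by
    rw [div_div, one_div, Real.log_inv, Real.log_mul (by norm_num) (by positivity), Real.log_pow]
    push_cast; ring
  rw [h1]
  have h3 : 240 * w ≤ ε * a * w := mul_le_mul_of_nonneg_right ha (by linarith)
  linarith

set_option maxHeartbeats 1000000 in
theorem mk_par (hM : ∀ u v : ℕ, 3 ≤ u → u ≤ v →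
    Real.log (Real.log v / Real.log u) - C ≤ ∑ p ∈ (Ioc u v).filter Nat.Prime, 1 / (p : ℝ) ∧
    ∑ p ∈ (Ioc u v).filter Nat.Prime, 1 / (p : ℝ) ≤ Real.log (Real.log v / Real.log u) + C)
    (h : Con ε C a b T1 η δ CD K c) (s : Siz K (Real.log q) z)
    (p : Prm a b η δ CD (Real.log q) z r l j m) :
    Par q ε z (z ^ a) l (Nat.sqrt q + 1) (z ^ l) r j m ((z ^ a) ^ b)
      ((Ioc (z ^ a) ((z ^ a) ^ b)).filter Nat.Prime) (ε / 8) ((j : ℝ) / 4) CD := by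
  obtain ⟨n1, n2, n3, n4, n5, n6, n7⟩ := nums h s p
  obtain ⟨a1, a2, a3, a4, a5, a6, a7, a8, a9, a10, a11⟩ := h.basic
  obtain ⟨b1, b2, b3, b4, b5, b6, b7, b8, b9⟩ := s.basic h
  obtain ⟨hε, hε1, hC, ha, hb, hb1, hη, hT1, hδ0, hδ, hCD, hK1, hK2, hK3, hc0, hc1, hc2, hc3⟩ := h
  obtain ⟨R1, R2, R3, L1, L2, J1, J2, J3, J4, m1, m2, rl⟩ := p
  obtain ⟨s1, s2, s3, s4⟩ := s
  clear a5 a6 a7 a10 a11 hK1 hK2 hK3 hc0 hc1 hc2 hc3 s1 s3 s4 b3 b4 b5 b9 hδ0 hδ hη L1 L2 R1 R2 J2 a3 a9 m2 hT1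
  have hqn : 1 < q := (Fact.out : q.Prime).one_lt
  have hq0 : (0 : ℝ) < q := by exact_mod_cast (by omega : 0 < q)
  set Λ := Real.log q with hΛdef
  have hqe : (q : ℝ) = Real.exp Λ := (Real.exp_log hq0).symm
  set w := Real.log z with hw
  have w0 : 0 < w := by linarith only [b2]
  have z0 : (0 : ℝ) < z := by linarith only [b1]
  have zn : 1000000 ≤ z := by exact_mod_cast b1
  have zn0 : 0 < z := by omega
  have an : 240 ≤ a := by exact_mod_cast a1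
  have ze : ∀ n : ℕ, (z : ℝ) ^ n = Real.exp (n * w) := zpow_exp z zn0
  have hzy : z ≤ z ^ a := Nat.le_self_pow (by omega) z
  have hz4 : z ^ 4 ≤ z ^ a := Nat.pow_le_pow_right zn0 (by omega)
  have hy1 : 1 ≤ z ^ a := by omega
  have hYy : z ^ a ≤ (z ^ a) ^ b := Nat.le_self_pow (by omega) _
  have hly : Real.log ((z ^ a : ℕ) : ℝ) = a * w := by
    push_cast; rw [Real.log_pow]
  have hlY : Real.log (((z ^ a) ^ b : ℕ) : ℝ) = b * (a * w) := by
    push_cast; rw [Real.log_pow, Real.log_pow]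
  have haw : 0 < (a : ℝ) * w := by positivity
  have hq4 : 4 ≤ q := by
    by_contra hcon
    push Not at hcon
    have h1 : (q : ℝ) ≤ 4 := by exact_mod_cast hcon.le
    have h2 : Real.log q ≤ q := by
      have := Real.log_le_sub_one_of_pos hq0
      linarith only [this]
    linarith only [h1, h2, a8, b6, hΛdef]
  obtain ⟨q1, q2, q3⟩ := sqrt_bounds q hq4
  have hsq : Real.sqrt q = Real.exp (Λ / 2) := by
    rw [Real.sqrt_eq_iff_mul_self_eq (by positivity) (Real.exp_pos _).le, ← Real.exp_add, hqe]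
    congr 1; ring
  have hll : (l : ℝ) * w ≤ Λ / 64 := by
    refine le_trans ?_ n1
    exact mul_le_mul_of_nonneg_left (le_mul_of_one_le_left w0.le (by linarith only [a1])) (by positivity)
  have hYr : (((z ^ a) ^ b) ^ r : ℕ) = z ^ (a * b * r) := by rw [← pow_mul, ← pow_mul, mul_assoc]
  have hεΛ : ε * Λ ≤ 1 * Λ := mul_le_mul_of_nonneg_right hε1 b7.le
  have hfin : Real.exp (((l : ℝ) * (a * w)) + (r : ℝ) * (a * b * w)) < q := by
    rw [hqe]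
    apply Real.exp_lt_exp.2
    linarith only [hεΛ, n1, n3, b7]
  have e_yl : (((z ^ a) ^ l : ℕ) : ℝ) = Real.exp ((l : ℝ) * (a * w)) := by
    rw [← pow_mul]; push_cast; rw [ze]; congr 1; push_cast; ring
  have e_Yr : ((((z ^ a) ^ b) ^ r : ℕ) : ℝ) = Real.exp ((r : ℝ) * (a * b * w)) := by
    rw [hYr]; push_cast; rw [ze]; congr 1; push_cast; ring
  have e_M1 : ((z ^ l : ℕ) : ℝ) = Real.exp ((l : ℝ) * w) := by
    push_cast; rw [ze]
  have e_zz : ((z ^ z : ℕ) : ℝ) = Real.exp ((z : ℝ) * w) := by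
    push_cast; rw [ze]
  have hMY : ((z ^ l * ((z ^ a) ^ b) ^ r : ℕ) : ℝ) = Real.exp ((l : ℝ) * w + (r : ℝ) * (a * b * w)) := by
    rw [Nat.cast_mul, e_M1, e_Yr, ← Real.exp_add]
  have hlog4 : Real.log 4 ≤ 2 := by
    have h1 : Real.log 4 = 2 * Real.log 2 := by
      rw [show (4 : ℝ) = 2 ^ 2 by norm_num, Real.log_pow]; norm_num
    have h2 := Real.log_two_lt_d9
    linarith only [h1, h2]
  have G1 : 1 ≤ ∑ p ∈ (Ioc (z ^ a) ((z ^ a) ^ b)).filter Nat.Prime, 1 / (p : ℝ) := by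
    have h1 := (hM (z ^ a) ((z ^ a) ^ b) (by omega) hYy).1
    rw [hly, hlY, mul_div_assoc, div_self haw.ne', mul_one] at h1
    linarith only [h1, hb]
  have G2 : 1 ≤ r := by
    have : (1000 : ℕ) ≤ r := by exact_mod_cast R3
    omega
  have G3 : (4 * (r : ℝ) + 4) ≤ ((z ^ a : ℕ) : ℝ) ^ (ε / 8) := by
    have h1 : (4 * (r : ℝ) + 4) ≤ (z : ℝ) ^ 4 := by exact_mod_cast n6
    refine h1.trans ?_
    have h2 : (((z ^ a : ℕ) : ℝ)) ^ (ε / 8) = Real.exp (a * w * (ε / 8)) := by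
      rw [Real.rpow_def_of_pos (by exact_mod_cast hy1), hly]
    rw [h2, ze]
    apply Real.exp_le_exp.2
    push_cast
    have : 240 * w ≤ ε * a * w := mul_le_mul_of_nonneg_right ha w0.le
    linarith only [this, w0]
  have G4 : z ^ l ≤ Nat.sqrt q + 1 := by
    have h1 : ((z ^ l : ℕ) : ℝ) ≤ ((Nat.sqrt q + 1 : ℕ) : ℝ) := by
      refine le_trans ?_ q1
      rw [e_M1, hsq]
      apply Real.exp_le_exp.2
      linarith only [hll, b7]
    exact_mod_cast h1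
  have G5 : ((z ^ a) ^ b) ^ j ≤ z ^ l := by
    rw [← pow_mul, ← pow_mul]
    rw [mul_assoc] at J4
    exact Nat.pow_le_pow_right zn0 J4
  have G6 : ∀ D ∈ DD z (z ^ a) l, (Nat.sqrt q + 1) * dd D < q := by
    intro D hD
    have h1 : ((Nat.sqrt q + 1 : ℕ) : ℝ) * ((dd D : ℕ) : ℝ) < q := by
      have h2 : ((dd D : ℕ) : ℝ) ≤ ((z ^ z * (z ^ a) ^ l : ℕ) : ℝ) := by
        exact_mod_cast dd_le (by omega) hy1 hD
      calc ((Nat.sqrt q + 1 : ℕ) : ℝ) * ((dd D : ℕ) : ℝ)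
          ≤ (2 * Real.sqrt q) * ((z ^ z * (z ^ a) ^ l : ℕ) : ℝ) := by
            apply mul_le_mul q2 h2 (by positivity) (by positivity)
        _ = 2 * Real.exp (Λ / 2 + (z * w + l * (a * w))) := by
            rw [Nat.cast_mul, e_zz, e_yl, hsq, Real.exp_add, Real.exp_add]; ring
        _ ≤ Real.exp 1 * Real.exp (Λ / 2 + (z * w + l * (a * w))) := by
            apply mul_le_mul_of_nonneg_right _ (Real.exp_pos _).le
            have := Real.exp_one_gt_d9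
            linarith only [this]
        _ = Real.exp (1 + (Λ / 2 + (z * w + l * (a * w)))) := by rw [← Real.exp_add]
        _ < Real.exp Λ := by
            apply Real.exp_lt_exp.2
            linarith only [n1, n7, a8, b6]
        _ = q := hqe.symm
    exact_mod_cast h1
  have G7 : ((4 * (z ^ l * ((z ^ a) ^ b) ^ r) ^ 2 : ℕ) : ℝ) ≤ (q : ℝ) ^ (ε / 8) := by
    rw [Nat.cast_mul, Nat.cast_pow, hMY, ← Real.exp_nat_mul]
    have h2 : (q : ℝ) ^ (ε / 8) = Real.exp (Λ * (ε / 8)) := by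
      rw [Real.rpow_def_of_pos hq0]
    have h3 : (((4 : ℕ)) : ℝ) = Real.exp (Real.log 4) := by
      rw [Real.exp_log (by norm_num)]; norm_num
    rw [h2, h3, ← Real.exp_add]
    apply Real.exp_le_exp.2
    push_cast
    linarith only [n2, n3, n5, hlog4]
  have G8 : Real.log 4 + 2 * Real.log Λ -
      2 * Real.log (1 / 4 / ((Nat.log 2 (z ^ l * ((z ^ a) ^ b) ^ r) + 1 : ℕ) : ℝ) ^ 2) ≤
        ε / 8 * Real.log ((z ^ a : ℕ) : ℝ) := by
    have hX2 : ((z ^ l * ((z ^ a) ^ b) ^ r : ℕ) : ℝ) ≤ Real.exp Λ := by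
      rw [hMY]
      apply Real.exp_le_exp.2
      linarith only [hεΛ, hll, n3, b7]
    have hL := Lbound (z ^ l * ((z ^ a) ^ b) ^ r) (Nat.mul_ne_zero (by positivity) (by positivity))
      hX2 b1 s2
    rw [hly]
    refine hbig_aux (by positivity) ?_ b8 b2 ha hlog4
    calc Real.log ((Nat.log 2 (z ^ l * ((z ^ a) ^ b) ^ r) + 1 : ℕ) : ℝ)
        ≤ Real.log ((z : ℝ) ^ 4) := Real.log_le_log (by positivity) hL
      _ = _ := by rw [Real.log_pow]; norm_num; exact hw.symm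
  have G9 : m ≤ l := by
    have h1 : (m : ℝ) ≤ (j : ℝ) ^ 2 := by
      have h2 : (1 : ℝ) ≤ Real.exp 1 * CD := by
        have h := Real.exp_one_gt_d9
        nlinarith only [h, a4]
      have h3 : (m : ℝ) ≤ m * (Real.exp 1 * CD) := le_mul_of_one_le_right (by positivity) h2
      have h4 : (0 : ℝ) ≤ (j : ℝ) ^ 2 := by positivity
      linarith only [h3, h4, m1]
    have h2 : m ≤ j ^ 2 := by exact_mod_cast h1
    omega
  have G10 : (0 : ℝ) < j / 4 := by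
    have : (0 : ℝ) < j := by exact_mod_cast (by omega : 0 < j)
    positivity
  have G11 : ∑ p ∈ Q2 z (z ^ a), 1 / (p : ℝ) ≤ CD := by
    have h1 := (hM z (z ^ a) (by omega) hzy).2
    rw [hly, mul_div_assoc, div_self w0.ne', mul_one] at h1
    unfold Q2
    linarith only [h1, hCD]
  have G12 : (z ^ a) ^ l * ((z ^ a) ^ b) ^ r < q := by
    have h1 : (((z ^ a) ^ l * ((z ^ a) ^ b) ^ r : ℕ) : ℝ) < q := by
      rw [Nat.cast_mul, e_yl, e_Yr, ← Real.exp_add]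
      exact hfin
    exact_mod_cast h1
  have G13 : 1 ≤ z ^ l := Nat.one_le_iff_ne_zero.2 (pow_ne_zero _ (by omega))
  have G14 : 2 * r ≤ z ^ a := by omega
  refine ⟨hε, hε1, by omega, hzy, by omega, ?_, G1, G2, G14, J1, by positivity, le_rfl, G3, G13, G4,
    le_rfl, G5, G6, G7, by linarith only [a8, b6], G8, G9, G10, by linarith only [m1], G11, G12⟩
  intro p hp
  rw [mem_filter, mem_Ioc] at hp
  exact ⟨hp.2, hp.1⟩

end

end Pool.Agent.V8H32.Cos
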