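import Mathlib
import Pool.Agent.V8H32.Cos.Par4

/-! The bound for the number of bad characters. -/

set_option autoImplicit false

namespace Pool.Agent.V8H32.Cos
open Finset Pool.Agent.R311.RES
open scoped Classical

/-- the fourth term -/
lemma t4_aux {m u w CD δ Λ j c K : ℝ} (hw : 0 < w) (hCD : 0 < CD)
    (m2 : j ^ 2 ≤ 88 * CD * m) (J2 : δ * Λ ≤ 512 * j ^ 2 * w) (hu : u * (3 * w) ≤ c * Λ)
    (hc2 : c * CD ≤ δ / 32768) (hK2 : 200000 * CD ≤ δ * K) (hΛ : 0 < Λ) (hδ : 0 < δ)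
    (hKw : K * w ≤ Λ) : 2 + u ≤ m := by
  have h1 : δ * Λ ≤ 45056 * (m * (CD * w)) := by
    have : j ^ 2 * w ≤ 88 * CD * m * w := mul_le_mul_of_nonneg_right m2 hw.le
    linarith
  have h2 : u * (CD * w) ≤ δ * Λ / 98304 := by
    have h3 : u * (3 * w) * CD ≤ c * Λ * CD := mul_le_mul_of_nonneg_right hu hCD.le
    have h4 : c * CD * Λ ≤ δ / 32768 * Λ := mul_le_mul_of_nonneg_right hc2 hΛ.le
    linarith
  have h3 : 2 * (CD * w) ≤ δ * Λ / 100000 := by
    have h4 : 200000 * CD * w ≤ δ * K * w := mul_le_mul_of_nonneg_right hK2 hw.le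
    have h5 : δ * (K * w) ≤ δ * Λ := mul_le_mul_of_nonneg_left hKw hδ.le
    linarith
  have h4 : (2 + u) * (CD * w) ≤ m * (CD * w) := by
    have : 0 < δ * Λ := by positivity
    linarith
  exact le_of_mul_le_mul_right h4 (by positivity)

/-- the exponent `c 𝓛` -/
lemma cl_aux {c 𝓛 w δ Λ j : ℝ} (hw : 0 < w) (hj : 0 ≤ j) (hc : 0 < c)
    (hδ : 0 < δ) (hδ1 : δ ≤ 1) (hc1 : c ≤ δ / 100) (h3 : 𝓛 ^ 2 * (3 * w) ≤ Λ)
    (J2 : δ * Λ ≤ 512 * j ^ 2 * w) : c * 𝓛 ≤ j / 4 := by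
  apply abs_le_of_sq_le_sq' _ (by positivity) |>.2
  have h4 : δ * 𝓛 ^ 2 * 3 ≤ 512 * j ^ 2 := by
    have : (δ * 𝓛 ^ 2 * 3) * w ≤ (512 * j ^ 2) * w := by
      calc (δ * 𝓛 ^ 2 * 3) * w = δ * (𝓛 ^ 2 * (3 * w)) := by ring
        _ ≤ δ * Λ := mul_le_mul_of_nonneg_left h3 hδ.le
        _ ≤ _ := J2
    exact le_of_mul_le_mul_right this hw
  have h5 : c ^ 2 ≤ δ / 10000 := by
    calc c ^ 2 ≤ (δ / 100) ^ 2 := pow_le_pow_left₀ hc.le hc1 2
      _ = δ / 10000 * δ := by ring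
      _ ≤ δ / 10000 * 1 := mul_le_mul_of_nonneg_left hδ1 (by positivity)
      _ = _ := by ring
  calc (c * 𝓛) ^ 2 = c ^ 2 * 𝓛 ^ 2 := by ring
    _ ≤ δ / 10000 * 𝓛 ^ 2 := mul_le_mul_of_nonneg_right h5 (by positivity)
    _ ≤ (j / 4) ^ 2 := by nlinarith [sq_nonneg j]

lemma exp_quarter {x t : ℝ} (h : x + 2 ≤ t) : Real.exp x ≤ 1 / 4 * Real.exp t := by
  have h1 : (4 : ℝ) ≤ Real.exp 2 := by
    have := Real.exp_one_gt_d9
    have h2 : Real.exp 2 = Real.exp 1 * Real.exp 1 := by rw [← Real.exp_add]; norm_num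
    rw [h2]
    nlinarith
  have h2 : Real.exp x * 4 ≤ Real.exp t := by
    calc Real.exp x * 4 ≤ Real.exp x * Real.exp 2 := mul_le_mul_of_nonneg_left h1 (Real.exp_pos _).le
      _ = Real.exp (x + 2) := by rw [← Real.exp_add]
      _ ≤ _ := Real.exp_le_exp.2 h
  linarith

section
variable {ε C : ℝ} {a b T1 : ℕ} {η δ CD K c : ℝ} {z r l j m : ℕ} {q : ℕ} [Fact q.Prime]

/-- the condition on the size of the values -/
lemma hV_aux {Λ : ℝ} (h : Con ε C a b T1 η δ CD K c) (s : Siz K Λ z) (p : Prm a b η δ CD Λ z r l j m) :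
    Real.exp (c * Real.sqrt (Λ / Real.log Λ)) *
      (9 * 2 ^ z * ((l : ℝ) + 1) ^ 2 * Real.exp ((j : ℝ) / 4 + 6 * CD)) < Real.exp j := by
  obtain ⟨a1, a2, a3, a4, a5, a6, a7, a8, a9, a10, a11⟩ := h.basic
  obtain ⟨b1, b2, b3, b4, b5, b6, b7, b8, b9⟩ := s.basic h
  have hK2 := h.hK2
  have s2 := s.h2
  have s3 := s.h3
  have s4 := s.h4
  have L1 := p.L1
  have J3 := p.J3
  set w := Real.log z with hw
  have w0 : 0 < w := by linarith only [b2]
  have z0 : (0 : ℝ) < z := by linarith only [b1]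
  have jr : 8 * (z : ℝ) ≤ j := by exact_mod_cast J3
  have e1 : c * Real.sqrt (Λ / Real.log Λ) ≤ j / 4 := by
    have hlΛ : 0 < Real.log Λ := by linarith only [b9, w0]
    apply cl_aux w0 (by positivity) h.hc0 h.hδ0 a5 h.hc1 _ p.J2
    rw [Real.sq_sqrt (by positivity), div_mul_eq_mul_div, div_le_iff₀ hlΛ]
    exact mul_le_mul_of_nonneg_left b9 b7.le
  have e2 : (2 : ℝ) ^ z ≤ Real.exp ((z : ℝ) * 0.7) := by
    rw [Real.exp_nat_mul]
    apply pow_le_pow_left₀ (by norm_num)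
    rw [← Real.exp_log (by norm_num : (0 : ℝ) < 2)]
    apply Real.exp_le_exp.2
    have := Real.log_two_lt_d9
    linarith only [this]
  have hl : (l : ℝ) ≤ 8 * (z : ℝ) ^ 3 := by
    have h2 : (l : ℝ) ≤ l * (a * w) := by
      apply le_mul_of_one_le_right (by positivity)
      nlinarith only [a1, b2]
    have h3 : η * Λ ≤ 1 * Λ := mul_le_mul_of_nonneg_right (by linarith only [a7]) b7.le
    linarith only [h2, h3, L1, s2]
  have e3 : (l : ℝ) + 1 ≤ Real.exp (4 * w) := by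
    have h1 : (l : ℝ) + 1 ≤ (z : ℝ) ^ 4 := by
      have h3 : (z : ℝ) ^ 4 = z * (z : ℝ) ^ 3 := by ring
      have h4 : (1 : ℝ) ≤ (z : ℝ) ^ 3 := one_le_pow₀ (by linarith only [b1])
      have h5 : 1000000 * (z : ℝ) ^ 3 ≤ z * (z : ℝ) ^ 3 :=
        mul_le_mul_of_nonneg_right b1 (by positivity)
      rw [h3]
      linarith only [hl, h4, h5]
    refine h1.trans (le_of_eq ?_)
    rw [zpow_exp z (by exact_mod_cast z0) 4]
    norm_num
    rfl
  have e4 : (9 : ℝ) ≤ Real.exp 3 := by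
    have h1 := Real.exp_one_gt_d9
    have h2 : Real.exp 3 = Real.exp 1 * Real.exp 1 * Real.exp 1 := by
      rw [← Real.exp_add, ← Real.exp_add]; norm_num
    rw [h2]
    have h3 : (2.7 : ℝ) * 2.7 ≤ Real.exp 1 * Real.exp 1 := by nlinarith only [h1]
    nlinarith only [h1, h3]
  have hCDz : CD ≤ (z : ℝ) / 200000 := by
    have h1 : δ * K ≤ 1 * K := mul_le_mul_of_nonneg_right a5 (by linarith only [a8])
    linarith only [h1, hK2, s3]
  have hwz : w ≤ (z : ℝ) / 1000000 := by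
    have h1 : 1000000 * w ≤ K * w := mul_le_mul_of_nonneg_right a8 w0.le
    linarith only [h1, s4]
  calc Real.exp (c * Real.sqrt (Λ / Real.log Λ)) *
      (9 * 2 ^ z * ((l : ℝ) + 1) ^ 2 * Real.exp ((j : ℝ) / 4 + 6 * CD))
      ≤ Real.exp (j / 4) * (Real.exp 3 * Real.exp ((z : ℝ) * 0.7) * (Real.exp (4 * w)) ^ 2 *
        Real.exp ((j : ℝ) / 4 + 6 * CD)) := by
        apply mul_le_mul (Real.exp_le_exp.2 e1) _ (by positivity) (Real.exp_pos _).le
        apply mul_le_mul_of_nonneg_right _ (Real.exp_pos _).le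
        apply mul_le_mul (mul_le_mul e4 e2 (by positivity) (Real.exp_pos _).le)
          (pow_le_pow_left₀ (by positivity) e3 2) (by positivity) (by positivity)
    _ = Real.exp (j / 4 + (3 + z * 0.7 + 2 * (4 * w) + (j / 4 + 6 * CD))) := by
        have : (Real.exp (4 * w)) ^ 2 = Real.exp (2 * (4 * w)) := by
          rw [← Real.exp_nat_mul]; norm_num
        rw [this, ← Real.exp_add, ← Real.exp_add, ← Real.exp_add, ← Real.exp_add]
    _ < Real.exp j := by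
        apply Real.exp_lt_exp.2
        linarith only [jr, hCDz, hwz, b1]

/-- first term -/
lemma t1_aux {Λ u : ℝ} (hq : (q : ℝ) = Real.exp Λ) (L : ℝ) (hL0 : 0 ≤ L) (w : ℝ) (hL : L ≤ Real.exp (4 * w))
    (hw : w ≤ ε * Λ / 1000) (hu : u ≤ ε * Λ / 16000) (h5 : 1000 ≤ ε * Λ) :
    3 * (L ^ 2 * (q : ℝ) ^ (-(ε / 2))) ≤ 1 / 4 * Real.exp (-u) := by
  have h1 : (q : ℝ) ^ (-(ε / 2)) = Real.exp (Λ * (-(ε / 2))) := by
    rw [hq, ← Real.exp_mul]
  have h2 : L ^ 2 ≤ Real.exp (8 * w) := by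
    calc L ^ 2 ≤ (Real.exp (4 * w)) ^ 2 := pow_le_pow_left₀ hL0 hL 2
      _ = _ := by rw [← Real.exp_nat_mul]; congr 1; push_cast; ring
  have h3 : (3 : ℝ) ≤ Real.exp 2 := by
    have := Real.add_one_le_exp 2
    linarith
  calc 3 * (L ^ 2 * (q : ℝ) ^ (-(ε / 2))) ≤ Real.exp 2 * (Real.exp (8 * w) * Real.exp (Λ * (-(ε / 2)))) := by
        rw [h1]
        apply mul_le_mul h3 _ (by positivity) (Real.exp_pos _).le
        exact mul_le_mul_of_nonneg_right h2 (Real.exp_pos _).le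
    _ = Real.exp (2 + (8 * w + Λ * (-(ε / 2)))) := by rw [← Real.exp_add, ← Real.exp_add]
    _ ≤ _ := by
        apply exp_quarter
        linarith

/-- second term -/
lemma t2_aux {Λ u Z : ℝ} {T : ℝ} (hT : 0 < T) (hq : (q : ℝ) = Real.exp Λ)
    (hZ : Z ≤ Real.exp (ε * Λ / (8 * T))) (hu : u ≤ ε * Λ / (16 * T)) (h5 : 1000 * T ≤ ε * Λ) :
    64 * Z * (q : ℝ) ^ (-(ε / (4 * T))) ≤ 1 / 4 * Real.exp (-u) := by
  have h1 : (q : ℝ) ^ (-(ε / (4 * T))) = Real.exp (Λ * (-(ε / (4 * T)))) := by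
    rw [hq, ← Real.exp_mul]
  have h3 : (64 : ℝ) ≤ Real.exp 5 := by
    have h1 := Real.exp_one_gt_d9
    have h2 : Real.exp 5 = (Real.exp 1) ^ 5 := by rw [← Real.exp_nat_mul]; norm_num
    rw [h2]
    calc (64 : ℝ) ≤ 2.7 ^ 5 := by norm_num
      _ ≤ _ := pow_le_pow_left₀ (by norm_num) (by linarith) 5
  calc 64 * Z * (q : ℝ) ^ (-(ε / (4 * T))) ≤
      Real.exp 5 * Real.exp (ε * Λ / (8 * T)) * Real.exp (Λ * (-(ε / (4 * T)))) := by
        rw [h1]
        apply mul_le_mul_of_nonneg_right _ (Real.exp_pos _).le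
        calc 64 * Z ≤ 64 * Real.exp (ε * Λ / (8 * T)) := mul_le_mul_of_nonneg_left hZ (by norm_num)
          _ ≤ _ := mul_le_mul_of_nonneg_right h3 (Real.exp_pos _).le
    _ = Real.exp (5 + ε * Λ / (8 * T) + Λ * (-(ε / (4 * T)))) := by rw [← Real.exp_add, ← Real.exp_add]
    _ ≤ _ := by
        apply exp_quarter
        have e1 : ε * Λ / (8 * T) + Λ * (-(ε / (4 * T))) = -(2 * (ε * Λ / (16 * T))) := by
          field_simp; ring
        have e2 : 62 ≤ ε * Λ / (16 * T) := by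
          rw [le_div_iff₀ (by positivity)]
          linarith
        linarith

/-- third term -/
lemma t3_aux {Λ u Z D κ : ℝ} (hq : (q : ℝ) = Real.exp Λ) (hD0 : 0 ≤ D) (hZ0 : 0 ≤ Z)
    (hκ0 : 0 ≤ κ)
    (hZ : Z ≤ Real.exp (ε * Λ / 8000)) (hD : D ≤ Real.exp (ε * Λ / 50)) (hκ : κ ≤ Real.exp (-(ε * Λ)))
    (hu : u ≤ ε * Λ / 16000) (h5 : 1000 ≤ ε * Λ) :
    64 * D ^ 2 * Z * (9 * κ + 4 * (q : ℝ) ^ (-(ε / 8))) ≤ 1 / 4 * Real.exp (-u) := by
  have h1 : (q : ℝ) ^ (-(ε / 8)) = Real.exp (Λ * (-(ε / 8))) := by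
    rw [hq, ← Real.exp_mul]
  have h2 : 9 * κ + 4 * (q : ℝ) ^ (-(ε / 8)) ≤ Real.exp 3 * Real.exp (-(ε * Λ / 8)) := by
    have e1 : κ ≤ Real.exp (-(ε * Λ / 8)) := hκ.trans (Real.exp_le_exp.2 (by linarith))
    have e2 : Real.exp (Λ * (-(ε / 8))) = Real.exp (-(ε * Λ / 8)) := by congr 1; ring
    have e3 : (13 : ℝ) ≤ Real.exp 3 := by
      have h1 := Real.exp_one_gt_d9
      have h2 : Real.exp 3 = (Real.exp 1) ^ 3 := by rw [← Real.exp_nat_mul]; norm_num
      rw [h2]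
      calc (13 : ℝ) ≤ 2.7 ^ 3 := by norm_num
        _ ≤ _ := pow_le_pow_left₀ (by norm_num) (by linarith) 3
    rw [h1, e2]
    have := mul_le_mul_of_nonneg_right e3 (Real.exp_pos (-(ε * Λ / 8))).le
    linarith
  have h3 : (64 : ℝ) ≤ Real.exp 5 := by
    have h1 := Real.exp_one_gt_d9
    have h2 : Real.exp 5 = (Real.exp 1) ^ 5 := by rw [← Real.exp_nat_mul]; norm_num
    rw [h2]
    calc (64 : ℝ) ≤ 2.7 ^ 5 := by norm_num
      _ ≤ _ := pow_le_pow_left₀ (by norm_num) (by linarith) 5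
  have h4 : D ^ 2 ≤ Real.exp (ε * Λ / 25) := by
    calc D ^ 2 ≤ (Real.exp (ε * Λ / 50)) ^ 2 := pow_le_pow_left₀ hD0 hD 2
      _ = _ := by rw [← Real.exp_nat_mul]; congr 1; push_cast; ring
  have hq0 : (0 : ℝ) ≤ (q : ℝ) ^ (-(ε / 8)) := by positivity
  calc 64 * D ^ 2 * Z * (9 * κ + 4 * (q : ℝ) ^ (-(ε / 8))) ≤
      Real.exp 5 * Real.exp (ε * Λ / 25) * Real.exp (ε * Λ / 8000) *
        (Real.exp 3 * Real.exp (-(ε * Λ / 8))) := by
        apply mul_le_mul _ h2 (by positivity) (by positivity)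
        apply mul_le_mul _ hZ hZ0 (by positivity)
        exact mul_le_mul h3 h4 (by positivity) (by positivity)
    _ = Real.exp (5 + ε * Λ / 25 + ε * Λ / 8000 + (3 + -(ε * Λ / 8))) := by
        rw [← Real.exp_add, ← Real.exp_add, ← Real.exp_add, ← Real.exp_add]
    _ ≤ _ := by
        apply exp_quarter
        linarith


theorem par_bound (hM : ∀ u v : ℕ, 3 ≤ u → u ≤ v →
    Real.log (Real.log v / Real.log u) - C ≤ ∑ p ∈ (Ioc u v).filter Nat.Prime, 1 / (p : ℝ) ∧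
    ∑ p ∈ (Ioc u v).filter Nat.Prime, 1 / (p : ℝ) ≤ Real.log (Real.log v / Real.log u) + C)
    (h : Con ε C a b T1 η δ CD K c) (s : Siz K (Real.log q) z)
    (H : Subgroup (DirichletCharacter ℂ q))
    (hKc : (Fintype.card (ann H) : ℝ) ≤ (q : ℝ) ^ (1 - ε))
    (hβ : ∀ M : ℕ, q ≤ M ^ T1 → ∀ g, DS (ann H) M g ≤ (q : ℝ) ^ (-(ε / (4 * T1))))
    (hγ : ∀ M : ℕ, q ≤ M ^ 2 → ∀ g, DS (ann H) M g ≤ (q : ℝ) ^ (-(ε / 8))) :
    ((univ.filter (fun χ₀ : DirichletCharacter ℂ q => ∀ ψ : H,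
      ‖DirichletCharacter.LFunction (χ₀ * (ψ : DirichletCharacter ℂ q)) (1 / 2)‖ ≤
        Real.exp (c * Real.sqrt (Real.log q / Real.log (Real.log q))))).card : ℝ) ≤
      (q - 1) * Real.exp (-(c * (Real.log q / Real.log (Real.log q)))) := by
  obtain ⟨r, l, j, m, p⟩ := exists_prm h s
  have hpar := mk_par hM h s p
  obtain ⟨n1, n2, n3, n4, n5, n6, n7⟩ := nums h s p
  have hVV := hV_aux h s p
  obtain ⟨a1, a2, a3, a4, a5, a6, a7, a8, a9, a10, a11⟩ := h.basic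
  obtain ⟨b1, b2, b3, b4, b5, b6, b7, b8, b9⟩ := s.basic h
  obtain ⟨hε, hε1, hC, ha, hb, hb1, hη, hT1, hδ0, hδ, hCD, hK1, hK2, hK3, hc0, hc1, hc2, hc3⟩ := h
  obtain ⟨R1, R2, R3, L1, L2, J1, J2, J3, J4, m1, m2, rl⟩ := p
  obtain ⟨s1, s2, s3, s4⟩ := s
  have hqn : 1 < q := (Fact.out : q.Prime).one_lt
  have hq0 : (0 : ℝ) < q := by exact_mod_cast (by omega : 0 < q)
  set Λ := Real.log q with hΛdef
  have hqe : (q : ℝ) = Real.exp Λ := (Real.exp_log hq0).symm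
  set w := Real.log z with hw
  have w0 : 0 < w := by linarith only [b2]
  have z0 : (0 : ℝ) < z := by linarith only [b1]
  have zn : 1000000 ≤ z := by exact_mod_cast b1
  have zn0 : 0 < z := by omega
  have T0 : (0 : ℝ) < T1 := by linarith only [a3]
  have hq1 : (0 : ℝ) ≤ (q : ℝ) - 1 := by
    have : (1 : ℝ) < q := by exact_mod_cast hqn
    linarith only [this]
  have hl : 0 < Real.log Λ := by linarith only [b9, w0]
  -- the size of `M₁`
  have hM1T : q ≤ (z ^ l) ^ T1 := by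
    have h1 : (q : ℝ) ≤ (((z ^ l) ^ T1 : ℕ) : ℝ) := by
      have e1 : (((z ^ l) ^ T1 : ℕ) : ℝ) = Real.exp (T1 * (l * w)) := by
        rw [← pow_mul]; push_cast; rw [zpow_exp z zn0]; congr 1; push_cast; ring
      rw [e1, hqe]
      apply Real.exp_le_exp.2
      have e2 : 2 * a * Λ ≤ T1 * ((l + 1) * (a * w)) := by
        calc 2 * a * Λ ≤ η * T1 * Λ := mul_le_mul_of_nonneg_right hT1 b7.le
          _ = T1 * (η * Λ) := by ring
          _ ≤ _ := mul_le_mul_of_nonneg_left L2 T0.le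
      have e3 : 2 * Λ ≤ T1 * ((l + 1) * w) := by
        have : (2 * Λ) * a ≤ (T1 * ((l + 1) * w)) * a := by
          calc (2 * Λ) * a = 2 * a * Λ := by ring
            _ ≤ _ := e2
            _ = _ := by ring
        exact le_of_mul_le_mul_right this (by linarith only [a1])
      have e4 : T1 * w ≤ Λ := (mul_le_mul_of_nonneg_right a11 w0.le).trans b4
      have e5 : (T1 : ℝ) * ((l + 1) * w) = T1 * (l * w) + T1 * w := by ring
      linarith only [e3, e4, e5]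
    exact_mod_cast h1
  have hM0T : q ≤ (Nat.sqrt q + 1) ^ 2 := by
    have : q < (Nat.sqrt q + 1) * (Nat.sqrt q + 1) := Nat.lt_succ_sqrt q
    rw [sq]
    exact this.le
  have hCD0 : 0 < CD := by linarith only [a4]
  have hcount := hpar.count hCD0 H hKc ((q : ℝ) ^ (-(ε / (4 * T1)))) ((q : ℝ) ^ (-(ε / 8)))
    (hβ (z ^ l) hM1T) (hγ _ hM0T) (Real.exp (c * Real.sqrt (Λ / Real.log Λ))) (Real.exp_pos _).le
    hVV
  refine hcount.trans (mul_le_mul_of_nonneg_left ?_ hq1)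
  -- the exponent
  set u := c * (Λ / Real.log Λ) with hu
  have hu3 : u * (3 * w) ≤ c * Λ := by
    rw [hu, mul_assoc]
    apply mul_le_mul_of_nonneg_left _ hc0.le
    rw [div_mul_eq_mul_div, div_le_iff₀ hl]
    exact mul_le_mul_of_nonneg_left b9 b7.le
  have hu0 : 0 ≤ u := by positivity
  have hu1 : u ≤ c * Λ := by
    have : u * 1 ≤ u * (3 * w) := mul_le_mul_of_nonneg_left (by linarith only [b2]) hu0
    linarith only [this, hu3]
  have hcT : c ≤ ε / (16 * T1) := by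
    rw [le_div_iff₀ (by positivity)]
    linarith only [hc3]
  have hu2 : u ≤ ε * Λ / (16 * T1) := by
    calc u ≤ c * Λ := hu1
      _ ≤ ε / (16 * T1) * Λ := mul_le_mul_of_nonneg_right hcT b7.le
      _ = _ := by ring
  have hεΛ : 0 < ε * Λ := by positivity
  have hu4 : u ≤ ε * Λ / 16000 := by
    refine hu2.trans ?_
    apply div_le_div_of_nonneg_left hεΛ.le (by norm_num)
    linarith only [a3]
  have hT5 : 1000 * (T1 : ℝ) ≤ ε * Λ := hK1.trans (mul_le_mul_of_nonneg_left b6 hε.le)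
  have ze : ∀ n : ℕ, (z : ℝ) ^ n = Real.exp (n * w) := zpow_exp z zn0
  have hYr : (((z ^ a) ^ b : ℕ) : ℝ) ^ (6 * r) = Real.exp (6 * (r * (a * b * w))) := by
    push_cast
    rw [← pow_mul, ← pow_mul, ze]
    congr 1
    push_cast
    ring
  have hZ1 : (((z ^ a) ^ b : ℕ) : ℝ) ^ (6 * r) ≤ Real.exp (ε * Λ / (8 * T1)) := by
    rw [hYr]
    apply Real.exp_le_exp.2
    rw [le_div_iff₀ (by positivity)]
    calc 6 * (r * (a * b * w)) * (8 * T1) = (48 * T1 * (a * b)) * (r * w) := by ring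
      _ ≤ (48 * T1 * (a * b)) * (δ * Λ) := mul_le_mul_of_nonneg_left R1 (by positivity)
      _ = (δ * (a * b) * (48 * T1)) * Λ := by ring
      _ = ε * Λ := by rw [hδ]
  have hZ2 : (((z ^ a) ^ b : ℕ) : ℝ) ^ (6 * r) ≤ Real.exp (ε * Λ / 8000) := by
    refine hZ1.trans (Real.exp_le_exp.2 ?_)
    apply div_le_div_of_nonneg_left hεΛ.le (by norm_num)
    linarith only [a3]
  have hX2 : ((z ^ l * ((z ^ a) ^ b) ^ r : ℕ) : ℝ) ≤ Real.exp Λ := by
    have e1 : ((z ^ l * ((z ^ a) ^ b) ^ r : ℕ) : ℝ) = Real.exp (l * w + r * (a * b * w)) := by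
      push_cast
      rw [← pow_mul, ← pow_mul, ze, ze, ← Real.exp_add]
      congr 1
      push_cast
      ring
    rw [e1]
    apply Real.exp_le_exp.2
    have : ε * Λ ≤ 1 * Λ := mul_le_mul_of_nonneg_right hε1 b7.le
    linarith only [this, n2, n3, b7]
  have hL := Lbound (z ^ l * ((z ^ a) ^ b) ^ r) (Nat.mul_ne_zero (by positivity) (by positivity))
    hX2 b1 s2
  have hL' : ((Nat.log 2 (z ^ l * ((z ^ a) ^ b) ^ r) + 1 : ℕ) : ℝ) ≤ Real.exp (4 * w) := by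
    refine hL.trans (le_of_eq ?_)
    rw [ze]
    norm_num
  have hwz : w ≤ ε * Λ / 1000 := by
    have : 1 * w ≤ z * w := mul_le_mul_of_nonneg_right (by linarith only [b1]) w0.le
    linarith only [this, n4]
  have t1 := t1_aux (ε := ε) hqe _ (by positivity) w hL' hwz hu4 n5
  have t2 := t2_aux (ε := ε) (T := T1) T0 hqe hZ1 hu2 hT5
  have hD : (((DD z (z ^ a) l).card : ℕ) : ℝ) ≤ Real.exp (ε * Λ / 50) := by
    refine (card_DD z (z ^ a) l (Nat.one_le_iff_ne_zero.2 (pow_ne_zero _ (by omega)))).trans ?_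
    have e1 : (2 : ℝ) ^ z ≤ Real.exp z := by
      have : Real.exp (z : ℝ) = (Real.exp 1) ^ z := by rw [← Real.exp_nat_mul, mul_one]
      rw [this]
      apply pow_le_pow_left₀ (by norm_num)
      have := Real.exp_one_gt_d9
      linarith only [this]
    have e2 : (l : ℝ) + 1 ≤ Real.exp l := Real.add_one_le_exp _
    have e3 : (((z ^ a : ℕ) : ℝ)) ^ l = Real.exp (l * (a * w)) := by
      push_cast
      rw [← pow_mul, ze]
      congr 1
      push_cast
      ring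
    rw [e3]
    calc (2 : ℝ) ^ z * ((l + 1) * Real.exp (l * (a * w))) ≤
        Real.exp z * (Real.exp l * Real.exp (l * (a * w))) := by
          apply mul_le_mul e1 _ (by positivity) (Real.exp_pos _).le
          exact mul_le_mul_of_nonneg_right e2 (Real.exp_pos _).le
      _ = Real.exp (z + (l + l * (a * w))) := by rw [← Real.exp_add, ← Real.exp_add]
      _ ≤ _ := by
          apply Real.exp_le_exp.2
          have f1 : (z : ℝ) ≤ z * w := le_mul_of_one_le_right z0.le b2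
          have f2 : (l : ℝ) ≤ l * w := le_mul_of_one_le_right (by positivity) b2
          rw [hη] at L1
          linarith only [f1, f2, n2, n4, L1]
  have hκ : (Fintype.card (ann H) : ℝ) / q ≤ Real.exp (-(ε * Λ)) := by
    rw [div_le_iff₀ hq0]
    refine hKc.trans (le_of_eq ?_)
    rw [Real.rpow_def_of_pos hq0, ← hΛdef]
    rw [hqe]
    rw [← Real.exp_add]
    congr 1
    ring
  have t3 := t3_aux (ε := ε) hqe (Nat.cast_nonneg _) (by positivity) (by positivity) hZ2 hD hκ hu4 n5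
  have t4 : Real.exp (-(m : ℝ)) ≤ 1 / 4 * Real.exp (-u) := by
    apply exp_quarter
    have := t4_aux w0 hCD0 m2 J2 hu3 hc2 hK2 b7 hδ0 b4
    linarith only [this]
  linarith only [t1, t2, t3, t4]

end

end Pool.Agent.V8H32.Cos
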