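import Mathlib
import Pool.Agent.V8H32.Cos.Par5
import Pool.Agent.V8H32.Cos.Large

/-! The theorem on almost all cosets. -/

set_option autoImplicit false

namespace Pool.Agent.V8H32.Cos
open Finset Pool.Agent.R311.RES Filter
open scoped Classical

lemma ev_log_le (K : ℝ) (hK : 0 < K) : ∀ᶠ x : ℝ in atTop, K * Real.log x ≤ x := by
  have h := Real.isLittleO_log_id_atTop.bound (c := 1 / K) (by positivity)
  filter_upwards [h, eventually_ge_atTop 1] with x hx hx1
  rw [id, Real.norm_eq_abs, Real.norm_eq_abs, abs_of_nonneg (Real.log_nonneg hx1),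
    abs_of_nonneg (by linarith)] at hx
  calc K * Real.log x ≤ K * (1 / K * x) := mul_le_mul_of_nonneg_left hx hK.le
    _ = x := by field_simp

lemma tendsto_log_nat : Tendsto (fun q : ℕ => Real.log (q : ℝ)) atTop atTop :=
  Real.tendsto_log_atTop.comp tendsto_natCast_atTop_atTop

lemma ev_siz (K : ℝ) (hK : 0 < K) : ∃ q₀ : ℕ, ∀ q : ℕ, q₀ ≤ q →
    Siz K (Real.log q) ⌊(Real.log q) ^ (1 / 3 : ℝ)⌋₊ := by
  have h2 : Tendsto (fun q : ℕ => ((⌊(Real.log q) ^ (1 / 3 : ℝ)⌋₊ : ℕ) : ℝ)) atTop atTop :=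
    tendsto_natCast_atTop_atTop.comp (tendsto_nat_floor_atTop.comp
      ((tendsto_rpow_atTop (by norm_num)).comp tendsto_log_nat))
  have h3 := h2.eventually (ev_log_le K hK)
  have h4 := h2.eventually_ge_atTop K
  have h5 := tendsto_log_nat.eventually_ge_atTop 1
  obtain ⟨q₀, hq₀⟩ := eventually_atTop.1 (h3.and (h4.and h5))
  refine ⟨q₀, fun q hq => ?_⟩
  obtain ⟨a1, a2, a3⟩ := hq₀ q hq
  obtain ⟨_, b2, b3⟩ := zfacts (Real.log q) a3
  exact ⟨b2, b3, a2, a1⟩

/-- the theorem for the number of bad characters -/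
theorem count_bad (ε : ℝ) (hε : 0 < ε) (hε1 : ε ≤ 1) : ∃ c : ℝ, 0 < c ∧ ∃ q₀ : ℕ,
    ∀ (q : ℕ) [Fact q.Prime], q₀ ≤ q → ∀ H : Subgroup (DirichletCharacter ℂ q),
    (Fintype.card (ann H) : ℝ) ≤ (q : ℝ) ^ (1 - ε) →
    ((univ.filter (fun χ₀ : DirichletCharacter ℂ q => ∀ ψ : H,
      ‖DirichletCharacter.LFunction (χ₀ * (ψ : DirichletCharacter ℂ q)) (1 / 2)‖ ≤
        Real.exp (c * Real.sqrt (Real.log q / Real.log (Real.log q))))).card : ℝ) ≤
      (q - 1) * Real.exp (-(c * (Real.log q / Real.log (Real.log q)))) := by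
  obtain ⟨C, hC, hM⟩ := mert
  obtain ⟨a, b, T1, η, δ, CD, K, c, hcon⟩ := exists_con ε hε hε1 C hC
  obtain ⟨a1, a2, a3, a4, a5, a6, a7, a8, a9, a10, a11⟩ := hcon.basic
  obtain ⟨q1, hq1⟩ := ev_siz K (by linarith)
  have hT1 : 1 ≤ T1 := by
    have : (1000 : ℕ) ≤ T1 := by exact_mod_cast a3
    omega
  obtain ⟨q2, hq2⟩ := large_small T1 hT1 ε hε
  obtain ⟨q3, hq3⟩ := large_small 2 (by norm_num) ε hε
  refine ⟨c, hcon.hc0, max q1 (max q2 q3), fun q _ hq H hKc => ?_⟩
  have e1 : q1 ≤ q := (le_max_left _ _).trans hq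
  have e2 : q2 ≤ q := ((le_max_left _ _).trans (le_max_right _ _)).trans hq
  have e3 : q3 ≤ q := ((le_max_right _ _).trans (le_max_right _ _)).trans hq
  apply par_bound hM hcon (hq1 q e1) H hKc
  · intro M hM' g
    exact hq2 q e2 (ann H) hKc M hM' g
  · intro M hM' g
    refine (hq3 q e3 (ann H) hKc M hM' g).trans (le_of_eq ?_)
    congr 1
    push_cast
    ring

/-- the value at `-1` -/
noncomputable def ev (q : ℕ) : DirichletCharacter ℂ q →* ℂ where
  toFun χ := χ (-1)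
  map_one' := by
    rw [show (-1 : ZMod q) = ((-1 : (ZMod q)ˣ) : ZMod q) by simp]
    exact MulChar.one_apply_coe _
  map_mul' χ ψ := MulChar.mul_apply _ _ _

/-- the even characters of a subgroup -/
noncomputable def evp {q : ℕ} (H : Subgroup (DirichletCharacter ℂ q)) : Subgroup (DirichletCharacter ℂ q) :=
  H ⊓ (ev q).ker

lemma mem_evp {q : ℕ} {H : Subgroup (DirichletCharacter ℂ q)} {ψ : DirichletCharacter ℂ q} :
    ψ ∈ evp H ↔ ψ ∈ H ∧ ψ (-1) = 1 := by
  unfold evp
  rw [Subgroup.mem_inf, MonoidHom.mem_ker]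
  rfl

variable {q : ℕ} [Fact q.Prime]

lemma card_even (H : Subgroup (DirichletCharacter ℂ q)) : Fintype.card H ≤ 2 * Fintype.card (evp H) := by
  by_cases h : ∃ ψ₁ ∈ H, ψ₁ (-1) ≠ 1
  · obtain ⟨ψ₁, h1, h2⟩ := h
    have h3 : ψ₁ (-1) = -1 := by
      rcases DirichletCharacter.even_or_odd ψ₁ with h | h
      · exact absurd h h2
      · exact h
    have key : ∀ ψ : H, (ψ : DirichletCharacter ℂ q) (-1) ≠ 1 →
        (ψ : DirichletCharacter ℂ q) * ψ₁ ∈ evp H := by
      intro ψ hψ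
      rw [mem_evp]
      refine ⟨mul_mem ψ.2 h1, ?_⟩
      have h4 : (ψ : DirichletCharacter ℂ q) (-1) = -1 := by
        rcases DirichletCharacter.even_or_odd (ψ : DirichletCharacter ℂ q) with h | h
        · exact absurd h hψ
        · exact h
      rw [MulChar.mul_apply, h4, h3]
      norm_num
    let F : H → evp H × Bool := fun ψ =>
      if hψ : (ψ : DirichletCharacter ℂ q) (-1) = 1 then (⟨ψ.1, mem_evp.2 ⟨ψ.2, hψ⟩⟩, true)
      else (⟨ψ.1 * ψ₁, key ψ hψ⟩, false)
    have hF : Function.Injective F := by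
      intro ψ ψ' hh
      simp only [F] at hh
      split_ifs at hh with c1 c2 c2
      · have := congrArg (fun t => (t.1 : DirichletCharacter ℂ q)) hh
        exact Subtype.ext this
      · have := congrArg (fun t => t.2) hh
        simp at this
      · have := congrArg (fun t => t.2) hh
        simp at this
      · have := congrArg (fun t => (t.1 : DirichletCharacter ℂ q)) hh
        exact Subtype.ext (mul_right_cancel this)
    have := Fintype.card_le_of_injective F hF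
    rw [Fintype.card_prod, Fintype.card_bool] at this
    omega
  · push Not at h
    have h1 : Fintype.card H ≤ Fintype.card (evp H) :=
      Fintype.card_le_of_injective (fun ψ : H => (⟨ψ.1, mem_evp.2 ⟨ψ.2, h ψ.1 ψ.2⟩⟩ : evp H))
        (fun a b hab => Subtype.ext
          (congrArg (fun t : evp H => (t : DirichletCharacter ℂ q)) hab))
    omega

/-- cosets and characters -/
lemma coset_count (H : Subgroup (DirichletCharacter ℂ q)) (V : ℝ) :
    Nat.card {C : DirichletCharacter ℂ q ⧸ H // ∃ χ : DirichletCharacter ℂ q,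
      (χ : DirichletCharacter ℂ q ⧸ H) = C ∧ ∀ χ' : DirichletCharacter ℂ q,
        (χ' : DirichletCharacter ℂ q ⧸ H) = C → χ' (-1) = χ (-1) →
          ‖DirichletCharacter.LFunction χ' (1 / 2)‖ ≤ V} * Fintype.card (evp H) ≤
    (univ.filter (fun χ₀ : DirichletCharacter ℂ q => ∀ ψ : evp H,
      ‖DirichletCharacter.LFunction (χ₀ * (ψ : DirichletCharacter ℂ q)) (1 / 2)‖ ≤ V)).card := by
  set S := {C : DirichletCharacter ℂ q ⧸ H // ∃ χ : DirichletCharacter ℂ q,
      (χ : DirichletCharacter ℂ q ⧸ H) = C ∧ ∀ χ' : DirichletCharacter ℂ q,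
        (χ' : DirichletCharacter ℂ q ⧸ H) = C → χ' (-1) = χ (-1) →
          ‖DirichletCharacter.LFunction χ' (1 / 2)‖ ≤ V} with hS
  have hfin : Finite (DirichletCharacter ℂ q ⧸ H) := inferInstance
  have : Finite S := Subtype.finite
  have : Fintype S := Fintype.ofFinite S
  rw [Nat.card_eq_fintype_card, ← Fintype.card_prod, ← Fintype.card_coe]
  choose f hf1 hf2 using (fun C : S => C.2)
  have hmem : ∀ p : S × evp H, f p.1 * (p.2 : DirichletCharacter ℂ q) ∈
      univ.filter (fun χ₀ : DirichletCharacter ℂ q => ∀ ψ : evp H,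
      ‖DirichletCharacter.LFunction (χ₀ * (ψ : DirichletCharacter ℂ q)) (1 / 2)‖ ≤ V) := by
    intro p
    rw [mem_filter]
    refine ⟨mem_univ _, fun ψ => ?_⟩
    apply hf2 p.1
    · rw [mul_assoc, QuotientGroup.mk_mul_of_mem _ (mul_mem (mem_evp.1 p.2.2).1 (mem_evp.1 ψ.2).1)]
      exact hf1 p.1
    · rw [MulChar.mul_apply, MulChar.mul_apply, (mem_evp.1 p.2.2).2, (mem_evp.1 ψ.2).2, mul_one,
        mul_one]
  apply Fintype.card_le_of_injective (fun p : S × evp H =>
    (⟨f p.1 * (p.2 : DirichletCharacter ℂ q), hmem p⟩ :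
      {χ // χ ∈ univ.filter (fun χ₀ : DirichletCharacter ℂ q => ∀ ψ : evp H,
      ‖DirichletCharacter.LFunction (χ₀ * (ψ : DirichletCharacter ℂ q)) (1 / 2)‖ ≤ V)}))
  intro p p' h
  have h0 : f p.1 * (p.2 : DirichletCharacter ℂ q) = f p'.1 * (p'.2 : DirichletCharacter ℂ q) :=
    congrArg (fun t => t.1) h
  have e1 : p.1 = p'.1 := by
    apply Subtype.ext
    rw [← hf1 p.1, ← hf1 p'.1, ← QuotientGroup.mk_mul_of_mem (f p.1) (mem_evp.1 p.2.2).1, h0,
      QuotientGroup.mk_mul_of_mem _ (mem_evp.1 p'.2.2).1]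
  apply Prod.ext e1
  rw [e1] at h0
  exact Subtype.ext (mul_left_cancel h0)

end Pool.Agent.V8H32.Cos
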